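import Pool.Agent.Helper18.KC.Defs

/-!
Basic lemmas on connected edge sets, boundaries, and routes.
-/

namespace BNTW

open Finset

variable {V E T : Type*} [Fintype E] [DecidableEq V] [DecidableEq E]

omit [Fintype E] [DecidableEq E] in
lemma mem_VS {ends : E → V × V} {X : Finset E} {v : V} :
    v ∈ VS ends X ↔ ∃ e ∈ X, v ∈ endsSet ends e := by
  unfold VS; rw [mem_biUnion]

omit [Fintype E] in
lemma VS_mono {ends : E → V × V} {X Y : Finset E} (h : X ⊆ Y) : VS ends X ⊆ VS ends Y := by
  intro v hv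
  rw [mem_VS] at hv ⊢
  obtain ⟨e, he, hv⟩ := hv
  exact ⟨e, h he, hv⟩

lemma mem_bdry {ends : E → V × V} {X : Finset E} {v : V} :
    v ∈ bdry ends X ↔ v ∈ VS ends X ∧ ∃ e, e ∉ X ∧ v ∈ endsSet ends e := by
  unfold bdry
  rw [mem_inter]
  constructor
  · rintro ⟨h1, h2⟩
    refine ⟨h1, ?_⟩
    rw [mem_VS] at h2
    obtain ⟨e, he, hv⟩ := h2
    exact ⟨e, (mem_sdiff.1 he).2, hv⟩
  · rintro ⟨h1, e, he, hv⟩
    exact ⟨h1, mem_VS.2 ⟨e, mem_sdiff.2 ⟨mem_univ _, he⟩, hv⟩⟩

lemma bdry_subset_VS {ends : E → V × V} {X : Finset E} : bdry ends X ⊆ VS ends X :=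
  fun _ hv => (mem_bdry.1 hv).1

lemma mem_bdry_of_disjoint {ends : E → V × V} {X Y : Finset E} (h : Disjoint X Y) {v : V}
    (h1 : v ∈ VS ends X) (h2 : v ∈ VS ends Y) : v ∈ bdry ends X := by
  rw [mem_bdry]
  refine ⟨h1, ?_⟩
  obtain ⟨e, he, hv⟩ := mem_VS.1 h2
  exact ⟨e, fun hx => (Finset.disjoint_left.1 h) hx he, hv⟩

lemma mem_bdry_of_subset {ends : E → V × V} {X Y : Finset E} (h : X ⊆ Y) {v : V}
    (h1 : v ∈ VS ends X) (h2 : v ∈ bdry ends Y) : v ∈ bdry ends X := by
  rw [mem_bdry] at h2 ⊢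
  obtain ⟨_, e, he, hv⟩ := h2
  exact ⟨h1, e, fun hx => he (h hx), hv⟩

omit [Fintype E] [DecidableEq E] in
lemma Cn.mono {ends : E → V × V} {X Y : Finset E} (h : X ⊆ Y) {u v : V} (hc : Cn ends X u v) :
    Cn ends Y u v := by
  unfold Cn at hc ⊢
  induction hc with
  | refl => exact Relation.ReflTransGen.refl
  | tail _ hstep ih =>
    obtain ⟨e, he, hj⟩ := hstep
    exact Relation.ReflTransGen.tail ih ⟨e, h he, hj⟩

omit [Fintype E] [DecidableEq E] in
lemma Joins.symm' {ends : E → V × V} {e : E} {u v : V} (h : Joins ends e u v) :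
    Joins ends e v u := by
  rcases h with ⟨h1, h2⟩ | ⟨h1, h2⟩
  · exact Or.inr ⟨h1, h2⟩
  · exact Or.inl ⟨h1, h2⟩

omit [Fintype E] [DecidableEq E] in
lemma Cn.symm' {ends : E → V × V} {X : Finset E} {u v : V} (hc : Cn ends X u v) :
    Cn ends X v u := by
  unfold Cn at hc ⊢
  induction hc with
  | refl => exact Relation.ReflTransGen.refl
  | tail _ hstep ih =>
    obtain ⟨e, he, hj⟩ := hstep
    exact Relation.ReflTransGen.head ⟨e, he, hj.symm'⟩ ih

omit [Fintype E] [DecidableEq E] in
lemma Cn.trans' {ends : E → V × V} {X : Finset E} {u v w : V} (h1 : Cn ends X u v)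
    (h2 : Cn ends X v w) : Cn ends X u w := Relation.ReflTransGen.trans h1 h2

omit [Fintype E] [DecidableEq E] in
lemma Joins.mem {ends : E → V × V} {e : E} {u v : V} (h : Joins ends e u v) :
    u ∈ endsSet ends e ∧ v ∈ endsSet ends e := by
  rw [mem_endsSet, mem_endsSet]
  rcases h with ⟨h1, h2⟩ | ⟨h1, h2⟩
  · exact ⟨Or.inl h1, Or.inr h2⟩
  · exact ⟨Or.inr h2, Or.inl h1⟩

omit [Fintype E] [DecidableEq E] in
lemma Cn_of_mem {ends : E → V × V} {X : Finset E} {e : E} (he : e ∈ X) {u v : V}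
    (hu : u ∈ endsSet ends e) (hv : v ∈ endsSet ends e) : Cn ends X u v := by
  rw [mem_endsSet] at hu hv
  have h12 : Cn ends X (ends e).1 (ends e).2 :=
    Relation.ReflTransGen.single ⟨e, he, Or.inl ⟨rfl, rfl⟩⟩
  rcases hu with hu | hu <;> rcases hv with hv | hv
  · rw [← hu, ← hv]; exact Relation.ReflTransGen.refl
  · rw [← hu, ← hv]; exact h12
  · rw [← hu, ← hv]; exact h12.symm'
  · rw [← hu, ← hv]; exact Relation.ReflTransGen.refl

/-- The boundary of a demand. -/
def dl (pr : V × V) (z : V) : ZMod 2 := (if pr.1 = z then 1 else 0) + (if pr.2 = z then 1 else 0)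

omit [Fintype E] in
lemma dl_self (v z : V) : dl (v, v) z = 0 := by
  unfold dl; exact zmod2_add_self _

/-- A connected pair has a route. -/
lemma exists_route {ends : E → V × V} {X : Finset E} {u v : V} (h : Cn ends X u v) :
    ∃ z : E → ZMod 2, supp z ⊆ X ∧ ∀ x, bd ends z x = dl (u, v) x := by
  unfold Cn at h
  induction h with
  | refl =>
    refine ⟨0, ?_, ?_⟩
    · rw [(supp_eq_empty_iff (0 : E → ZMod 2)).2 rfl]; exact empty_subset _
    · intro x
      rw [bd_zero, dl_self]
  | @tail b c _ hstep ih =>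
    obtain ⟨z, hz1, hz2⟩ := ih
    obtain ⟨e, he, hj⟩ := hstep
    refine ⟨z + Pi.single e 1, ?_, ?_⟩
    · intro f hf
      have := supp_add _ _ hf
      rw [mem_union] at this
      rcases this with h | h
      · exact hz1 h
      · have := supp_single _ h
        rw [mem_singleton] at this
        subst this
        exact he
    · intro x
      rw [bd_add, bd_single, hz2, inc_of_joins hj]
      unfold dl
      simp only
      generalize (if u = x then (1 : ZMod 2) else 0) = p1
      generalize (if b = x then (1 : ZMod 2) else 0) = p2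
      generalize (if c = x then (1 : ZMod 2) else 0) = p3
      revert p1 p2 p3
      decide

/-- From connectivity by edges to reachability through the pieces of a partition. -/
lemma RE_of_Cn {ends : E → V × V} {X : Finset E} {P : Finset (Finset E)}
    (hcov : ∀ e ∈ X, ∃ A ∈ P, e ∈ A) (hdisj : ∀ A ∈ P, ∀ B ∈ P, A ≠ B → Disjoint A B)
    {x y : V} (hx : ∀ A ∈ P, x ∈ VS ends A → x ∈ bdry ends A)
    (hy : ∀ A ∈ P, y ∈ VS ends A → y ∈ bdry ends A) (h : Cn ends X x y) :
    RE (bdry ends) P x y := by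
  have key : ∀ v, Cn ends X x v → v = x ∨ ∃ A ∈ P, ∃ u ∈ bdry ends A,
      RE (bdry ends) P x u ∧ v ∈ VS ends A := by
    intro v hv
    unfold Cn at hv
    induction hv with
    | refl => exact Or.inl rfl
    | @tail a b _ hstep ih =>
      right
      obtain ⟨e, he, hj⟩ := hstep
      obtain ⟨A', hA', heA'⟩ := hcov e he
      have ha : a ∈ VS ends A' := mem_VS.2 ⟨e, heA', hj.mem.1⟩
      have hb : b ∈ VS ends A' := mem_VS.2 ⟨e, heA', hj.mem.2⟩
      rcases ih with rfl | ⟨A, hA, u, hu, hRE, haA⟩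
      · exact ⟨A', hA', a, hx A' hA' ha, Relation.ReflTransGen.refl, hb⟩
      · by_cases hAA : A = A'
        · subst hAA
          exact ⟨A, hA, u, hu, hRE, hb⟩
        · have h1 := mem_bdry_of_disjoint (hdisj A hA A' hA' hAA) haA ha
          have h2 := mem_bdry_of_disjoint (hdisj A' hA' A hA (fun h => hAA h.symm)) ha haA
          exact ⟨A', hA', a, h2, Relation.ReflTransGen.tail hRE ⟨A, hA, hu, h1⟩, hb⟩
  rcases key y h with rfl | ⟨A, hA, u, hu, hRE, hyA⟩
  · exact Relation.ReflTransGen.refl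
  · exact Relation.ReflTransGen.tail hRE ⟨A, hA, hu, hy A hA hyA⟩

/-- The restriction of a vector to an edge set. -/
def rst (X : Finset E) (z : E → ZMod 2) : E → ZMod 2 := fun e => if e ∈ X then z e else 0

lemma supp_rst (X : Finset E) (z : E → ZMod 2) : supp (rst X z) ⊆ X := by
  intro e he
  rw [mem_supp] at he
  unfold rst at he
  by_contra h
  rw [if_neg h] at he
  exact he rfl

/-- The boundary of the restriction of an even vector lives on the boundary. -/
lemma bd_rst_eq_zero {ends : E → V × V} {X : Finset E} {z : E → ZMod 2}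
    (hz : ∀ x, bd ends z x = 0) {v : V} (hv : v ∉ bdry ends X) : bd ends (rst X z) v = 0 := by
  rw [mem_bdry, not_and_or] at hv
  rcases hv with hv | hv
  · unfold bd
    apply sum_eq_zero
    intro e _
    by_cases he : e ∈ X
    · rw [inc_eq_zero, mul_zero]
      intro h
      exact hv (mem_VS.2 ⟨e, he, h⟩)
    · unfold rst
      rw [if_neg he, zero_mul]
  · push Not at hv
    have : bd ends (rst X z) v = bd ends z v := by
      unfold bd
      apply sum_congr rfl
      intro e _
      by_cases he : e ∈ X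
      · unfold rst; rw [if_pos he]
      · rw [inc_eq_zero (hv e he), mul_zero, mul_zero]
    rw [this, hz]

/-- The boundary of a vector vanishes away from its support. -/
lemma bd_eq_zero_of_notMem {ends : E → V × V} {X : Finset E} {z : E → ZMod 2}
    (hz : supp z ⊆ X) {v : V} (hv : v ∉ VS ends X) : bd ends z v = 0 := by
  unfold bd
  apply sum_eq_zero
  intro e _
  by_cases he : z e = 0
  · rw [he, zero_mul]
  · rw [inc_eq_zero, mul_zero]
    intro h
    exact hv (mem_VS.2 ⟨e, hz ((mem_supp z e).2 he), h⟩)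

lemma bd_smul (ends : E → V × V) (a : ZMod 2) (z : E → ZMod 2) (x : V) :
    bd ends (a • z) x = a * bd ends z x := by
  unfold bd
  rw [mul_sum]
  apply sum_congr rfl
  intro e _
  simp [mul_assoc]

lemma bd_sub (ends : E → V × V) (z z' : E → ZMod 2) (x : V) :
    bd ends (z - z') x = bd ends z x - bd ends z' x := by
  unfold bd
  rw [← sum_sub_distrib]
  apply sum_congr rfl
  intro e _
  simp [sub_mul]

lemma supp_sum_subset {ι : Type*} (J : Finset ι) (f : ι → E → ZMod 2) (X : Finset E)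
    (h : ∀ j ∈ J, supp (f j) ⊆ X) : supp (∑ j ∈ J, f j) ⊆ X := by
  intro e he
  rw [mem_supp, Finset.sum_apply] at he
  obtain ⟨j, hj, hne⟩ := exists_ne_zero_of_sum_ne_zero he
  exact h j hj ((mem_supp _ _).2 hne)

end BNTW
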