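import Pool.Agent.Helper18.BN.Tree
import Pool.Agent.Helper18.BN.Combine

/-!
Connected edge sets, their boundaries, and laminar families of small width.
`ends : E → V × V` is a multigraph (all edges of the finite type `E`).
-/

namespace BNTW

open Finset

variable {V E T : Type*} [Fintype E] [DecidableEq V] [DecidableEq E]

/-- `u` and `v` are joined by a path with edges in `X`. -/
def Cn (ends : E → V × V) (X : Finset E) : V → V → Prop :=
  Relation.ReflTransGen (fun a b => ∃ e ∈ X, Joins ends e a b)

/-- The vertices incident with `X`. -/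
def VS (ends : E → V × V) (X : Finset E) : Finset V := X.biUnion (endsSet ends)

/-- The vertices incident both with `X` and with an edge outside `X`. -/
def bdry (ends : E → V × V) (X : Finset E) : Finset V := VS ends X ∩ VS ends (univ \ X)

/-- `X` is a nonempty connected edge set. -/
def IsCn (ends : E → V × V) (X : Finset E) : Prop :=
  X.Nonempty ∧ ∀ u ∈ VS ends X, ∀ v ∈ VS ends X, Cn ends X u v

/-- A laminar family `L` of connected edge sets with all single edges, whose members have small
boundary, and such that the boundaries of the children of a member lie in a set of at most `b`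
vertices; the components of the multigraph belong to it. -/
structure Lam (ends : E → V × V) (b : ℕ) (L : Finset (Finset E)) : Prop where
  lam : ∀ A ∈ L, ∀ B ∈ L, A ⊆ B ∨ B ⊆ A ∨ Disjoint A B
  conn : ∀ A ∈ L, IsCn ends A
  single : ∀ e, {e} ∈ L
  bcard : ∀ A ∈ L, (bdry ends A).card ≤ b
  bag : ∀ A ∈ L, 1 < A.card → ∃ B : Finset V, B.card ≤ b ∧
    ∀ C ∈ L, C ⊂ A → (∀ D ∈ L, C ⊆ D → D ⊂ A → D = C) → bdry ends C ⊆ B
  top : ∀ e, ∃ M ∈ L, e ∈ M ∧ bdry ends M = ∅

/-- The members of `L` inside `t` that separate `x` from `y` in `t`. -/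
noncomputable def Uxy (ends : E → V × V) (L : Finset (Finset E)) (t : Finset E) (x y : V) :
    Finset (Finset E) := by
  classical
  exact L.filter (fun D => D ⊆ t ∧ ¬ Cn ends (t \ D) x y)

/-- The pieces for the pair `x, y`: the maximal members of `L` inside `t` outside `Uxy`, and the
single edges in `Uxy`. -/
noncomputable def Elt (ends : E → V × V) (L : Finset (Finset E)) (t : Finset E) (x y : V) :
    Finset (Finset E) := by
  classical
  exact L.filter (fun c => c ⊆ t ∧ (∀ D ∈ L, c ⊂ D → D ⊆ t → D ∈ Uxy ends L t x y) ∧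
    (c ∉ Uxy ends L t x y ∨ c.card = 1))

/-- Reachability through the elements of `Q`, where the element `i` has vertex set `N i`. -/
def RE {ι : Type*} (N : ι → Finset V) (Q : Finset ι) : V → V → Prop :=
  Relation.ReflTransGen (fun u v => ∃ i ∈ Q, u ∈ N i ∧ v ∈ N i)

/-!
PARTS (each in its own file `Pool/Agent/Helper18/KC/<Part>.lean`, importing this file):

Part LAM:
theorem exists_lam [Fintype T] {p : T → T} {d : T → ℕ} {root : T} {bag : T → Finset V}
    {ends : E → V × V} {k : ℕ} (h : IsRTD p d root bag ends univ k) :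
    ∃ L : Finset (Finset E), Lam ends (k + 1) L

Part MEN:
theorem two_routes {ι : Type*} [DecidableEq ι] (N : ι → Finset V) (P : Finset ι)
    (cap : ι → Prop) (x y : V) (h : RE N P x y) (h2 : ∀ f ∈ P, cap f → RE N (P.erase f) x y) :
    ∃ Y1 ⊆ P, ∃ Y2 ⊆ P, RE N Y1 x y ∧ RE N Y2 x y ∧ ∀ f, f ∈ Y1 → f ∈ Y2 → ¬ cap f

Part PS:
theorem pair_split {ι : Type*} [DecidableEq ι] (N : ι → Finset V) (Q : Finset ι) (x y : V)
    (h : RE N Q x y) : ∃ pr : ι → V × V,
      (∀ i, (pr i).1 ≠ (pr i).2 → i ∈ Q ∧ (pr i).1 ∈ N i ∧ (pr i).2 ∈ N i) ∧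
      ∀ z : V, ∑ i ∈ Q, (((if (pr i).1 = z then (1 : ZMod 2) else 0) +
        (if (pr i).2 = z then 1 else 0))) =
        (if x = z then 1 else 0) + (if y = z then 1 else 0)

Part ORD:
theorem linear_order {ends : E → V × V} {b : ℕ} {L : Finset (Finset E)} (hL : Lam ends b L)
    {t : Finset E} (ht : t ∈ L) {x y : V} (hxy : x ≠ y) (hx : x ∈ VS ends t) (hy : y ∈ VS ends t) :
    ∃ key : Finset E → ℕ, Set.InjOn key (Elt ends L t x y : Set (Finset E)) ∧
      ∀ c ∈ Elt ends L t x y,
        (((((Elt ends L t x y).filter (fun c' => key c' ≤ key c)).biUnion (bdry ends)) ∩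
          (((Elt ends L t x y).filter (fun c' => key c < key c')).biUnion (bdry ends))) ∪
          bdry ends c).card ≤ 3 * b
-/

end BNTW
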