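import Pool.Agent.Helper18.KC.Basic

/-!
Laminar families of connected edge sets from rooted tree decompositions.
-/

set_option autoImplicit false
set_option linter.unusedSectionVars false

namespace BNTW

open Finset

section

variable {V E T : Type*} [Fintype E] [DecidableEq V] [DecidableEq E]

open Classical in
/-- The component of the edge `e` in the edge set `X`. -/
noncomputable def comp (ends : E → V × V) (X : Finset E) (e : E) : Finset E :=
  X.filter (fun f => Cn ends X (ends e).1 (ends f).1)

lemma mem_comp {ends : E → V × V} {X : Finset E} {e f : E} :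
    f ∈ comp ends X e ↔ f ∈ X ∧ Cn ends X (ends e).1 (ends f).1 := by
  unfold comp; simp

lemma comp_subset {ends : E → V × V} {X : Finset E} {e : E} : comp ends X e ⊆ X :=
  fun _ hf => (mem_comp.1 hf).1

lemma self_mem_comp {ends : E → V × V} {X : Finset E} {e : E} (he : e ∈ X) :
    e ∈ comp ends X e := mem_comp.2 ⟨he, Relation.ReflTransGen.refl⟩

lemma fst_mem_endsSet {ends : E → V × V} {e : E} : (ends e).1 ∈ endsSet ends e := by
  rw [mem_endsSet]; exact Or.inl rfl

lemma comp_eq {ends : E → V × V} {X : Finset E} {e g : E} (hg : g ∈ comp ends X e) :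
    comp ends X g = comp ends X e := by
  have h := (mem_comp.1 hg).2
  ext f
  rw [mem_comp, mem_comp]
  exact ⟨fun ⟨h1, h2⟩ => ⟨h1, h.trans' h2⟩, fun ⟨h1, h2⟩ => ⟨h1, h.symm'.trans' h2⟩⟩

lemma comp_mono {ends : E → V × V} {X Y : Finset E} (h : X ⊆ Y) (e : E) :
    comp ends X e ⊆ comp ends Y e := by
  intro f hf
  rw [mem_comp] at hf ⊢
  exact ⟨h hf.1, hf.2.mono h⟩

/-- an edge of `X` at a vertex connected with `e` is in the component -/
lemma mem_comp_of {ends : E → V × V} {X : Finset E} {e f : E} {v : V} (hf : f ∈ X)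
    (hv : v ∈ endsSet ends f) (h : Cn ends X (ends e).1 v) : f ∈ comp ends X e :=
  mem_comp.2 ⟨hf, h.trans' (Cn_of_mem hf hv fst_mem_endsSet)⟩

lemma cn_of_mem_comp {ends : E → V × V} {X : Finset E} {e f : E} {v : V}
    (hf : f ∈ comp ends X e) (hv : v ∈ endsSet ends f) : Cn ends X (ends e).1 v :=
  (mem_comp.1 hf).2.trans' (Cn_of_mem (mem_comp.1 hf).1 fst_mem_endsSet hv)

lemma cn_comp {ends : E → V × V} {X : Finset E} {e : E} {v : V} (h : Cn ends X (ends e).1 v) :
    Cn ends (comp ends X e) (ends e).1 v := by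
  unfold Cn at h
  induction h with
  | refl => exact Relation.ReflTransGen.refl
  | @tail b c hb hstep ih =>
    obtain ⟨g, hg, hj⟩ := hstep
    exact Relation.ReflTransGen.tail ih ⟨g, mem_comp_of hg hj.mem.1 hb, hj⟩

lemma isCn_comp {ends : E → V × V} {X : Finset E} {e : E} (he : e ∈ X) :
    IsCn ends (comp ends X e) := by
  refine ⟨⟨e, self_mem_comp he⟩, fun u hu v hv => ?_⟩
  obtain ⟨f, hf, huf⟩ := mem_VS.1 hu
  obtain ⟨g, hg, hvg⟩ := mem_VS.1 hv
  exact (cn_comp (cn_of_mem_comp hf huf)).symm'.trans' (cn_comp (cn_of_mem_comp hg hvg))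

lemma isCn_single {ends : E → V × V} (e : E) : IsCn ends ({e} : Finset E) := by
  refine ⟨⟨e, mem_singleton_self e⟩, fun u hu v hv => ?_⟩
  obtain ⟨f, hf, huf⟩ := mem_VS.1 hu
  obtain ⟨g, hg, hvg⟩ := mem_VS.1 hv
  rw [mem_singleton] at hf hg
  subst hf
  subst hg
  exact Cn_of_mem (mem_singleton_self _) huf hvg

/-- the boundary of a component: other edges at these vertices are outside `X` -/
lemma bdry_comp {ends : E → V × V} {X : Finset E} {e : E} {v : V}
    (hv : v ∈ bdry ends (comp ends X e)) :
    (∃ g ∈ comp ends X e, v ∈ endsSet ends g) ∧ ∃ f, f ∉ X ∧ v ∈ endsSet ends f := by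
  rw [mem_bdry] at hv
  obtain ⟨h1, f, hf, hvf⟩ := hv
  obtain ⟨g, hg, hvg⟩ := mem_VS.1 h1
  refine ⟨⟨g, hg, hvg⟩, f, fun hfX => hf ?_, hvf⟩
  exact mem_comp_of hfX hvf (cn_of_mem_comp hg hvg)

open Classical in
/-- the edges below the node `c` -/
noncomputable def below (p : T → T) (τ : E → T) (c : T) : Finset E :=
  univ.filter (fun e => Desc p c (τ e))

lemma mem_below {p : T → T} {τ : E → T} {c : T} {e : E} : e ∈ below p τ c ↔ Desc p c (τ e) := by
  unfold below; simp

lemma below_mono {p : T → T} {τ : E → T} {c c' : T} (h : Desc p c c') :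
    below p τ c' ⊆ below p τ c := by
  intro e he
  rw [mem_below] at he ⊢
  exact h.trans he

lemma desc_total {p : T → T} {c c' s : T} (h : Desc p c s) (h' : Desc p c' s) :
    Desc p c c' ∨ Desc p c' c := by
  obtain ⟨m, hm⟩ := h
  obtain ⟨n, hn⟩ := h'
  rcases le_total m n with hmn | hmn
  · right
    refine ⟨n - m, ?_⟩
    rw [← hm, ← Function.iterate_add_apply, Nat.sub_add_cancel hmn, hn]
  · left
    refine ⟨m - n, ?_⟩
    rw [← hn, ← Function.iterate_add_apply, Nat.sub_add_cancel hmn, hm]

/-- a proper descendant is below a child -/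
lemma exists_child {p : T → T} {c s : T} (h : Desc p c s) (hne : s ≠ c) :
    ∃ c', p c' = c ∧ c' ≠ c ∧ Desc p c' s := by
  obtain ⟨n, hn⟩ := h
  induction n generalizing s with
  | zero => exact absurd hn hne
  | succ n ih =>
    rw [Function.iterate_succ_apply] at hn
    by_cases hps : p s = c
    · exact ⟨s, hps, hne, Desc.refl p s⟩
    · obtain ⟨c', h1, h2, h3⟩ := ih hps hn
      exact ⟨c', h1, h2, h3.trans ⟨1, rfl⟩⟩

end

/-- Part LAM -/
theorem exists_lam {V E T : Type*} [Fintype E] [DecidableEq V] [DecidableEq E] [Fintype T]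
    {p : T → T} {d : T → ℕ} {root : T} {bag : T → Finset V}
    {ends : E → V × V} {k : ℕ} (h : IsRTD p d root bag ends univ k) :
    ∃ L : Finset (Finset E), Lam ends (k + 1) L := by
  classical
  have hτ : ∀ e : E, ∃ t, ∀ v ∈ endsSet ends e, v ∈ bag t := by
    intro e
    obtain ⟨t, h1, h2⟩ := h.cover e (mem_univ e)
    refine ⟨t, fun v hv => ?_⟩
    rw [mem_endsSet] at hv
    rcases hv with rfl | rfl
    · exact h1
    · exact h2
  choose τ hτ using hτ
  let L : Finset (Finset E) :=
    (univ : Finset T).biUnion (fun c => (below p τ c).image (comp ends (below p τ c))) ∪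
      (univ : Finset E).image (fun e => {e})
  have hL : ∀ A, A ∈ L ↔ (∃ c, ∃ e ∈ below p τ c, comp ends (below p τ c) e = A) ∨
      ∃ e, {e} = A := by
    intro A
    simp only [L, mem_union, mem_biUnion, mem_univ, true_and, mem_image]
  -- the boundaries
  have hbd : ∀ c e v, v ∈ bdry ends (comp ends (below p τ c) e) → v ∈ bag c ∧ v ∈ bag (p c) := by
    intro c e v hv
    obtain ⟨⟨g, hg, hvg⟩, f, hf, hvf⟩ := bdry_comp hv
    have hg' : Desc p c (τ g) := mem_below.1 (comp_subset hg)
    have hf' : ¬ Desc p c (τ f) := fun hh => hf (mem_below.2 hh)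
    have hvg' := hτ g v hvg
    have hvf' := hτ f v hvf
    constructor
    · by_contra hc
      have hne : τ g ≠ c := fun hh => hc (hh ▸ hvg')
      obtain ⟨c', hc1, hc2, m, hm⟩ := exists_child hg' hne
      have := chain h c' v (by rw [hc1]; exact hc) m (τ g) hm hvg' (τ f) hvf'
      exact hf' (Desc.trans ⟨1, hc1⟩ this)
    · by_contra hc
      obtain ⟨m, hm⟩ := hg'
      exact hf' (chain h c v hc m (τ g) hm hvg' (τ f) hvf')
  refine ⟨L, ?_, ?_, ?_, ?_, ?_, ?_⟩
  · -- laminarity
    have hsingle : ∀ (e : E) (B : Finset E), {e} ⊆ B ∨ Disjoint {e} B := by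
      intro e B
      by_cases he : e ∈ B
      · left; exact singleton_subset_iff.2 he
      · right; exact disjoint_singleton_left.2 he
    intro A hA B hB
    rcases (hL A).1 hA with ⟨c, e, he, rfl⟩ | ⟨e, rfl⟩
    · rcases (hL B).1 hB with ⟨c', e', he', rfl⟩ | ⟨e', rfl⟩
      · by_cases hdis : Disjoint (comp ends (below p τ c) e) (comp ends (below p τ c') e')
        · exact Or.inr (Or.inr hdis)
        · rw [not_disjoint_iff] at hdis
          obtain ⟨g, hg, hg'⟩ := hdis
          have hd1 := mem_below.1 (comp_subset hg)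
          have hd2 := mem_below.1 (comp_subset hg')
          rw [← comp_eq hg, ← comp_eq hg']
          rcases desc_total hd1 hd2 with hd | hd
          · exact Or.inr (Or.inl (comp_mono (below_mono hd) g))
          · exact Or.inl (comp_mono (below_mono hd) g)
      · rcases hsingle e' (comp ends (below p τ c) e) with hh | hh
        · exact Or.inr (Or.inl hh)
        · exact Or.inr (Or.inr hh.symm)
    · rcases hsingle e B with hh | hh
      · exact Or.inl hh
      · exact Or.inr (Or.inr hh)
  · -- connected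
    intro A hA
    rcases (hL A).1 hA with ⟨c, e, he, rfl⟩ | ⟨e, rfl⟩
    · exact isCn_comp he
    · exact isCn_single e
  · -- single edges
    intro e
    exact (hL _).2 (Or.inr ⟨e, rfl⟩)
  · -- small boundaries
    intro A hA
    rcases (hL A).1 hA with ⟨c, e, he, rfl⟩ | ⟨e, rfl⟩
    · exact (card_le_card fun v hv => (hbd c e v hv).1).trans (h.width c)
    · refine (card_le_card fun v hv => ?_).trans (h.width (τ e))
      obtain ⟨f, hf, hvf⟩ := mem_VS.1 (bdry_subset_VS hv)
      rw [mem_singleton] at hf
      subst hf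
      exact hτ f v hvf
  · -- the bags
    intro A hA hcard
    have hA' : ∃ c, ∃ e ∈ below p τ c, comp ends (below p τ c) e = A := by
      rcases (hL A).1 hA with hh | ⟨e, rfl⟩
      · exact hh
      · simp at hcard
    obtain ⟨c, hcmem, hcmax⟩ := exists_max_image
      ((univ : Finset T).filter fun c => ∃ e ∈ below p τ c, comp ends (below p τ c) e = A) d
      (by obtain ⟨c, hc⟩ := hA'; exact ⟨c, mem_filter.2 ⟨mem_univ _, hc⟩⟩)
    obtain ⟨-, e, he, hcomp⟩ := mem_filter.1 hcmem
    refine ⟨bag c, h.width c, fun C hC hCA hmax => ?_⟩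
    -- the main step
    have key : ∀ c' g, p c' = c → c' ≠ c → g ∈ C → g ∈ below p τ c' →
        C ⊆ comp ends (below p τ c') g → bdry ends C ⊆ bag c := by
      intro c' g hc1 hc2 hgC hg hsub
      have hd : Desc p c c' := ⟨1, hc1⟩
      have hgA : g ∈ comp ends (below p τ c) e := by rw [hcomp]; exact hCA.1 hgC
      have hDA : comp ends (below p τ c') g ⊆ A := by
        rw [← hcomp, ← comp_eq hgA]
        exact comp_mono (below_mono hd) g
      have hne : comp ends (below p τ c') g ≠ A := by
        intro hh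
        have h1 := hcmax c' (mem_filter.2 ⟨mem_univ _, g, hg, hh⟩)
        have hroot : c' ≠ root := by
          intro hr
          rw [hr, h.proot] at hc1
          exact hc2 (hr.trans hc1)
        have h2 := h.rank c' hroot
        rw [hc1] at h2
        omega
      have hD : comp ends (below p τ c') g = C :=
        hmax _ ((hL _).2 (Or.inl ⟨c', g, hg, rfl⟩)) hsub
          (Finset.ssubset_iff_subset_ne.2 ⟨hDA, hne⟩)
      intro v hv
      rw [← hD] at hv
      have := (hbd c' g v hv).2
      rwa [hc1] at this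
    rcases (hL C).1 hC with ⟨c'', g, hg, hCg⟩ | ⟨g, hCg⟩
    · have hgC : g ∈ C := by rw [← hCg]; exact self_mem_comp hg
      have hgA : g ∈ comp ends (below p τ c) e := by rw [hcomp]; exact hCA.1 hgC
      have hd1 := mem_below.1 (comp_subset hgA)
      have hd2 := mem_below.1 hg
      have hnot : ¬ Desc p c'' c := by
        intro hd
        apply hCA.2
        rw [← hcomp, ← comp_eq hgA, ← hCg]
        exact comp_mono (below_mono hd) g
      have hd : Desc p c c'' := by
        rcases desc_total hd1 hd2 with hd | hd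
        · exact hd
        · exact absurd hd hnot
      have hne : c'' ≠ c := fun hh => hnot (hh ▸ Desc.refl p _)
      obtain ⟨c', hc1, hc2, hc3⟩ := exists_child hd hne
      refine key c' g hc1 hc2 hgC (below_mono hc3 hg) ?_
      rw [← hCg]
      exact comp_mono (below_mono hc3) g
    · have hgC : g ∈ C := by rw [← hCg]; exact mem_singleton_self g
      have hgA : g ∈ comp ends (below p τ c) e := by rw [hcomp]; exact hCA.1 hgC
      have hd1 := mem_below.1 (comp_subset hgA)
      by_cases hτc : τ g = c
      · intro v hv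
        obtain ⟨f, hf, hvf⟩ := mem_VS.1 (bdry_subset_VS hv)
        rw [← hCg, mem_singleton] at hf
        subst hf
        rw [← hτc]
        exact hτ f v hvf
      · obtain ⟨c', hc1, hc2, hc3⟩ := exists_child hd1 hτc
        have hg' : g ∈ below p τ c' := mem_below.2 hc3
        refine key c' g hc1 hc2 hgC hg' ?_
        rw [← hCg]
        exact singleton_subset_iff.2 (self_mem_comp hg')
  · -- the components of the graph
    intro e
    have hall : ∀ f, f ∈ below p τ root := fun f =>
      mem_below.2 (desc_root h.rank (d (τ f)) (τ f) rfl)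
    refine ⟨comp ends (below p τ root) e, (hL _).2 (Or.inl ⟨root, e, hall e, rfl⟩),
      self_mem_comp (hall e), ?_⟩
    rw [eq_empty_iff_forall_notMem]
    intro v hv
    obtain ⟨-, f, hf, -⟩ := bdry_comp hv
    exact hf (hall f)

end BNTW
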