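import Pool.Agent.Helper18.KC.Basic

/-!
# Part ORD: the linear order of the pieces
-/

set_option autoImplicit false
set_option linter.unusedSectionVars false

namespace BNTW

open Finset

namespace Ord

variable {V E : Type*} [Fintype E] [DecidableEq V] [DecidableEq E]

/-- The edges of `t` outside `D` connected with `x` in `t` minus `D`. -/
noncomputable def XD (ends : E → V × V) (t : Finset E) (x : V) (D : Finset E) : Finset E := by
  classical
  exact (t \ D).filter (fun e => Cn ends (t \ D) x (ends e).1)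

section basic

variable {ends : E → V × V} {t D A : Finset E} {x y v : V} {e f g : E}

lemma mem_XD : e ∈ XD ends t x D ↔ e ∈ t ∧ e ∉ D ∧ Cn ends (t \ D) x (ends e).1 := by
  classical
  unfold XD
  simp only [mem_filter, mem_sdiff, and_assoc]

lemma mem_XD_of (he : e ∈ t) (heD : e ∉ D) (hv : v ∈ endsSet ends e) (h : Cn ends (t \ D) x v) :
    e ∈ XD ends t x D := by
  rw [mem_XD]
  refine ⟨he, heD, h.trans' (Cn_of_mem (mem_sdiff.2 ⟨he, heD⟩) hv ?_)⟩
  rw [mem_endsSet]
  exact Or.inl rfl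

lemma Cn_of_XD (h : e ∈ XD ends t x D) (hv : v ∈ endsSet ends e) : Cn ends (t \ D) x v := by
  rw [mem_XD] at h
  refine h.2.2.trans' (Cn_of_mem (mem_sdiff.2 ⟨h.1, h.2.1⟩) ?_ hv)
  rw [mem_endsSet]
  exact Or.inl rfl

lemma XD_sub : XD ends t x D ⊆ t \ D := by
  intro e he
  rw [mem_XD] at he
  exact mem_sdiff.2 ⟨he.1, he.2.1⟩

lemma XD_adj (hg : g ∈ XD ends t x D) (hf : f ∈ t) (hfD : f ∉ D) (h1 : v ∈ endsSet ends g)
    (h2 : v ∈ endsSet ends f) : f ∈ XD ends t x D :=
  mem_XD_of hf hfD h2 (Cn_of_XD hg h1)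

lemma XD_all (hA : IsCn ends A) (hAt : A ⊆ t \ D) :
    A ⊆ XD ends t x D ∨ Disjoint A (XD ends t x D) := by
  by_cases h : ∃ e ∈ A, e ∈ XD ends t x D
  · left
    obtain ⟨e, he, heX⟩ := h
    intro f hf
    have h1 : (ends e).1 ∈ endsSet ends e := by rw [mem_endsSet]; exact Or.inl rfl
    have h2 : (ends f).1 ∈ endsSet ends f := by rw [mem_endsSet]; exact Or.inl rfl
    have h3 := hA.2 _ (mem_VS.2 ⟨e, he, h1⟩) _ (mem_VS.2 ⟨f, hf, h2⟩)
    have h4 := (Cn_of_XD heX h1).trans' (h3.mono hAt)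
    exact mem_XD_of (mem_sdiff.1 (hAt hf)).1 (mem_sdiff.1 (hAt hf)).2 h2 h4
  · right
    push Not at h
    exact Finset.disjoint_left.2 h

lemma Cn_XD {w : V} (h : Cn ends (t \ D) x w) : Cn ends (XD ends t x D) x w := by
  unfold Cn at h
  induction h with
  | refl => exact Relation.ReflTransGen.refl
  | @tail a b hab hstep ih =>
    obtain ⟨e, he, hj⟩ := hstep
    refine Relation.ReflTransGen.tail ih ⟨e, ?_, hj⟩
    exact mem_XD_of (mem_sdiff.1 he).1 (mem_sdiff.1 he).2 hj.mem.1 hab

lemma reach (ht : IsCn ends t) (hx : x ∈ VS ends t) (hD : D.Nonempty) (hDt : D ⊆ t) :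
    ∃ u ∈ VS ends D, Cn ends (XD ends t x D) x u := by
  obtain ⟨e0, he0⟩ := hD
  have h1 : (ends e0).1 ∈ endsSet ends e0 := by rw [mem_endsSet]; exact Or.inl rfl
  have key : ∀ w, Cn ends t x w →
      (∃ u ∈ VS ends D, Cn ends (XD ends t x D) x u) ∨ Cn ends (XD ends t x D) x w := by
    intro w hw
    unfold Cn at hw
    induction hw with
    | refl => exact Or.inr Relation.ReflTransGen.refl
    | @tail a b _ hstep ih =>
      rcases ih with h | h
      · exact Or.inl h
      · obtain ⟨e, he, hj⟩ := hstep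
        by_cases heD : e ∈ D
        · exact Or.inl ⟨a, mem_VS.2 ⟨e, heD, hj.mem.1⟩, h⟩
        · right
          refine Relation.ReflTransGen.tail h ⟨e, ?_, hj⟩
          exact mem_XD_of he heD hj.mem.1 (h.mono XD_sub)
  rcases key (ends e0).1 (ht.2 x hx _ (mem_VS.2 ⟨e0, hDt he0, h1⟩)) with h | h
  · exact h
  · exact ⟨_, mem_VS.2 ⟨e0, he0, h1⟩, h⟩

lemma XD_mono {D' : Finset E} (h : Disjoint D' (XD ends t x D)) :
    XD ends t x D ⊆ XD ends t x D' := by
  intro e he
  have h0 : XD ends t x D ⊆ t \ D' := by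
    intro f hf
    exact mem_sdiff.2 ⟨(mem_sdiff.1 (XD_sub hf)).1, fun hf' => Finset.disjoint_left.1 h hf' hf⟩
  have h1 : (ends e).1 ∈ endsSet ends e := by rw [mem_endsSet]; exact Or.inl rfl
  exact mem_XD_of (mem_sdiff.1 (h0 he)).1 (mem_sdiff.1 (h0 he)).2 h1
    ((Cn_XD (Cn_of_XD he h1)).mono h0)

end basic

/-- the data -/
structure Ctx (ends : E → V × V) (b : ℕ) (L : Finset (Finset E)) (t : Finset E) (x y : V) :
    Prop where
  hL : Lam ends b L
  ht : t ∈ L
  hxy : x ≠ y
  hx : x ∈ VS ends t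
  hy : y ∈ VS ends t

/-- leaves -/
def Lf (ends : E → V × V) (L : Finset (Finset E)) (t : Finset E) (x y : V) (D : Finset E) : Prop :=
  D ∈ Uxy ends L t x y ∧ ∀ D' ∈ Uxy ends L t x y, D' ⊆ D → D' = D

section ctx

variable {ends : E → V × V} {b : ℕ} {L : Finset (Finset E)} {t : Finset E} {x y : V}

lemma mem_U {D : Finset E} : D ∈ Uxy ends L t x y ↔ D ∈ L ∧ D ⊆ t ∧ ¬ Cn ends (t \ D) x y := by
  classical
  unfold Uxy
  simp only [mem_filter]

lemma Ctx.symm (h : Ctx ends b L t x y) : Ctx ends b L t y x :=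
  ⟨h.hL, h.ht, h.hxy.symm, h.hy, h.hx⟩

lemma U_symm : Uxy ends L t x y = Uxy ends L t y x := by
  ext D
  rw [mem_U, mem_U]
  constructor
  · rintro ⟨h1, h2, h3⟩
    exact ⟨h1, h2, fun h => h3 h.symm'⟩
  · rintro ⟨h1, h2, h3⟩
    exact ⟨h1, h2, fun h => h3 h.symm'⟩

lemma Lf.symm {D : Finset E} (h : Lf ends L t x y D) : Lf ends L t y x D := by
  unfold Lf at h ⊢
  rw [U_symm]
  exact h

lemma U_up {D D' : Finset E} (h : D ∈ Uxy ends L t x y) (hD' : D' ∈ L) (h1 : D ⊆ D')
    (h2 : D' ⊆ t) : D' ∈ Uxy ends L t x y := by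
  rw [mem_U] at h ⊢
  refine ⟨hD', h2, fun hc => h.2.2 (hc.mono ?_)⟩
  exact sdiff_subset_sdiff (Subset.refl _) h1

lemma Ctx.top (h : Ctx ends b L t x y) : t ∈ Uxy ends L t x y := by
  rw [mem_U]
  refine ⟨h.ht, Subset.refl _, ?_⟩
  rw [sdiff_self]
  intro hc
  have : ∀ w, Cn ends (∅ : Finset E) x w → w = x := by
    intro w hw
    unfold Cn at hw
    induction hw with
    | refl => rfl
    | tail _ hstep _ =>
      obtain ⟨e, he, _⟩ := hstep
      exact absurd he (notMem_empty _)
  exact h.hxy (this y (by simpa using hc)).symm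

lemma exists_leaf {A : Finset E} (hA : A ∈ Uxy ends L t x y) :
    ∃ D, Lf ends L t x y D ∧ D ⊆ A := by
  classical
  obtain ⟨D, hD, hmin⟩ := exists_min_image ((Uxy ends L t x y).filter (fun D => D ⊆ A))
    Finset.card ⟨A, mem_filter.2 ⟨hA, Subset.refl _⟩⟩
  rw [mem_filter] at hD
  refine ⟨D, ⟨hD.1, ?_⟩, hD.2⟩
  intro D' hD' hsub
  exact eq_of_subset_of_card_le hsub (hmin D' (mem_filter.2 ⟨hD', hsub.trans hD.2⟩))

variable (h : Ctx ends b L t x y)
include h

lemma Lf.mem {D : Finset E} (hD : Lf ends L t x y D) : D ∈ L := (mem_U.1 hD.1).1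

lemma Lf.sub {D : Finset E} (hD : Lf ends L t x y D) : D ⊆ t := (mem_U.1 hD.1).2.1

lemma Lf.ne {D : Finset E} (hD : Lf ends L t x y D) : D.Nonempty := (h.hL.conn D (hD.mem h)).1

lemma F0 {D : Finset E} (hD : Lf ends L t x y D) :
    Disjoint (XD ends t x D) (XD ends t y D) := by
  rw [Finset.disjoint_left]
  intro e h1 h2
  have h3 : (ends e).1 ∈ endsSet ends e := by rw [mem_endsSet]; exact Or.inl rfl
  exact (mem_U.1 hD.1).2.2 ((Cn_of_XD h1 h3).trans' (Cn_of_XD h2 h3).symm')

lemma F1 {D D' : Finset E} (hD : Lf ends L t x y D) (hD' : Lf ends L t x y D') (hne : D ≠ D') :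
    Disjoint D D' := by
  rcases h.hL.lam D (hD.mem h) D' (hD'.mem h) with h1 | h1 | h1
  · exact absurd (hD'.2 D hD.1 h1) hne
  · exact absurd (hD.2 D' hD'.1 h1).symm hne
  · exact h1

lemma sub_sdiff {A D : Finset E} (hA : A ⊆ t) (hd : Disjoint A D) : A ⊆ t \ D := by
  intro e he
  exact mem_sdiff.2 ⟨hA he, fun h1 => Finset.disjoint_left.1 hd he h1⟩

lemma F2 {D D' : Finset E} (hD : Lf ends L t x y D) (hD' : Lf ends L t x y D') (hne : D ≠ D') :
    D' ⊆ XD ends t x D ∨ D' ⊆ XD ends t y D := by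
  have hdis := F1 h hD hD' hne
  have hsub : D' ⊆ t \ D := sub_sdiff h (hD'.sub h) hdis.symm
  have hc := h.hL.conn D' (hD'.mem h)
  rcases XD_all (x := x) hc hsub with h1 | h1
  · exact Or.inl h1
  rcases XD_all (x := y) hc hsub with h2 | h2
  · exact Or.inr h2
  exfalso
  obtain ⟨u, hu, hu'⟩ := reach (h.hL.conn t h.ht) h.hx (hD.ne h) (hD.sub h)
  obtain ⟨w, hw, hw'⟩ := reach (h.hL.conn t h.ht) h.hy (hD.ne h) (hD.sub h)
  have h3 := (h.hL.conn D (hD.mem h)).2 u hu w hw
  have h4 : XD ends t x D ⊆ t \ D' :=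
    sub_sdiff h (XD_sub.trans sdiff_subset) h1.symm
  have h5 : XD ends t y D ⊆ t \ D' :=
    sub_sdiff h (XD_sub.trans sdiff_subset) h2.symm
  have h6 : D ⊆ t \ D' := sub_sdiff h (hD.sub h) hdis
  exact (mem_U.1 hD'.1).2.2 (((hu'.mono h4).trans' (h3.mono h6)).trans' (hw'.mono h5).symm')

lemma F3 {D D' : Finset E} (hD : Lf ends L t x y D) (hD' : Lf ends L t x y D') (hne : D ≠ D')
    (h1 : D' ⊆ XD ends t y D) : D ⊆ XD ends t x D' := by
  have hdis := F1 h hD hD' hne
  have h6 : D ⊆ t \ D' := sub_sdiff h (hD.sub h) hdis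
  obtain ⟨u, hu, hu'⟩ := reach (h.hL.conn t h.ht) h.hx (hD.ne h) (hD.sub h)
  have h4 : XD ends t x D ⊆ t \ D' := by
    refine sub_sdiff h (XD_sub.trans sdiff_subset) ?_
    exact (F0 h hD).mono_right h1
  rcases XD_all (x := x) (h.hL.conn D (hD.mem h)) h6 with h2 | h2
  · exact h2
  · exfalso
    obtain ⟨e, he, hue⟩ := mem_VS.1 hu
    have h7 : e ∈ XD ends t x D' :=
      mem_XD_of (mem_sdiff.1 (h6 he)).1 (mem_sdiff.1 (h6 he)).2 hue (hu'.mono h4)
    exact Finset.disjoint_left.1 h2 he h7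

lemma F2' {D D' : Finset E} (hD : Lf ends L t x y D) (hD' : Lf ends L t x y D') (hne : D ≠ D') :
    D' ⊆ XD ends t x D ∨ D ⊆ XD ends t x D' := by
  rcases F2 h hD hD' hne with h1 | h1
  · exact Or.inl h1
  · exact Or.inr (F3 h hD hD' hne h1)

lemma ne_of_sub {D D' : Finset E} (hD : Lf ends L t x y D)
    (h1 : D ⊆ XD ends t x D') : D ≠ D' := by
  rintro rfl
  obtain ⟨e, he⟩ := hD.ne h
  exact (mem_sdiff.1 (XD_sub (h1 he))).2 he

lemma F4 {D D' : Finset E} (hD : Lf ends L t x y D) (hD' : Lf ends L t x y D')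
    (h1 : D ⊆ XD ends t x D') : XD ends t x D ∪ D ⊆ XD ends t x D' := by
  have hne := ne_of_sub h hD h1
  have h2 : D' ⊆ XD ends t y D := F3 h.symm hD'.symm hD.symm hne.symm h1
  refine union_subset ?_ h1
  exact XD_mono ((F0 h hD).mono_right h2).symm

omit h in
/-- Sets on one side of every leaf. -/
def Sh (ends : E → V × V) (L : Finset (Finset E)) (t : Finset E) (x y : V) (c : Finset E) : Prop :=
  c.Nonempty ∧ c ⊆ t ∧ ∀ D, Lf ends L t x y D →
    c ⊆ D ∨ c ⊆ XD ends t x D ∨ Disjoint c (XD ends t x D ∪ D)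

lemma sharp {c : Finset E} (hc : c ∈ L) (hct : c ⊆ t)
    (h1 : ∀ D, Lf ends L t x y D → D ⊆ c → D = c) : Sh ends L t x y c := by
  refine ⟨(h.hL.conn c hc).1, hct, ?_⟩
  intro D hD
  rcases h.hL.lam c hc D (hD.mem h) with h2 | h2 | h2
  · exact Or.inl h2
  · left
    rw [h1 D hD h2]
  · right
    rcases XD_all (x := x) (h.hL.conn c hc) (sub_sdiff h hct h2) with h3 | h3
    · exact Or.inl h3
    · right
      rw [disjoint_union_right]
      exact ⟨h3, h2⟩

lemma Lf.sharp {D : Finset E} (hD : Lf ends L t x y D) : Sh ends L t x y D :=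
  Ord.sharp h (hD.mem h) (hD.sub h) (fun D' hD' hs => hD.2 D' hD'.1 hs)

omit h in
/-- The leaves. -/
noncomputable def LF (ends : E → V × V) (L : Finset (Finset E)) (t : Finset E) (x y : V) :
    Finset (Finset E) := by
  classical
  exact L.filter (fun D => Lf ends L t x y D)

lemma mem_LF {D : Finset E} : D ∈ LF ends L t x y ↔ Lf ends L t x y D := by
  classical
  unfold LF
  simp only [mem_filter]
  exact ⟨fun h1 => h1.2, fun h1 => ⟨h1.mem h, h1⟩⟩

omit h in
/-- one summand of the position -/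
noncomputable def term (ends : E → V × V) (t : Finset E) (x : V) (c D : Finset E) : ℕ :=
  (if c ⊆ XD ends t x D then 0 else 1) + (if c ⊆ XD ends t x D ∪ D then 0 else 1)

omit h in
/-- The position. -/
noncomputable def pos (ends : E → V × V) (L : Finset (Finset E)) (t : Finset E) (x y : V)
    (c : Finset E) : ℕ := ∑ D ∈ LF ends L t x y, term ends t x c D

omit h in
lemma term_le {c c' D : Finset E} (h1 : c' ⊆ XD ends t x D → c ⊆ XD ends t x D)
    (h2 : c' ⊆ XD ends t x D ∪ D → c ⊆ XD ends t x D ∪ D) :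
    term ends t x c D ≤ term ends t x c' D := by
  unfold term
  by_cases a1 : c' ⊆ XD ends t x D
  · have a2 := h1 a1
    by_cases a3 : c' ⊆ XD ends t x D ∪ D
    · have a4 := h2 a3
      simp [a1, a2, a3, a4]
    · simp only [a1, a2, a3, if_true, if_false]
      split_ifs <;> omega
  · by_cases a3 : c' ⊆ XD ends t x D ∪ D
    · have a4 := h2 a3
      simp only [a1, a3, a4, if_true, if_false]
      split_ifs <;> omega
    · simp only [a1, a3, if_false]
      split_ifs <;> omega

lemma T1 {c D : Finset E} (hD : Lf ends L t x y D) (h1 : c ⊆ XD ends t x D) :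
    pos ends L t x y c < pos ends L t x y D := by
  unfold pos
  apply sum_lt_sum
  · intro D' hD'
    rw [mem_LF h] at hD'
    apply term_le
    · intro h2
      exact h1.trans (subset_union_left.trans (F4 h hD hD' h2))
    · intro h2
      by_cases hDD : D = D'
      · subst hDD
        exact h1.trans subset_union_left
      · have h3 : D ⊆ XD ends t x D' := by
          intro e he
          rcases mem_union.1 (h2 he) with h4 | h4
          · exact h4
          · exact absurd h4 (Finset.disjoint_left.1 (F1 h hD hD' hDD) he)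
        exact h1.trans (subset_union_left.trans ((F4 h hD hD' h3).trans subset_union_left))
  · refine ⟨D, (mem_LF h).2 hD, ?_⟩
    unfold term
    have h2 : ¬ D ⊆ XD ends t x D := by
      intro h3
      exact ne_of_sub h hD h3 rfl
    rw [if_pos h1, if_pos (h1.trans subset_union_left), if_neg h2, if_pos subset_union_right]
    omega

lemma T2 {c D : Finset E} (hc : c.Nonempty) (hD : Lf ends L t x y D) (h1 : c ⊆ D) :
    pos ends L t x y c = pos ends L t x y D := by
  unfold pos
  apply sum_congr rfl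
  intro D' hD'
  rw [mem_LF h] at hD'
  obtain ⟨e, he⟩ := hc
  have key : c ⊆ XD ends t x D' → D ⊆ XD ends t x D' := by
    intro h2
    have hne : D ≠ D' := by
      rintro rfl
      exact (mem_sdiff.1 (XD_sub (h2 he))).2 (h1 he)
    rcases XD_all (x := x) (h.hL.conn D (hD.mem h)) (sub_sdiff h (hD.sub h) (F1 h hD hD' hne))
      with h3 | h3
    · exact h3
    · exact absurd (h2 he) (Finset.disjoint_left.1 h3 (h1 he))
  apply le_antisymm
  · apply term_le
    · intro h2
      exact h1.trans h2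
    · intro h2
      exact h1.trans h2
  · apply term_le
    · exact key
    · intro h2
      by_cases hDD : D = D'
      · subst hDD
        exact subset_union_right
      · have h3 : c ⊆ XD ends t x D' := by
          intro f hf
          rcases mem_union.1 (h2 hf) with h4 | h4
          · exact h4
          · exact absurd h4 (Finset.disjoint_left.1 (F1 h hD hD' hDD) (h1 hf))
        exact (key h3).trans subset_union_left

lemma T3 {c D : Finset E} (hc : c.Nonempty) (hD : Lf ends L t x y D)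
    (h1 : Disjoint c (XD ends t x D ∪ D)) :
    pos ends L t x y D < pos ends L t x y c := by
  obtain ⟨e, he⟩ := hc
  have hno : ¬ c ⊆ XD ends t x D ∪ D := fun h2 => Finset.disjoint_left.1 h1 he (h2 he)
  unfold pos
  apply sum_lt_sum
  · intro D' hD'
    rw [mem_LF h] at hD'
    apply term_le
    · intro h2
      by_cases hDD : D = D'
      · subst hDD
        exact absurd (h2.trans (subset_union_left : XD ends t x D ⊆ XD ends t x D ∪ D)) hno
      · rcases F2' h hD hD' hDD with h3 | h3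
        · exact absurd (h2.trans (subset_union_left.trans ((F4 h hD' hD h3).trans
            subset_union_left))) hno
        · exact h3
    · intro h2
      by_cases hDD : D = D'
      · subst hDD
        exact subset_union_right
      · rcases F2' h hD hD' hDD with h3 | h3
        · exact absurd (h2.trans ((F4 h hD' hD h3).trans subset_union_left)) hno
        · exact h3.trans subset_union_left
  · refine ⟨D, (mem_LF h).2 hD, ?_⟩
    have hno2 : ¬ c ⊆ XD ends t x D := fun h2 => hno (h2.trans subset_union_left)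
    unfold term
    rw [if_neg hno, if_neg hno2, if_pos (subset_union_right : D ⊆ XD ends t x D ∪ D)]
    split_ifs <;> omega

lemma lt_iff {c D : Finset E} (hc : Sh ends L t x y c) (hD : Lf ends L t x y D) :
    pos ends L t x y c < pos ends L t x y D ↔ c ⊆ XD ends t x D := by
  constructor
  · intro h1
    rcases hc.2.2 D hD with h2 | h2 | h2
    · have := T2 h hc.1 hD h2
      omega
    · exact h2
    · have := T3 h hc.1 hD h2
      omega
  · exact T1 h hD

lemma gt_iff {c D : Finset E} (hc : Sh ends L t x y c) (hD : Lf ends L t x y D) :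
    pos ends L t x y D < pos ends L t x y c ↔ Disjoint c (XD ends t x D ∪ D) := by
  constructor
  · intro h1
    rcases hc.2.2 D hD with h2 | h2 | h2
    · have := T2 h hc.1 hD h2
      omega
    · have := T1 h hD h2
      omega
    · exact h2
  · exact T3 h hc.1 hD

lemma eq_iff {c D : Finset E} (hc : Sh ends L t x y c) (hD : Lf ends L t x y D) :
    pos ends L t x y c = pos ends L t x y D ↔ c ⊆ D := by
  constructor
  · intro h1
    rcases hc.2.2 D hD with h2 | h2 | h2
    · exact h2
    · have := T1 h hD h2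
      omega
    · have := T3 h hc.1 hD h2
      omega
  · exact T2 h hc.1 hD

lemma T4 {c c1 : Finset E} (hc : Sh ends L t x y c) (hc1 : Sh ends L t x y c1)
    (hlt : pos ends L t x y c1 < pos ends L t x y c) :
    ∃ D, Lf ends L t x y D ∧ pos ends L t x y c1 ≤ pos ends L t x y D ∧
      pos ends L t x y D ≤ pos ends L t x y c := by
  obtain ⟨D, hD, hlt'⟩ := exists_lt_of_sum_lt hlt
  rw [mem_LF h] at hD
  refine ⟨D, hD, ?_, ?_⟩
  · by_contra hcon
    push Not at hcon
    rw [gt_iff h hc1 hD] at hcon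
    have hno : ¬ c1 ⊆ XD ends t x D ∪ D := by
      obtain ⟨e, he⟩ := hc1.1
      exact fun h2 => Finset.disjoint_left.1 hcon he (h2 he)
    have := term_le (c := c) (c' := c1) (D := D) (ends := ends) (t := t) (x := x)
      (fun h2 => absurd (h2.trans subset_union_left) hno) (fun h2 => absurd h2 hno)
    omega
  · by_contra hcon
    push Not at hcon
    rw [lt_iff h hc hD] at hcon
    have := term_le (c := c) (c' := c1) (D := D) (ends := ends) (t := t) (x := x)
      (fun _ => hcon) (fun _ => hcon.trans subset_union_left)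
    omega

lemma d1 {c1 c2 D : Finset E} {v : V} (hc1 : Sh ends L t x y c1) (hc2 : Sh ends L t x y c2)
    (hD : Lf ends L t x y D) (h1 : pos ends L t x y c1 ≤ pos ends L t x y D)
    (h2 : pos ends L t x y D < pos ends L t x y c2) (hv1 : v ∈ VS ends c1) (hv2 : v ∈ VS ends c2) :
    v ∈ bdry ends D ∧ c1 ⊆ D := by
  rw [gt_iff h hc2 hD] at h2
  obtain ⟨g, hg, hvg⟩ := mem_VS.1 hv1
  obtain ⟨f, hf, hvf⟩ := mem_VS.1 hv2
  have hf' := Finset.disjoint_left.1 h2 hf
  rw [mem_union, not_or] at hf'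
  have h3 : c1 ⊆ D := by
    rcases Nat.lt_or_ge (pos ends L t x y c1) (pos ends L t x y D) with h3 | h3
    · rw [lt_iff h hc1 hD] at h3
      exact absurd (XD_adj (h3 hg) (hc2.2.1 hf) hf'.2 hvg hvf) hf'.1
    · exact (eq_iff h hc1 hD).1 (le_antisymm h1 h3)
  exact ⟨mem_bdry.2 ⟨mem_VS.2 ⟨g, h3 hg, hvg⟩, f, hf'.2, hvf⟩, h3⟩

lemma d2 {c1 c2 D : Finset E} {v : V} (hc1 : Sh ends L t x y c1) (hc2 : Sh ends L t x y c2)
    (hD : Lf ends L t x y D) (h1 : pos ends L t x y c1 < pos ends L t x y D)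
    (h2 : pos ends L t x y D ≤ pos ends L t x y c2) (hv1 : v ∈ VS ends c1) (hv2 : v ∈ VS ends c2) :
    v ∈ bdry ends D ∧ c2 ⊆ D := by
  rw [lt_iff h hc1 hD] at h1
  obtain ⟨g, hg, hvg⟩ := mem_VS.1 hv1
  obtain ⟨f, hf, hvf⟩ := mem_VS.1 hv2
  have h3 : c2 ⊆ D := by
    rcases Nat.lt_or_ge (pos ends L t x y D) (pos ends L t x y c2) with h3 | h3
    · rw [gt_iff h hc2 hD] at h3
      have hf' := Finset.disjoint_left.1 h3 hf
      rw [mem_union, not_or] at hf'
      exact absurd (XD_adj (h1 hg) (hc2.2.1 hf) hf'.2 hvg hvf) hf'.1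
    · exact (eq_iff h hc2 hD).1 (le_antisymm h3 h2)
  exact ⟨mem_bdry.2 ⟨mem_VS.2 ⟨f, h3 hf, hvf⟩, g, (mem_sdiff.1 (XD_sub (h1 hg))).2, hvg⟩, h3⟩

/-! ### pieces -/

lemma mem_Elt {c : Finset E} : c ∈ Elt ends L t x y ↔ c ∈ L ∧ c ⊆ t ∧
    (∀ D ∈ L, c ⊂ D → D ⊆ t → D ∈ Uxy ends L t x y) ∧ (c ∉ Uxy ends L t x y ∨ c.card = 1) := by
  classical
  unfold Elt
  simp only [mem_filter]

lemma eq_of_card_one {A B : Finset E} (hA : A.Nonempty) (hB : B.card = 1) (hs : A ⊆ B) : A = B :=
  eq_of_subset_of_card_le hs (by rw [hB]; exact hA.card_pos)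

lemma elt_leaf {c D : Finset E} (hc : c ∈ Elt ends L t x y) (hD : Lf ends L t x y D)
    (hs : D ⊆ c) : D = c := by
  rw [mem_Elt h] at hc
  rcases hc.2.2.2 with h1 | h1
  · exact absurd (U_up hD.1 hc.1 hs hc.2.1) h1
  · exact eq_of_card_one h (hD.ne h) h1 hs

lemma elt_sharp {c : Finset E} (hc : c ∈ Elt ends L t x y) : Sh ends L t x y c :=
  sharp h ((mem_Elt h).1 hc).1 ((mem_Elt h).1 hc).2.1 (fun _ hD hs => elt_leaf h hc hD hs)

lemma elt_eq {c1 c2 : Finset E} (hc1 : c1 ∈ Elt ends L t x y) (hc2 : c2 ∈ Elt ends L t x y)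
    (hs : c1 ⊆ c2) : c1 = c2 := by
  by_contra hne
  have h1 := (mem_Elt h).1 hc1
  have h2 := (mem_Elt h).1 hc2
  have h3 := h1.2.2.1 c2 h2.1 (hs.ssubset_of_ne hne) h2.2.1
  rcases h2.2.2.2 with h4 | h4
  · exact h4 h3
  · exact hne (eq_of_card_one h (h.hL.conn c1 h1.1).1 h4 hs)

omit h in
/-- The middle pieces. -/
def Mid (ends : E → V × V) (L : Finset (Finset E)) (t : Finset E) (x y : V) (c : Finset E) : Prop :=
  c ∈ Elt ends L t x y ∧ ∀ D, Lf ends L t x y D → ¬ c ⊆ D

lemma mid_of_pos {c c' : Finset E} (hc : Mid ends L t x y c) (hc' : c' ∈ Elt ends L t x y)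
    (hp : pos ends L t x y c' = pos ends L t x y c) : Mid ends L t x y c' := by
  refine ⟨hc', fun D hD hs => ?_⟩
  rw [← eq_iff h (elt_sharp h hc') hD, hp, eq_iff h (elt_sharp h hc.1) hD] at hs
  exact hc.2 D hD hs

lemma Mid.ne_pos {c D : Finset E} (hc : Mid ends L t x y c) (hD : Lf ends L t x y D) :
    pos ends L t x y c ≠ pos ends L t x y D := by
  intro h1
  rw [eq_iff h (elt_sharp h hc.1) hD] at h1
  exact hc.2 D hD h1

lemma Mid.disj {c D : Finset E} (hc : Mid ends L t x y c) (hD : Lf ends L t x y D) :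
    Disjoint c D := by
  rcases (elt_sharp h hc.1).2.2 D hD with h1 | h1 | h1
  · exact absurd h1 (hc.2 D hD)
  · exact (sdiff_disjoint : Disjoint (t \ D) D).mono_left (h1.trans XD_sub)
  · exact h1.mono_right subset_union_right

lemma Mid.notU {c : Finset E} (hc : Mid ends L t x y c) : c ∉ Uxy ends L t x y := by
  intro h1
  obtain ⟨D, hD, hs⟩ := exists_leaf h1
  exact hc.2 D hD (elt_leaf h hc.1 hD hs).symm.subset

lemma Mid.ssub {c : Finset E} (hc : Mid ends L t x y c) : c ⊂ t := by
  have h1 := (mem_Elt h).1 hc.1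
  refine h1.2.1.ssubset_of_ne ?_
  rintro rfl
  exact hc.notU h h.top

omit h in
/-- `P` is the parent of `c` -/
def IsPar (L : Finset (Finset E)) (t c P : Finset E) : Prop :=
  P ∈ L ∧ c ⊂ P ∧ P ⊆ t ∧ ∀ P' ∈ L, c ⊂ P' → P ⊆ P'

lemma exists_par {c : Finset E} (hc : c ∈ L) (hct : c ⊂ t) : ∃ P, IsPar L t c P := by
  classical
  obtain ⟨P, hP, hmin⟩ := exists_min_image (L.filter (fun P => c ⊂ P ∧ P ⊆ t))
    Finset.card ⟨t, mem_filter.2 ⟨h.ht, hct, Subset.refl _⟩⟩
  rw [mem_filter] at hP
  refine ⟨P, hP.1, hP.2.1, hP.2.2, ?_⟩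
  intro P' hP' hcP'
  obtain ⟨e, he⟩ := (h.hL.conn c hc).1
  rcases h.hL.lam P hP.1 P' hP' with h1 | h1 | h1
  · exact h1
  · exact (eq_of_subset_of_card_le h1 (hmin P' (mem_filter.2 ⟨hP', hcP', h1.trans hP.2.2⟩))).symm.subset
  · exact absurd (hcP'.1 he) (Finset.disjoint_left.1 h1 (hP.2.1.1 he))

omit h in
open Classical in
/-- The parent. -/
noncomputable def par (L : Finset (Finset E)) (t c : Finset E) : Finset E :=
  if hh : ∃ P, IsPar L t c P then hh.choose else ∅

lemma Mid.isPar {c : Finset E} (hc : Mid ends L t x y c) : IsPar L t c (par L t c) := by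
  have hh := exists_par h ((mem_Elt h).1 hc.1).1 (hc.ssub h)
  unfold par
  rw [dif_pos hh]
  exact hh.choose_spec

lemma Mid.parU {c : Finset E} (hc : Mid ends L t x y c) : par L t c ∈ Uxy ends L t x y := by
  have h1 := hc.isPar h
  exact ((mem_Elt h).1 hc.1).2.2.1 _ h1.1 h1.2.1 h1.2.2.1

lemma Mid.par_sub {c Q : Finset E} (hc : Mid ends L t x y c) (hQ : Q ∈ L) (hs : c ⊂ Q) :
    par L t c ⊆ Q := (hc.isPar h).2.2.2 Q hQ hs

lemma Mid.child {c D : Finset E} (hc : Mid ends L t x y c) (hD : D ∈ L) (h1 : c ⊆ D)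
    (h2 : D ⊂ par L t c) : D = c := by
  by_contra hne
  exact h2.2 (hc.par_sub h hD (h1.ssubset_of_ne (fun h3 => hne h3.symm)))

lemma leaf_not_sub {P D : Finset E} (hP : P ∈ Uxy ends L t x y)
    (hD : Lf ends L t x y D) (hs : ¬ D ⊆ P) : Disjoint P D := by
  rcases h.hL.lam P (mem_U.1 hP).1 D (hD.mem h) with h1 | h1 | h1
  · exact absurd (hD.2 P hP h1).symm.subset hs
  · exact absurd h1 hs
  · exact h1

lemma E1 {c D0 D1 : Finset E} (hc : Mid ends L t x y c) (hD0 : Lf ends L t x y D0)
    (hD1 : Lf ends L t x y D1) (h0 : pos ends L t x y D0 < pos ends L t x y c)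
    (h1 : D1 ⊆ par L t c) (h2 : pos ends L t x y D1 ≤ pos ends L t x y D0) :
    D0 ⊆ par L t c := by
  by_contra hcon
  have hP := hc.parU h
  have hP' := mem_U.1 hP
  have hdis := leaf_not_sub h hP hD0 hcon
  obtain ⟨e, he⟩ := hD1.ne h
  rcases XD_all (x := x) (h.hL.conn _ hP'.1) (sub_sdiff h hP'.2.1 hdis) with h3 | h3
  · have := T1 h hD0 ((hc.isPar h).2.1.1.trans h3)
    omega
  · rcases (hD1.sharp h).2.2 D0 hD0 with h4 | h4 | h4
    · exact Finset.disjoint_left.1 hdis (h1 he) (h4 he)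
    · exact Finset.disjoint_left.1 h3 (h1 he) (h4 he)
    · have := T3 h (hD1.ne h) hD0 h4
      omega

lemma E2 {c D0 D1 : Finset E} (hc : Mid ends L t x y c) (hD0 : Lf ends L t x y D0)
    (hD1 : Lf ends L t x y D1) (h0 : pos ends L t x y c < pos ends L t x y D0)
    (h1 : D1 ⊆ par L t c) (h2 : pos ends L t x y D0 ≤ pos ends L t x y D1) :
    D0 ⊆ par L t c := by
  by_contra hcon
  have hP := hc.parU h
  have hP' := mem_U.1 hP
  have hdis := leaf_not_sub h hP hD0 hcon
  obtain ⟨e, he⟩ := (h.hL.conn c ((mem_Elt h).1 hc.1).1).1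
  rcases XD_all (x := x) (h.hL.conn _ hP'.1) (sub_sdiff h hP'.2.1 hdis) with h3 | h3
  · have := T1 h hD0 (h1.trans h3)
    omega
  · rw [lt_iff h (elt_sharp h hc.1) hD0] at h0
    exact Finset.disjoint_left.1 h3 ((hc.isPar h).2.1.1 he) (h0 he)

lemma exists_child {A P : Finset E} (hA : A ∈ L) (hP : A ⊂ P) :
    ∃ Q ∈ L, A ⊆ Q ∧ Q ⊂ P ∧ ∀ D ∈ L, Q ⊆ D → D ⊂ P → D = Q := by
  classical
  obtain ⟨Q, hQ, hmax⟩ := exists_max_image (L.filter (fun Q => A ⊆ Q ∧ Q ⊂ P))
    Finset.card ⟨A, mem_filter.2 ⟨hA, Subset.refl _, hP⟩⟩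
  rw [mem_filter] at hQ
  refine ⟨Q, hQ.1, hQ.2.1, hQ.2.2, ?_⟩
  intro D hD h1 h2
  exact (eq_of_subset_of_card_le h1 (hmax D (mem_filter.2 ⟨hD, hQ.2.1.trans h1, h2⟩))).symm

omit h in
/-- some leaf of the parent lies before `c` -/
def lo (ends : E → V × V) (L : Finset (Finset E)) (t : Finset E) (x y : V) (c : Finset E) : Prop :=
  ∃ D, Lf ends L t x y D ∧ D ⊆ par L t c ∧ pos ends L t x y D < pos ends L t x y c

omit h in
/-- some leaf of the parent lies after `c` -/
def up (ends : E → V × V) (L : Finset (Finset E)) (t : Finset E) (x y : V) (c : Finset E) : Prop :=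
  ∃ D, Lf ends L t x y D ∧ D ⊆ par L t c ∧ pos ends L t x y c < pos ends L t x y D

omit h in
open Classical in
/-- the group -/
noncomputable def grp (ends : E → V × V) (L : Finset (Finset E)) (t : Finset E) (x y : V)
    (c : Finset E) : ℕ :=
  if lo ends L t x y c then (if up ends L t x y c then 1 else 0) else 2

omit h in
/-- the weight -/
noncomputable def wt (ends : E → V × V) (L : Finset (Finset E)) (t : Finset E) (x y : V)
    (c : Finset E) : ℕ :=
  if grp ends L t x y c = 2 then Fintype.card E - (par L t c).card else (par L t c).card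

omit h in
/-- the rank -/
noncomputable def rk (ends : E → V × V) (L : Finset (Finset E)) (t : Finset E) (x y : V)
    (c : Finset E) : ℕ :=
  (pos ends L t x y c * 3 + grp ends L t x y c) * (Fintype.card E + 1) + wt ends L t x y c

omit h in
lemma lex_le {M a1 b1 a2 b2 : ℕ} (h1 : b1 < M) (h2 : b2 < M)
    (hle : a1 * M + b1 ≤ a2 * M + b2) : a1 < a2 ∨ a1 = a2 ∧ b1 ≤ b2 := by
  rcases Nat.lt_trichotomy a1 a2 with h3 | h3 | h3
  · exact Or.inl h3
  · right
    subst h3
    exact ⟨rfl, by omega⟩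
  · exfalso
    have : (a2 + 1) * M ≤ a1 * M := Nat.mul_le_mul_right M h3
    rw [Nat.succ_mul] at this
    omega

omit h in
lemma grp_lt (c : Finset E) : grp ends L t x y c < 3 := by
  unfold grp
  split_ifs <;> omega

omit h in
lemma wt_lt (c : Finset E) : wt ends L t x y c < Fintype.card E + 1 := by
  unfold wt
  have : (par L t c).card ≤ Fintype.card E := card_le_univ _
  split_ifs <;> omega

omit h in
lemma rk_le {c c' : Finset E} (hle : rk ends L t x y c ≤ rk ends L t x y c') :
    pos ends L t x y c < pos ends L t x y c' ∨ (pos ends L t x y c = pos ends L t x y c' ∧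
      (grp ends L t x y c < grp ends L t x y c' ∨ (grp ends L t x y c = grp ends L t x y c' ∧
        wt ends L t x y c ≤ wt ends L t x y c'))) := by
  unfold rk at hle
  rcases lex_le (wt_lt c) (wt_lt c') hle with h1 | ⟨h1, h2⟩
  · rcases lex_le (M := 3) (grp_lt c) (grp_lt c') h1.le with h2 | ⟨h2, h3⟩
    · exact Or.inl h2
    · right
      refine ⟨h2, Or.inl ?_⟩
      omega
  · rcases lex_le (M := 3) (grp_lt c) (grp_lt c') h1.le with h3 | ⟨h3, h4⟩
    · exact Or.inl h3
    · right
      refine ⟨h3, Or.inr ⟨?_, h2⟩⟩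
      omega

lemma grp_zero {c : Finset E} (hg : grp ends L t x y c = 0) :
    lo ends L t x y c ∧ ¬ up ends L t x y c := by
  unfold grp at hg
  by_cases h1 : lo ends L t x y c
  · by_cases h2 : up ends L t x y c
    · rw [if_pos h1, if_pos h2] at hg
      omega
    · exact ⟨h1, h2⟩
  · rw [if_neg h1] at hg
    omega

lemma grp_of_lo {c : Finset E} (hg : grp ends L t x y c ≤ 1) : lo ends L t x y c := by
  unfold grp at hg
  by_contra h1
  rw [if_neg h1] at hg
  omega

lemma grp_two {c : Finset E} (hg : 2 ≤ grp ends L t x y c) : ¬ lo ends L t x y c := by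
  unfold grp at hg
  intro h1
  rw [if_pos h1] at hg
  split_ifs at hg <;> omega

omit h in
lemma wt_of_le {c : Finset E} (hg : grp ends L t x y c ≤ 1) :
    wt ends L t x y c = (par L t c).card := by
  unfold wt
  rw [if_neg (by omega)]

omit h in
lemma wt_of_two {c : Finset E} (hg : grp ends L t x y c = 2) :
    wt ends L t x y c = Fintype.card E - (par L t c).card := by
  unfold wt
  rw [if_pos hg]

lemma ssub_of_not_disjoint {c1 c2 Q : Finset E} (hc1 : c1 ∈ Elt ends L t x y)
    (hc2 : c2 ∈ Elt ends L t x y) (hne : c1 ≠ c2) (hQ : Q ∈ L) (hs : c1 ⊆ Q)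
    (hd : ¬ Disjoint c2 Q) : c2 ⊂ Q := by
  rcases h.hL.lam c2 ((mem_Elt h).1 hc2).1 Q hQ with h1 | h1 | h1
  · refine h1.ssubset_of_ne ?_
    rintro rfl
    exact hne (elt_eq h hc1 hc2 hs)
  · exact absurd (elt_eq h hc1 hc2 (hs.trans h1)) hne
  · exact absurd h1 hd

lemma nested {A B D : Finset E} (hA : A ∈ L) (hB : B ∈ L) (hD : Lf ends L t x y D)
    (h1 : D ⊆ A) (h2 : D ⊆ B) : A ⊆ B ∨ B ⊆ A := by
  rcases h.hL.lam A hA B hB with h3 | h3 | h3
  · exact Or.inl h3
  · exact Or.inr h3
  · obtain ⟨e, he⟩ := hD.ne h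
    exact absurd (h2 he) (Finset.disjoint_left.1 h3 (h1 he))

lemma mem_bdry_mid {c1 c2 Q : Finset E} {v : V} (hs : c1 ⊆ Q) (hd : Disjoint c2 Q)
    (h1 : v ∈ VS ends c1) (h2 : v ∈ VS ends c2) : v ∈ bdry ends Q :=
  mem_bdry_of_disjoint hd.symm (VS_mono hs h1) h2

/-- The conclusion for one piece. -/
def Good (ends : E → V × V) (b : ℕ) (L : Finset (Finset E)) (t : Finset E) (x y : V)
    (c : Finset E) : Prop :=
  ∃ W : Finset V, W.card ≤ 3 * b ∧ bdry ends c ⊆ W ∧
    ∀ c1 ∈ Elt ends L t x y, ∀ c2 ∈ Elt ends L t x y, c1 ≠ c2 →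
      rk ends L t x y c1 ≤ rk ends L t x y c → rk ends L t x y c ≤ rk ends L t x y c2 →
      ∀ v, v ∈ bdry ends c1 → v ∈ bdry ends c2 → v ∈ W

lemma pos_le_of_rk {c c' : Finset E} (hle : rk ends L t x y c ≤ rk ends L t x y c') :
    pos ends L t x y c ≤ pos ends L t x y c' := by
  rcases rk_le hle with h1 | ⟨h1, _⟩
  · exact h1.le
  · exact h1.le

lemma good_leaf {c D : Finset E} (hc : c ∈ Elt ends L t x y) (hD : Lf ends L t x y D)
    (hs : c ⊆ D) : Good ends b L t x y c := by
  have hpc := T2 h (elt_sharp h hc).1 hD hs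
  have hb1 := h.hL.bcard D (hD.mem h)
  by_cases hcard : D.card = 1
  · have hcD : c = D := eq_of_card_one h (elt_sharp h hc).1 hcard hs
    refine ⟨bdry ends D, by omega, by rw [hcD], ?_⟩
    intro c1 hc1 c2 hc2 hne hr1 hr2 v hv1 hv2
    have hp1 := pos_le_of_rk h hr1
    have hp2 := pos_le_of_rk h hr2
    have s1 := elt_sharp h hc1
    have s2 := elt_sharp h hc2
    rcases Nat.lt_or_ge (pos ends L t x y c1) (pos ends L t x y D) with h1 | h1
    · exact (d2 h s1 s2 hD h1 (by omega) (bdry_subset_VS hv1) (bdry_subset_VS hv2)).1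
    · rcases Nat.lt_or_ge (pos ends L t x y D) (pos ends L t x y c2) with h2 | h2
      · exact (d1 h s1 s2 hD (by omega) h2 (bdry_subset_VS hv1) (bdry_subset_VS hv2)).1
      · exfalso
        have h3 := (eq_iff h s1 hD).1 (by omega)
        have h4 := (eq_iff h s2 hD).1 (by omega)
        exact hne ((eq_of_card_one h s1.1 hcard h3).trans
          (eq_of_card_one h s2.1 hcard h4).symm)
  · have hcard' : 1 < D.card := by
      have := (hD.ne h).card_pos
      omega
    obtain ⟨B, hB1, hB2⟩ := h.hL.bag D (hD.mem h) hcard'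
    have hchild : ∀ c' ∈ Elt ends L t x y, c' ⊆ D → bdry ends c' ⊆ B := by
      intro c' hc' hs'
      have h1 := (mem_Elt h).1 hc'
      apply hB2 c' h1.1
      · refine hs'.ssubset_of_ne ?_
        rintro rfl
        rcases h1.2.2.2 with h2 | h2
        · exact h2 hD.1
        · exact hcard h2
      · intro D' hD' h2 h3
        by_contra hne
        have h4 := h1.2.2.1 D' hD' (h2.ssubset_of_ne (fun h5 => hne h5.symm))
          (h3.1.trans (hD.sub h))
        exact h3.ne (hD.2 D' h4 h3.1)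
    refine ⟨bdry ends D ∪ B, (card_union_le _ _).trans (by omega),
      (hchild c hc hs).trans subset_union_right, ?_⟩
    intro c1 hc1 c2 hc2 hne hr1 hr2 v hv1 hv2
    have hp1 := pos_le_of_rk h hr1
    have hp2 := pos_le_of_rk h hr2
    have s1 := elt_sharp h hc1
    have s2 := elt_sharp h hc2
    rw [mem_union]
    rcases Nat.lt_or_ge (pos ends L t x y c1) (pos ends L t x y D) with h1 | h1
    · left
      exact (d2 h s1 s2 hD h1 (by omega) (bdry_subset_VS hv1) (bdry_subset_VS hv2)).1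
    · right
      exact hchild c1 hc1 ((eq_iff h s1 hD).1 (by omega)) hv1

lemma leaf_disj_pos {D D' : Finset E} (hD : Lf ends L t x y D) (hD' : Lf ends L t x y D')
    (hs : D ⊆ D') : D = D' := hD'.2 D hD.1 hs

lemma par_card {c : Finset E} (hc : Mid ends L t x y c) : 1 < (par L t c).card := by
  have h1 := card_lt_card (hc.isPar h).2.1
  have h2 := (elt_sharp h hc.1).1.card_pos
  omega

lemma exists_Dm {c D1 : Finset E} (hD1 : Lf ends L t x y D1)
    (h1 : pos ends L t x y D1 < pos ends L t x y c) :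
    ∃ Dm, Lf ends L t x y Dm ∧ pos ends L t x y Dm < pos ends L t x y c ∧
      ∀ D, Lf ends L t x y D → pos ends L t x y D < pos ends L t x y c →
        pos ends L t x y D ≤ pos ends L t x y Dm := by
  classical
  obtain ⟨Dm, hDm, hmax⟩ := exists_max_image
    ((LF ends L t x y).filter (fun D => pos ends L t x y D < pos ends L t x y c))
    (fun D => pos ends L t x y D) ⟨D1, mem_filter.2 ⟨(mem_LF h).2 hD1, h1⟩⟩
  rw [mem_filter, mem_LF h] at hDm
  exact ⟨Dm, hDm.1, hDm.2, fun D hD h2 => hmax D (mem_filter.2 ⟨(mem_LF h).2 hD, h2⟩)⟩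

lemma exists_Dp {c D1 : Finset E} (hD1 : Lf ends L t x y D1)
    (h1 : pos ends L t x y c < pos ends L t x y D1) :
    ∃ Dm, Lf ends L t x y Dm ∧ pos ends L t x y c < pos ends L t x y Dm ∧
      ∀ D, Lf ends L t x y D → pos ends L t x y c < pos ends L t x y D →
        pos ends L t x y Dm ≤ pos ends L t x y D := by
  classical
  obtain ⟨Dm, hDm, hmin⟩ := exists_min_image
    ((LF ends L t x y).filter (fun D => pos ends L t x y c < pos ends L t x y D))
    (fun D => pos ends L t x y D) ⟨D1, mem_filter.2 ⟨(mem_LF h).2 hD1, h1⟩⟩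
  rw [mem_filter, mem_LF h] at hDm
  exact ⟨Dm, hDm.1, hDm.2, fun D hD h2 => hmin D (mem_filter.2 ⟨(mem_LF h).2 hD, h2⟩)⟩

lemma good_zero {c : Finset E} (hc : Mid ends L t x y c) (hlo : lo ends L t x y c)
    (hup : ¬ up ends L t x y c) : Good ends b L t x y c := by
  have sc := elt_sharp h hc.1
  have hpar := hc.isPar h
  obtain ⟨B, hB1, hB2⟩ := h.hL.bag _ hpar.1 (par_card h hc)
  obtain ⟨D1, hD1, hD1P, hD1c⟩ := id hlo
  obtain ⟨Dm, hDm, hDmc, hmax⟩ := exists_Dm h hD1 hD1c
  have hDmP : Dm ⊆ par L t c := E1 h hc hDm hD1 hDmc hD1P (hmax D1 hD1 hD1c)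
  have hb1 := h.hL.bcard Dm (hDm.mem h)
  have hgc : grp ends L t x y c = 0 := by
    unfold grp
    rw [if_pos hlo, if_neg hup]
  have hwc := wt_of_le (ends := ends) (L := L) (t := t) (x := x) (y := y) (c := c) (by omega)
  have hnot : ∀ D, Lf ends L t x y D → D ⊆ par L t c → pos ends L t x y D < pos ends L t x y c := by
    intro D hD hs
    rcases Nat.lt_trichotomy (pos ends L t x y D) (pos ends L t x y c) with h1 | h1 | h1
    · exact h1
    · exact absurd h1.symm (hc.ne_pos h hD)
    · exact absurd ⟨D, hD, hs, h1⟩ hup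
  refine ⟨bdry ends Dm ∪ B, (card_union_le _ _).trans (by omega), ?_, ?_⟩
  · refine Subset.trans ?_ subset_union_right
    exact hB2 c ((mem_Elt h).1 hc.1).1 hpar.2.1 (fun D hD h1 h2 => hc.child h hD h1 h2)
  intro c1 hc1 c2 hc2 hne hr1 hr2 v hv1 hv2
  have s1 := elt_sharp h hc1
  have s2 := elt_sharp h hc2
  have hv1' := bdry_subset_VS hv1
  have hv2' := bdry_subset_VS hv2
  have hp2 := pos_le_of_rk h hr2
  rw [mem_union]
  rcases rk_le hr1 with h1 | ⟨h1, h1'⟩
  · left
    obtain ⟨D, hD, h2, h3⟩ := T4 h sc s1 h1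
    have h4 := hc.ne_pos h hD
    have h5 := hmax D hD (by omega)
    exact (d1 h s1 s2 hDm (by omega) (by omega) hv1' hv2').1
  · right
    have m1 := mid_of_pos h hc hc1 h1
    have hg1 : grp ends L t x y c1 = 0 := by
      rcases h1' with h2 | h2
      · omega
      · omega
    have hw1 : wt ends L t x y c1 ≤ wt ends L t x y c := by
      rcases h1' with h2 | h2
      · omega
      · exact h2.2
    rw [hwc, wt_of_le (by omega)] at hw1
    obtain ⟨hlo1, hup1⟩ := grp_zero h hg1
    obtain ⟨D1', hD1', hD1P', hD1c'⟩ := hlo1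
    have hpar1 := m1.isPar h
    have hDm1 : Dm ⊆ par L t c1 := E1 h m1 hDm hD1' (by omega) hD1P' (hmax D1' hD1' (by omega))
    have hsub : par L t c1 ⊆ par L t c := by
      rcases nested h hpar1.1 hpar.1 hDm hDm1 hDmP with h2 | h2
      · exact h2
      · exact (eq_of_subset_of_card_le h2 hw1).symm.subset
    by_cases heq : par L t c1 = par L t c
    · refine hB2 c1 ((mem_Elt h).1 hc1).1 ?_ ?_ hv1
      · rw [← heq]
        exact hpar1.2.1
      · intro D hD h2 h3
        rw [← heq] at h3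
        exact m1.child h hD h2 h3
    · obtain ⟨Q, hQ, hQ1, hQ2, hQ3⟩ := exists_child h hpar1.1 (hsub.ssubset_of_ne heq)
      have hBQ := hB2 Q hQ hQ2 hQ3
      have hcQ : c1 ⊆ Q := hpar1.2.1.1.trans hQ1
      by_cases hd : Disjoint c2 Q
      · exact hBQ (mem_bdry_mid h hcQ hd hv1' hv2')
      · exfalso
        have hss := ssub_of_not_disjoint h hc1 hc2 hne hQ hcQ hd
        have m2 : Mid ends L t x y c2 := by
          refine ⟨hc2, fun D' hD' hs' => ?_⟩
          have h2 := T2 h s2.1 hD' hs'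
          have h3 := hc.ne_pos h hD'
          rcases h.hL.lam D' (hD'.mem h) Q hQ with h4 | h4 | h4
          · have := hnot D' hD' (h4.trans hQ2.1)
            omega
          · have h5 := leaf_disj_pos h hDm hD' ((hDm1.trans hQ1).trans h4)
            subst h5
            omega
          · obtain ⟨e, he⟩ := s2.1
            exact Finset.disjoint_left.1 h4 (hs' he) (hss.1 he)
        have hpar2 := m2.isPar h
        have hP2 : par L t c2 ⊆ Q := m2.par_sub h hQ hss
        have hP2' : par L t c2 ⊆ par L t c := hP2.trans hQ2.1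
        obtain ⟨D2, hD2, hD2s⟩ := exists_leaf (m2.parU h)
        have h6 := hnot D2 hD2 (hD2s.trans hP2')
        have hlo2 : lo ends L t x y c2 := ⟨D2, hD2, hD2s, by omega⟩
        have hup2 : ¬ up ends L t x y c2 := by
          rintro ⟨D, hD, h7, h8⟩
          have := hnot D hD (h7.trans hP2')
          omega
        have hg2 : grp ends L t x y c2 = 0 := by
          unfold grp
          rw [if_pos hlo2, if_neg hup2]
        rcases rk_le hr2 with h7 | ⟨h7, h8⟩
        · obtain ⟨D, hD, h9, h10⟩ := T4 h s2 sc h7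
          have h11 := hc.ne_pos h hD
          have h12 := m2.ne_pos h hD
          have h13 := E1 h m2 hD hD2 (by omega) hD2s (by omega)
          have := hnot D hD (h13.trans hP2')
          omega
        · have h9 : wt ends L t x y c ≤ wt ends L t x y c2 := by
            rcases h8 with h8 | h8
            · omega
            · exact h8.2
          rw [hwc, wt_of_le (by omega)] at h9
          have h10 := card_lt_card hQ2
          have h11 := card_le_card hP2
          omega

lemma good_two {c : Finset E} (hc : Mid ends L t x y c) (hlo : ¬ lo ends L t x y c) :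
    Good ends b L t x y c := by
  have sc := elt_sharp h hc.1
  have hpar := hc.isPar h
  obtain ⟨B, hB1, hB2⟩ := h.hL.bag _ hpar.1 (par_card h hc)
  have hnot : ∀ D, Lf ends L t x y D → D ⊆ par L t c → pos ends L t x y c < pos ends L t x y D := by
    intro D hD hs
    rcases Nat.lt_trichotomy (pos ends L t x y D) (pos ends L t x y c) with h1 | h1 | h1
    · exact absurd ⟨D, hD, hs, h1⟩ hlo
    · exact absurd h1.symm (hc.ne_pos h hD)
    · exact h1
  obtain ⟨D1, hD1, hD1P⟩ := exists_leaf (hc.parU h)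
  have hD1c := hnot D1 hD1 hD1P
  obtain ⟨Dp, hDp, hDpc, hmin⟩ := exists_Dp h hD1 hD1c
  have hDpP : Dp ⊆ par L t c := E2 h hc hDp hD1 hDpc hD1P (hmin D1 hD1 hD1c)
  have hb1 := h.hL.bcard Dp (hDp.mem h)
  have hgc : grp ends L t x y c = 2 := by
    unfold grp
    rw [if_neg hlo]
  have hwc := wt_of_two (ends := ends) (L := L) (t := t) (x := x) (y := y) (c := c) hgc
  have hPu : (par L t c).card ≤ Fintype.card E := card_le_univ _
  refine ⟨bdry ends Dp ∪ B, (card_union_le _ _).trans (by omega), ?_, ?_⟩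
  · refine Subset.trans ?_ subset_union_right
    exact hB2 c ((mem_Elt h).1 hc.1).1 hpar.2.1 (fun D hD h1 h2 => hc.child h hD h1 h2)
  intro c1 hc1 c2 hc2 hne hr1 hr2 v hv1 hv2
  have s1 := elt_sharp h hc1
  have s2 := elt_sharp h hc2
  have hv1' := bdry_subset_VS hv1
  have hv2' := bdry_subset_VS hv2
  have hp1 := pos_le_of_rk h hr1
  rw [mem_union]
  rcases rk_le hr2 with h1 | ⟨h1, h1'⟩
  · left
    obtain ⟨D, hD, h2, h3⟩ := T4 h s2 sc h1
    have h4 := hc.ne_pos h hD
    have h5 := hmin D hD (by omega)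
    exact (d2 h s1 s2 hDp (by omega) (by omega) hv1' hv2').1
  · right
    have m2 := mid_of_pos h hc hc2 h1.symm
    have hg2 : grp ends L t x y c2 = 2 := by
      have := grp_lt (ends := ends) (L := L) (t := t) (x := x) (y := y) c2
      rcases h1' with h2 | h2
      · omega
      · omega
    have hw2 : wt ends L t x y c ≤ wt ends L t x y c2 := by
      rcases h1' with h2 | h2
      · omega
      · exact h2.2
    rw [hwc, wt_of_two hg2] at hw2
    have hPu2 : (par L t c2).card ≤ Fintype.card E := card_le_univ _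
    have hlo2 := grp_two h (c := c2) (by omega)
    obtain ⟨D2, hD2, hD2P⟩ := exists_leaf (m2.parU h)
    have hD2c : pos ends L t x y c2 < pos ends L t x y D2 := by
      rcases Nat.lt_trichotomy (pos ends L t x y D2) (pos ends L t x y c2) with h2 | h2 | h2
      · exact absurd ⟨D2, hD2, hD2P, h2⟩ hlo2
      · exact absurd h2.symm (m2.ne_pos h hD2)
      · exact h2
    have hpar2 := m2.isPar h
    have hDp2 : Dp ⊆ par L t c2 := E2 h m2 hDp hD2 (by omega) hD2P (hmin D2 hD2 (by omega))
    have hsub : par L t c2 ⊆ par L t c := by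
      rcases nested h hpar2.1 hpar.1 hDp hDp2 hDpP with h2 | h2
      · exact h2
      · exact (eq_of_subset_of_card_le h2 (by omega)).symm.subset
    by_cases heq : par L t c2 = par L t c
    · refine hB2 c2 ((mem_Elt h).1 hc2).1 ?_ ?_ hv2
      · rw [← heq]
        exact hpar2.2.1
      · intro D hD h2 h3
        rw [← heq] at h3
        exact m2.child h hD h2 h3
    · obtain ⟨Q, hQ, hQ1, hQ2, hQ3⟩ := exists_child h hpar2.1 (hsub.ssubset_of_ne heq)
      have hBQ := hB2 Q hQ hQ2 hQ3
      have hcQ : c2 ⊆ Q := hpar2.2.1.1.trans hQ1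
      by_cases hd : Disjoint c1 Q
      · exact hBQ (mem_bdry_mid h hcQ hd hv2' hv1')
      · exfalso
        have hss := ssub_of_not_disjoint h hc2 hc1 hne.symm hQ hcQ hd
        have m1 : Mid ends L t x y c1 := by
          refine ⟨hc1, fun D' hD' hs' => ?_⟩
          have h2 := T2 h s1.1 hD' hs'
          have h3 := hc.ne_pos h hD'
          rcases h.hL.lam D' (hD'.mem h) Q hQ with h4 | h4 | h4
          · have := hnot D' hD' (h4.trans hQ2.1)
            omega
          · have h5 := leaf_disj_pos h hDp hD' ((hDp2.trans hQ1).trans h4)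
            subst h5
            omega
          · obtain ⟨e, he⟩ := s1.1
            exact Finset.disjoint_left.1 h4 (hs' he) (hss.1 he)
        have hP1 : par L t c1 ⊆ Q := m1.par_sub h hQ hss
        have hP1' : par L t c1 ⊆ par L t c := hP1.trans hQ2.1
        obtain ⟨D3, hD3, hD3s⟩ := exists_leaf (m1.parU h)
        have h6 := hnot D3 hD3 (hD3s.trans hP1')
        have hlo1 : ¬ lo ends L t x y c1 := by
          rintro ⟨D, hD, h7, h8⟩
          have := hnot D hD (h7.trans hP1')
          omega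
        have hg1 : grp ends L t x y c1 = 2 := by
          unfold grp
          rw [if_neg hlo1]
        have hPu1 : (par L t c1).card ≤ Fintype.card E := card_le_univ _
        rcases rk_le hr1 with h7 | ⟨h7, h8⟩
        · obtain ⟨D, hD, h9, h10⟩ := T4 h sc s1 h7
          have h11 := hc.ne_pos h hD
          have h12 := m1.ne_pos h hD
          have h13 := E2 h m1 hD hD3 (by omega) hD3s (by omega)
          have := hnot D hD (h13.trans hP1')
          omega
        · have h9 : wt ends L t x y c1 ≤ wt ends L t x y c := by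
            rcases h8 with h8 | h8
            · omega
            · exact h8.2
          rw [hwc, wt_of_two hg1] at h9
          have h10 := card_lt_card hQ2
          have h11 := card_le_card hP1
          omega

lemma good_one {c : Finset E} (hc : Mid ends L t x y c) (hlo : lo ends L t x y c)
    (hup : up ends L t x y c) : Good ends b L t x y c := by
  classical
  have sc := elt_sharp h hc.1
  have hpar := hc.isPar h
  obtain ⟨B, hB1, hB2⟩ := h.hL.bag _ hpar.1 (par_card h hc)
  obtain ⟨D1, hD1, hD1P, hD1c⟩ := id hlo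
  obtain ⟨Dm, hDm, hDmc, hmax⟩ := exists_Dm h hD1 hD1c
  have hDmP : Dm ⊆ par L t c := E1 h hc hDm hD1 hDmc hD1P (hmax D1 hD1 hD1c)
  obtain ⟨D1', hD1', hD1P', hD1c'⟩ := id hup
  obtain ⟨Dp, hDp, hDpc, hmin⟩ := exists_Dp h hD1' hD1c'
  have hDpP : Dp ⊆ par L t c := E2 h hc hDp hD1' hDpc hD1P' (hmin D1' hD1' hD1c')
  have hb1 := h.hL.bcard Dm (hDm.mem h)
  have hgc : grp ends L t x y c = 1 := by
    unfold grp
    rw [if_pos hlo, if_pos hup]
  have hwc := wt_of_le (ends := ends) (L := L) (t := t) (x := x) (y := y) (c := c) (by omega)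
  obtain ⟨lam, hlam, hlmin⟩ := exists_min_image (L.filter (fun A => Dm ⊆ A ∧ Dp ⊆ A))
    Finset.card ⟨par L t c, mem_filter.2 ⟨hpar.1, hDmP, hDpP⟩⟩
  rw [mem_filter] at hlam
  have hlam' : ∀ A ∈ L, Dm ⊆ A → Dp ⊆ A → lam ⊆ A := by
    intro A hA h1 h2
    rcases nested h hlam.1 hA hDm hlam.2.1 h1 with h3 | h3
    · exact h3
    · exact (eq_of_subset_of_card_le h3 (hlmin A (mem_filter.2 ⟨hA, h1, h2⟩))).symm.subset
  have hneq : ¬ Dm ⊆ Dp := by
    intro h1
    have h2 := leaf_disj_pos h hDm hDp h1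
    subst h2
    omega
  have hDpl : Dp ⊂ lam := by
    refine hlam.2.2.ssubset_of_ne ?_
    intro h1
    rw [h1] at hneq
    exact hneq hlam.2.1
  have hlamt : lam ⊆ t := (hlam' _ hpar.1 hDmP hDpP).trans hpar.2.2.1
  obtain ⟨Q2, hQ2, hQ2a, hQ2b, hQ2c⟩ := exists_child h (hDp.mem h) hDpl
  have hlcard : 1 < lam.card := by
    have h1 := card_lt_card hDpl
    have h2 := (hDp.ne h).card_pos
    omega
  obtain ⟨B', hB1', hB2'⟩ := h.hL.bag lam hlam.1 hlcard
  have hBQ2 := hB2' Q2 hQ2 hQ2b hQ2c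
  have hDmQ2 : ¬ Dm ⊆ Q2 := by
    intro h1
    exact hQ2b.2 (hlam' Q2 hQ2 h1 hQ2a)
  have hQ2U : Q2 ∈ Uxy ends L t x y := U_up hDp.1 hQ2 hQ2a (hQ2b.1.trans hlamt)
  refine ⟨bdry ends Dm ∪ B ∪ B', (card_union_le _ _).trans
    ((Nat.add_le_add_right (card_union_le _ _) _).trans (by omega)), ?_, ?_⟩
  · refine Subset.trans ?_ (subset_union_right.trans subset_union_left)
    exact hB2 c ((mem_Elt h).1 hc.1).1 hpar.2.1 (fun D hD h1 h2 => hc.child h hD h1 h2)
  intro c1 hc1 c2 hc2 hne hr1 hr2 v hv1 hv2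
  have s1 := elt_sharp h hc1
  have s2 := elt_sharp h hc2
  have hv1' := bdry_subset_VS hv1
  have hv2' := bdry_subset_VS hv2
  have hp2 := pos_le_of_rk h hr2
  rw [mem_union, mem_union]
  rcases rk_le hr1 with h1 | ⟨h1, h1'⟩
  · left
    left
    obtain ⟨D, hD, h2, h3⟩ := T4 h sc s1 h1
    have h4 := hc.ne_pos h hD
    have h5 := hmax D hD (by omega)
    exact (d1 h s1 s2 hDm (by omega) (by omega) hv1' hv2').1
  · have m1 := mid_of_pos h hc hc1 h1
    have hg1 : grp ends L t x y c1 ≤ 1 := by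
      rcases h1' with h2 | h2
      · omega
      · omega
    obtain ⟨D3, hD3, hD3P, hD3c⟩ := grp_of_lo h hg1
    have hpar1 := m1.isPar h
    have hDm1 : Dm ⊆ par L t c1 := E1 h m1 hDm hD3 (by omega) hD3P (hmax D3 hD3 (by omega))
    have hsub : par L t c1 ⊆ par L t c := by
      rcases nested h hpar1.1 hpar.1 hDm hDm1 hDmP with h2 | h2
      · exact h2
      · rcases h1' with h3 | h3
        · exfalso
          have h4 := grp_zero h (c := c1) (by omega)
          exact h4.2 ⟨Dp, hDp, hDpP.trans h2, by omega⟩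
        · have hw1 := h3.2
          rw [hwc, wt_of_le hg1] at hw1
          exact (eq_of_subset_of_card_le h2 hw1).symm.subset
    by_cases heq : par L t c1 = par L t c
    · left
      right
      refine hB2 c1 ((mem_Elt h).1 hc1).1 ?_ ?_ hv1
      · rw [← heq]
        exact hpar1.2.1
      · intro D hD h2 h3
        rw [← heq] at h3
        exact m1.child h hD h2 h3
    · obtain ⟨Q, hQ, hQ1, hQ2', hQ3⟩ := exists_child h hpar1.1 (hsub.ssubset_of_ne heq)
      have hBQ := hB2 Q hQ hQ2' hQ3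
      have hcQ : c1 ⊆ Q := hpar1.2.1.1.trans hQ1
      by_cases hd : Disjoint c2 Q
      · left
        right
        exact hBQ (mem_bdry_mid h hcQ hd hv1' hv2')
      · right
        have hss := ssub_of_not_disjoint h hc1 hc2 hne hQ hcQ hd
        have hdis : Disjoint c1 Q2 := by
          rcases h.hL.lam c1 ((mem_Elt h).1 hc1).1 Q2 hQ2 with h2 | h2 | h2
          · exfalso
            have h3 : c1 ⊂ Q2 := by
              refine h2.ssubset_of_ne ?_
              rintro rfl
              exact m1.notU h hQ2U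
            exact hDmQ2 (hDm1.trans (m1.par_sub h hQ2 h3))
          · exfalso
            exact m1.notU h (U_up hDp.1 ((mem_Elt h).1 hc1).1 (hQ2a.trans h2)
              ((mem_Elt h).1 hc1).2.1)
          · exact h2
        have hc2Q2 : c2 ⊆ Q2 := by
          rcases rk_le hr2 with h7 | ⟨h7, h8⟩
          · obtain ⟨D, hD, h9, h10⟩ := T4 h s2 sc h7
            have h11 := hc.ne_pos h hD
            have h12 := hmin D hD (by omega)
            exact (d2 h s1 s2 hDp (by omega) (by omega) hv1' hv2').2.trans hQ2a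
          · have m2 := mid_of_pos h hc hc2 h7.symm
            have hP2 : par L t c2 ⊆ Q := m2.par_sub h hQ hss
            have h10 := card_lt_card hQ2'
            have h11 := card_le_card hP2
            have hg2 : 2 ≤ grp ends L t x y c2 := by
              rcases h8 with h9 | ⟨h9, h9'⟩
              · omega
              · rw [hwc, wt_of_le (by omega)] at h9'
                omega
            have hlo2 := grp_two h hg2
            have hpar2 := m2.isPar h
            obtain ⟨D2, hD2, hD2P⟩ := exists_leaf (m2.parU h)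
            have hD2c : pos ends L t x y c2 < pos ends L t x y D2 := by
              rcases Nat.lt_trichotomy (pos ends L t x y D2) (pos ends L t x y c2) with
                h2 | h2 | h2
              · exact absurd ⟨D2, hD2, hD2P, h2⟩ hlo2
              · exact absurd h2.symm (m2.ne_pos h hD2)
              · exact h2
            have hDp2 : Dp ⊆ par L t c2 :=
              E2 h m2 hDp hD2 (by omega) hD2P (hmin D2 hD2 (by omega))
            have hDm2 : ¬ Dm ⊆ par L t c2 := fun h2 => hlo2 ⟨Dm, hDm, h2, by omega⟩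
            have hP2l : par L t c2 ⊂ lam := by
              rcases nested h hpar2.1 hlam.1 hDp hDp2 hlam.2.2 with h2 | h2
              · refine h2.ssubset_of_ne ?_
                intro h3
                rw [h3] at hDm2
                exact hDm2 hlam.2.1
              · exact absurd (hlam.2.1.trans h2) hDm2
            have hP2Q2 : par L t c2 ⊆ Q2 := by
              rcases nested h hpar2.1 hQ2 hDp hDp2 hQ2a with h2 | h2
              · exact h2
              · rw [hQ2c _ hpar2.1 h2 hP2l]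
            exact hpar2.2.1.1.trans hP2Q2
        exact hBQ2 (mem_bdry_of_disjoint hdis.symm (VS_mono hc2Q2 hv2') hv1')

lemma good {c : Finset E} (hc : c ∈ Elt ends L t x y) : Good ends b L t x y c := by
  by_cases h1 : ∃ D, Lf ends L t x y D ∧ c ⊆ D
  · obtain ⟨D, hD, hs⟩ := h1
    exact good_leaf h hc hD hs
  · have hm : Mid ends L t x y c := ⟨hc, fun D hD hs => h1 ⟨D, hD, hs⟩⟩
    by_cases hlo : lo ends L t x y c
    · by_cases hup : up ends L t x y c
      · exact good_one h hm hlo hup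
      · exact good_zero h hm hlo hup
    · exact good_two h hm hlo

end ctx

end Ord

open BNTW.Ord in
/-- **Part ORD.** -/
theorem linear_order {V E : Type*} [Fintype E] [DecidableEq V] [DecidableEq E]
    {ends : E → V × V} {b : ℕ} {L : Finset (Finset E)} (hL : Lam ends b L)
    {t : Finset E} (ht : t ∈ L) {x y : V} (hxy : x ≠ y) (hx : x ∈ VS ends t) (hy : y ∈ VS ends t) :
    ∃ key : Finset E → ℕ, Set.InjOn key (Elt ends L t x y : Set (Finset E)) ∧
      ∀ c ∈ Elt ends L t x y,
        (((((Elt ends L t x y).filter (fun c' => key c' ≤ key c)).biUnion (bdry ends)) ∩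
          (((Elt ends L t x y).filter (fun c' => key c < key c')).biUnion (bdry ends))) ∪
          bdry ends c).card ≤ 3 * b := by
  have h : Ctx ends b L t x y := ⟨hL, ht, hxy, hx, hy⟩
  let idx : Finset E → ℕ := fun c => (Fintype.equivFin (Finset E) c : ℕ)
  have hidx : ∀ c, idx c < Fintype.card (Finset E) := fun c => (Fintype.equivFin (Finset E) c).2
  let key : Finset E → ℕ := fun c => BNTW.Ord.rk ends L t x y c * Fintype.card (Finset E) + idx c
  refine ⟨key, ?_, ?_⟩
  · intro c _ c' _ heq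
    have h1 := lex_le (hidx c) (hidx c') (le_of_eq heq)
    have h2 := lex_le (hidx c') (hidx c) (le_of_eq heq.symm)
    have h3 : idx c = idx c' := by omega
    exact (Fintype.equivFin (Finset E)).injective (Fin.ext h3)
  · intro c hc
    obtain ⟨W, hW1, hW2, hW3⟩ := good h hc
    refine (card_le_card ?_).trans hW1
    intro v hv
    rw [mem_union, mem_inter, mem_biUnion, mem_biUnion] at hv
    rcases hv with ⟨⟨c1, hc1, hv1⟩, ⟨c2, hc2, hv2⟩⟩ | hv
    · rw [mem_filter] at hc1 hc2
      refine hW3 c1 hc1.1 c2 hc2.1 ?_ ?_ ?_ v hv1 hv2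
      · rintro rfl
        omega
      · rcases lex_le (hidx c1) (hidx c) hc1.2 with h1 | h1
        · exact h1.le
        · exact h1.1.le
      · rcases lex_le (hidx c) (hidx c2) hc2.2.le with h1 | h1
        · exact h1.le
        · exact h1.1.le
    · exact hW2 hv

end BNTW
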