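import Pool.Agent.Helper18.KC.TOP
import Pool.Agent.Helper18.KC.LAM
import Pool.Agent.Helper18.KC.ORD
import Pool.Agent.Helper46.KC.MEN
import Pool.Agent.Results.MP_35885f_co.LogarithmicPly

/-!
From a generating family of small ply to the basis number, and from tree decompositions to
laminar families.
-/

set_option autoImplicit false

namespace BNTW

open Finset Module
open Pool.Agent.Results.MP_35885f_co

/-- the ends of the edges of a graph -/
noncomputable def gends {V : Type} (G : SimpleGraph V) : G.edgeSet → V × V :=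
  fun e => Quot.out (e : Sym2 V)

theorem gends_adj {V : Type} (G : SimpleGraph V) (e : G.edgeSet) :
    G.Adj (gends G e).1 (gends G e).2 := by
  have h2 : s((Quot.out (e : Sym2 V)).1, (Quot.out (e : Sym2 V)).2) = (e : Sym2 V) := by
    exact Quot.out_eq (e : Sym2 V)
  unfold gends
  rw [← SimpleGraph.mem_edgeSet, h2]
  exact e.2

theorem mem_cycleSpace {V : Type} [Fintype V] [DecidableEq V] (G : SimpleGraph V)
    [Fintype G.edgeSet] [DecidableEq G.edgeSet] (z : G.edgeSet → ZMod 2) :
    z ∈ LogarithmicPly.cycleSpace G ↔ ∀ x, bd (gends G) z x = 0 := by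
  rw [LogarithmicPly.eq_cyc G, Pool.Agent.Helper36.BN.mem_cyc]
  constructor
  · rintro ⟨-, h⟩ x
    exact h x
  · intro h
    exact ⟨fun e he => absurd (mem_univ e) he, fun x => h x⟩

theorem basisNumber_le {V : Type} [Fintype V] [DecidableEq V] (G : SimpleGraph V)
    [Fintype G.edgeSet] [DecidableEq G.edgeSet] (N : ℕ) (h : Nice (gends G) univ N) :
    LogarithmicPly.basisNumber G ≤ N := by
  classical
  obtain ⟨B, ⟨hB1, hB2⟩, hply⟩ := h
  obtain ⟨B', hBX, hBspan, hBli⟩ := exists_linearIndependent (ZMod 2)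
    (B : Set (G.edgeSet → ZMod 2))
  have hspan : Submodule.span (ZMod 2) B' = LogarithmicPly.cycleSpace G := by
    rw [hBspan]
    apply le_antisymm
    · rw [Submodule.span_le]
      intro z hz
      exact (mem_cycleSpace G z).2 (hB1 z hz).2
    · intro z hz
      exact hB2 z (subset_univ _) ((mem_cycleSpace G z).1 hz)
  have hBfin : B'.Finite := Set.Finite.subset (Finset.finite_toSet B) hBX
  have : Fintype B' := hBfin.fintype
  let b₁ : Basis B' (ZMod 2)
      (Submodule.span (ZMod 2) (Set.range (Subtype.val : B' → G.edgeSet → ZMod 2))) :=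
    Basis.span hBli
  have hr : Submodule.span (ZMod 2) (Set.range (Subtype.val : B' → G.edgeSet → ZMod 2)) =
      LogarithmicPly.cycleSpace G := by
    rw [Subtype.range_coe]; exact hspan
  let b₂ : Basis B' (ZMod 2) (LogarithmicPly.cycleSpace G) := b₁.map (LinearEquiv.ofEq _ _ hr)
  have hb₂ : ∀ i : B', (b₂ i : G.edgeSet → ZMod 2) = i.1 := by
    intro i
    simp only [b₂, Basis.map_apply, LinearEquiv.coe_ofEq_apply]
    exact congrArg Subtype.val (Basis.span_apply hBli i)
  have hcard : Fintype.card B' = finrank (ZMod 2) (LogarithmicPly.cycleSpace G) :=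
    (Module.finrank_eq_card_basis b₂).symm
  let φ : B' ≃ Fin (finrank (ZMod 2) (LogarithmicPly.cycleSpace G)) :=
    Fintype.equivFinOfCardEq hcard
  apply Nat.sInf_le
  refine ⟨b₂.reindex φ, fun e => ?_⟩
  refine le_trans ?_ (hply e)
  unfold LogarithmicPly.ply ply
  rw [Nat.card_eq_fintype_card, Fintype.card_subtype]
  refine card_le_card_of_injOn (fun i => (φ.symm i).1) ?_ ?_
  · intro i hi
    have hi' := (mem_filter.1 (mem_coe.1 hi)).2
    rw [Basis.reindex_apply, hb₂] at hi'
    refine mem_coe.2 (mem_filter.2 ⟨mem_coe.1 (hBX (φ.symm i).2), ?_⟩)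
    have h1 : (φ.symm i).1 e ≠ 0 := by
      rw [hi']
      exact one_ne_zero
    exact h1
  · intro i _ j _ hij
    exact φ.symm.injective (Subtype.ext hij)

theorem ordProp {V E : Type} [Fintype E] [Fintype V] [DecidableEq V] [DecidableEq E]
    {ends : E → V × V} {b : ℕ} {L : Finset (Finset E)}
    (hL : Lam ends b L) : OrdProp ends b L :=
  fun _ ht _ _ hxy hx hy => linear_order hL ht hxy hx hy

theorem twoRoutes {V E : Type} [Fintype E] [Fintype V] [DecidableEq V] [DecidableEq E]
    (N : Finset E → Finset V) : TwoRoutes N :=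
  fun P cap x y h h2 => Pool.Agent.Helper46.KC.two_routes N P cap x y h h2

/-- A laminar family from a tree decomposition. -/
theorem lam_of_tree {V : Type} [Fintype V] [DecidableEq V] (G : SimpleGraph V)
    [Fintype G.edgeSet] [DecidableEq G.edgeSet] (k : ℕ)
    (hG : ∃ (N : Type) (_ : Finite N) (T : SimpleGraph N) (B : N → Finset V), T.IsTree ∧
      (∀ v, (T.induce {x | v ∈ B x}).Connected) ∧
      (∀ v w, G.Adj v w → ∃ x, v ∈ B x ∧ w ∈ B x) ∧
      ∀ x, (B x).card ≤ k + 1) :
    ∃ L : Finset (Finset G.edgeSet), Lam (gends G) (k + 1) L := by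
  classical
  obtain ⟨N, hN, T, B, hT, hconn, hedge, hcard⟩ := hG
  have := Fintype.ofFinite N
  obtain ⟨p, d, root, h⟩ := exists_rtd hT B k hcard (fun v => (hconn v).preconnected) (gends G)
    univ (fun e _ => hedge _ _ (gends_adj G e))
  exact exists_lam h

end BNTW
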