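import Pool.Agent.Helper18.KC.Basic

/-!
Splitting a pair along a path of elements, each element used once.
-/

namespace BNTW

open Finset

variable {V : Type*} [DecidableEq V]

lemma RE.mono {ι : Type*} {N : ι → Finset V} {Q Q' : Finset ι} (hQ : Q ⊆ Q') {x y : V}
    (h : RE N Q x y) : RE N Q' x y := by
  unfold RE at h ⊢
  induction h with
  | refl => exact Relation.ReflTransGen.refl
  | tail _ hstep ih =>
    obtain ⟨i, hi, hj⟩ := hstep
    exact Relation.ReflTransGen.tail ih ⟨i, hQ hi, hj⟩

/-- Avoiding the element `i` except for its last vertex on the path. -/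
lemma RE_avoid {ι : Type*} [DecidableEq ι] (N : ι → Finset V) (Q : Finset ι) (i : ι) {x y : V}
    (h : RE N Q x y) : RE N (Q.erase i) x y ∨ ∃ u ∈ N i, RE N (Q.erase i) u y := by
  unfold RE at h
  induction h using Relation.ReflTransGen.head_induction_on with
  | refl => exact Or.inl Relation.ReflTransGen.refl
  | @head a c hstep _ ih =>
    rcases ih with ih | ih
    · obtain ⟨j, hj, ha, hc⟩ := hstep
      by_cases hji : j = i
      · subst hji
        exact Or.inr ⟨c, hc, ih⟩
      · left
        exact Relation.ReflTransGen.head ⟨j, mem_erase.2 ⟨hji, hj⟩, ha, hc⟩ ih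
    · exact Or.inr ih

theorem pair_split {ι : Type*} [DecidableEq ι] (N : ι → Finset V) (Q : Finset ι) (x y : V)
    (h : RE N Q x y) : ∃ pr : ι → V × V,
      (∀ i, (pr i).1 ≠ (pr i).2 → i ∈ Q ∧ (pr i).1 ∈ N i ∧ (pr i).2 ∈ N i) ∧
      ∀ z : V, ∑ i ∈ Q, (((if (pr i).1 = z then (1 : ZMod 2) else 0) +
        (if (pr i).2 = z then 1 else 0))) =
        (if x = z then 1 else 0) + (if y = z then 1 else 0) := by
  classical
  suffices H : ∀ (n : ℕ) (Q : Finset ι) (x : V), Q.card = n → RE N Q x y → ∃ pr : ι → V × V,
      (∀ i, (pr i).1 ≠ (pr i).2 → i ∈ Q ∧ (pr i).1 ∈ N i ∧ (pr i).2 ∈ N i) ∧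
      ∀ z : V, ∑ i ∈ Q, (((if (pr i).1 = z then (1 : ZMod 2) else 0) +
        (if (pr i).2 = z then 1 else 0))) =
        (if x = z then 1 else 0) + (if y = z then 1 else 0) from H Q.card Q x rfl h
  intro n
  induction n using Nat.strong_induction_on with
  | _ n ih =>
  intro Q x hQ hRE
  by_cases hxy : x = y
  · subst hxy
    refine ⟨fun _ => (x, x), fun i hi => absurd rfl hi, ?_⟩
    intro z
    rw [zmod2_add_self]
    exact sum_eq_zero (fun i _ => zmod2_add_self _)
  · have hRE' := hRE
    unfold RE at hRE'
    rcases Relation.ReflTransGen.cases_head hRE' with h0 | ⟨c, ⟨i, hi, hxi, hci⟩, hrest⟩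
    · exact absurd h0 hxy
    · have hlt : (Q.erase i).card < n := by rw [← hQ]; exact card_erase_lt_of_mem hi
      have key : ∃ u ∈ N i, RE N (Q.erase i) u y := by
        rcases RE_avoid N Q i hRE with h1 | h1
        · exact ⟨x, hxi, h1⟩
        · exact h1
      obtain ⟨u, hu, hRu⟩ := key
      obtain ⟨pr, hpr1, hpr2⟩ := ih _ hlt (Q.erase i) u rfl hRu
      refine ⟨Function.update pr i (x, u), ?_, ?_⟩
      · intro j hj
        by_cases hji : j = i
        · subst hji
          rw [Function.update_self]
          exact ⟨hi, hxi, hu⟩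
        · rw [Function.update_of_ne hji] at hj ⊢
          obtain ⟨h1, h2, h3⟩ := hpr1 j hj
          exact ⟨(mem_erase.1 h1).2, h2, h3⟩
      · intro z
        rw [← add_sum_erase Q _ hi, Function.update_self]
        have h1 : ∑ j ∈ Q.erase i, (((if (Function.update pr i (x, u) j).1 = z then
            (1 : ZMod 2) else 0) + (if (Function.update pr i (x, u) j).2 = z then 1 else 0))) =
            ∑ j ∈ Q.erase i, (((if (pr j).1 = z then (1 : ZMod 2) else 0) +
              (if (pr j).2 = z then 1 else 0))) := by
          apply sum_congr rfl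
          intro j hj
          rw [Function.update_of_ne (mem_erase.1 hj).1]
        rw [h1, hpr2 z]
        generalize (if x = z then (1 : ZMod 2) else 0) = c1
        generalize (if u = z then (1 : ZMod 2) else 0) = c2
        generalize (if y = z then (1 : ZMod 2) else 0) = c3
        revert c1 c2 c3
        decide

end BNTW
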