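import Pool.Agent.Helper18.KC.SEQ

/-!
The recursion along the laminar family.
-/

namespace BNTW

open Finset

universe u

variable {V E : Type u} [Fintype E] [Fintype V] [DecidableEq V] [DecidableEq E]

/-- The order property (part ORD). -/
def OrdProp (ends : E → V × V) (b : ℕ) (L : Finset (Finset E)) : Prop :=
  ∀ t ∈ L, ∀ x y : V, x ≠ y → x ∈ VS ends t → y ∈ VS ends t →
    ∃ key : Finset E → ℕ, Set.InjOn key (Elt ends L t x y : Set (Finset E)) ∧
      ∀ c ∈ Elt ends L t x y,
        (((((Elt ends L t x y).filter (fun c' => key c' ≤ key c)).biUnion (bdry ends)) ∩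
          (((Elt ends L t x y).filter (fun c' => key c < key c')).biUnion (bdry ends))) ∪
          bdry ends c).card ≤ 3 * b

/-- The two routes property (part MEN). -/
def TwoRoutes (N : Finset E → Finset V) : Prop :=
  ∀ (P : Finset (Finset E)) (cap : Finset E → Prop) (x y : V), RE N P x y →
    (∀ f ∈ P, cap f → RE N (P.erase f) x y) →
    ∃ Y1 ⊆ P, ∃ Y2 ⊆ P, RE N Y1 x y ∧ RE N Y2 x y ∧ ∀ f, f ∈ Y1 → f ∈ Y2 → ¬ cap f

lemma sep_mono {N : Finset E → Finset V} {P P' : Finset (Finset E)} (h : P ⊆ P')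
    (key : Finset E → ℕ) (c : Finset E) :
    ((((P.filter (fun c' => key c' ≤ key c)).biUnion N) ∩
      ((P.filter (fun c' => key c < key c')).biUnion N)) ∪ N c).card ≤
    ((((P'.filter (fun c' => key c' ≤ key c)).biUnion N) ∩
      ((P'.filter (fun c' => key c < key c')).biUnion N)) ∪ N c).card := by
  apply card_le_card
  apply union_subset_union _ (Subset.refl _)
  apply inter_subset_inter
  · exact biUnion_subset_biUnion_of_subset_left _ (filter_subset_filter _ h)
  · exact biUnion_subset_biUnion_of_subset_left _ (filter_subset_filter _ h)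

/-- Fewer demands. -/
lemma RX.mono {ends : E → V × V} {Λ : ℕ} {c : Finset E} {n n' : ℕ} {F : Finset (Finset E)}
    {X : Finset E → ℕ} (hn : n ≤ n') (h : RX ends Λ c n' F X) : RX ends Λ c n F X := by
  intro ι κ _ _ dem loc exd h1 h2 h3 h4
  exact h ι κ dem loc exd (h1.trans hn) h2 h3 h4

/-- A piece as its own final piece. -/
lemma RX_single {ends : E → V × V} {Λ : ℕ} {c : Finset E} {n : ℕ} {X : Finset E → ℕ}
    (h : RX ends Λ c (n + X c) ∅ (fun _ => 0)) : RX ends Λ c n {c} X := by
  classical
  intro ι κ _ _ dem loc exd h1 h2 h3 h4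
  have hNTc : ∀ i, NT (exd i) → loc i = c := fun i hi => mem_singleton.1 (h4 i hi).1
  obtain ⟨B, rt, rx, a1, a2, a3, a4, a5, a6⟩ := h (ι ⊕ κ) PEmpty (Sum.elim dem exd)
    (fun x => x.elim) (fun x => x.elim) (by
      rw [card_filter_sumType]
      apply add_le_add h1
      refine le_trans (card_le_card ?_) (h3 c (mem_singleton_self c))
      intro i hi
      rw [mem_filter] at hi ⊢
      exact ⟨mem_univ _, hNTc i hi.2, hi.2⟩) (by
      rintro (j | i) hj
      · exact h2 j hj
      · have := h4 i hj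
        rw [hNTc i hj] at this
        exact this.2) (by
      intro f hf
      exact absurd hf (notMem_empty f)) (by
      intro i
      exact i.elim)
  refine ⟨B, fun j => rt (Sum.inl j), fun i => rt (Sum.inr i), a1, fun j => a2 (Sum.inl j),
    fun j => a3 (Sum.inl j), ?_, fun i => a3 (Sum.inr i), ?_⟩
  · intro i hi
    rw [hNTc i hi]
    exact a2 (Sum.inr i)
  · intro e he
    have := a6 e he
    rw [card_filter_sumType] at this
    beta_reduce
    omega

/-- **The sequence.** -/
theorem rx_seq {ends : E → V × V} {b : ℕ} {L : Finset (Finset E)} (hL : Lam ends b L)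
    (hb : 1 ≤ b) (hO : OrdProp ends b L) (Λ : ℕ) {t : Finset E} (ht : t ∈ L)
    (X : Finset E → ℕ) :
    ∀ (ps : List (V × V)), (∀ q ∈ ps, q.1 ≠ q.2 ∧ q.1 ∈ VS ends t ∧ q.2 ∈ VS ends t) →
      ∀ (n : ℕ) (c : Finset E), c ∈ L → c ⊆ t →
      (∀ f ∈ Fin' ends L t ps c,
        RX ends Λ f (n + 3 * b * b * ps.length + X f) ∅ (fun _ => 0)) →
      RX ends Λ c n (Fin' ends L t ps c) X := by
  classical
  intro ps
  induction ps with
  | nil =>
    intro _ n c _ _ h
    rw [Fin'_nil] at h ⊢
    have := h c (mem_singleton_self c)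
    simp only [List.length_nil, Nat.mul_zero, Nat.add_zero] at this
    exact RX_single this
  | cons q ps ih =>
    intro hps n c hc hct h
    have hq := hps q (List.mem_cons_self)
    have hps' : ∀ q ∈ ps, q.1 ≠ q.2 ∧ q.1 ∈ VS ends t ∧ q.2 ∈ VS ends t :=
      fun q' hq' => hps q' (List.mem_cons_of_mem _ hq')
    have hlen : (q :: ps).length = ps.length + 1 := rfl
    by_cases hcU : c ∈ Uxy ends L t q.1 q.2 ∧ 1 < c.card
    · rw [Fin'_pos hcU] at h ⊢
      set P := (Elt ends L t q.1 q.2).filter (fun ε => ε ⊆ c) with hP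
      have hPE : P ⊆ Elt ends L t q.1 q.2 := filter_subset _ _
      have hPL : ∀ ε ∈ P, ε ∈ L ∧ ε ⊆ c := fun ε hε =>
        ⟨(mem_Elt.1 (hPE hε)).1, (mem_filter.1 hε).2⟩
      obtain ⟨key, hkey, hsep⟩ := hO t ht q.1 q.2 hq.1 hq.2.1 hq.2.2
      apply refine_step ends Λ c P b (3 * b) n (fun ε hε => (hPL ε hε).2)
        (Elt_cover hL hcU.1)
        (fun A hA B hB hne => Elt_disj hL A (hPE hA) B (hPE hB) hne)
        (fun ε hε => hL.conn ε (hPL ε hε).1) (hL.conn c hc)
        (fun ε hε => hL.bcard ε (hPL ε hε).1) key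
        (hkey.mono (by intro a ha; exact hPE ha))
        (fun ε hε => (sep_mono hPE key ε).trans (hsep ε (hPE hε))) (by omega)
      · intro f hf
        rw [mem_biUnion] at hf
        obtain ⟨ε, hε, hf⟩ := hf
        have h1 := (Fin'_props hL ps ε (hPL ε hε).1 ((hPL ε hε).2.trans hct)).1 f hf
        exact ⟨(hL.conn f h1.1).1, ε, hε, h1.2.1⟩
      · intro ε hε
        have hεt := (hPL ε hε).2.trans hct
        have hfil : (P.biUnion (Fin' ends L t ps)).filter (fun f => f ⊆ ε) =
            Fin' ends L t ps ε := by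
          ext f
          rw [mem_filter, mem_biUnion]
          constructor
          · rintro ⟨⟨ε', hε', hf⟩, hfε⟩
            have h1 := (Fin'_props hL ps ε' (hPL ε' hε').1 ((hPL ε' hε').2.trans hct)).1 f hf
            by_cases hee : ε' = ε
            · rw [← hee]; exact hf
            · exfalso
              obtain ⟨e, he⟩ := (hL.conn f h1.1).1
              exact (Finset.disjoint_left.1 (Elt_disj hL ε' (hPE hε') ε (hPE hε) hee))
                (h1.2.1 he) (hfε he)
          · intro hf
            have h1 := (Fin'_props hL ps ε (hPL ε hε).1 hεt).1 f hf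
            exact ⟨⟨ε, hε, hf⟩, h1.2.1⟩
        rw [hfil]
        apply ih hps' (n + 3 * b * b) ε (hPL ε hε).1 hεt
        intro f hf
        have h1 := h f (mem_biUnion.2 ⟨ε, hε, hf⟩)
        refine RX.mono (le_of_eq ?_) h1
        rw [hlen]
        ring
    · rw [Fin'_neg hcU] at h ⊢
      apply ih hps' n c hc hct
      intro f hf
      refine RX.mono ?_ (h f hf)
      rw [hlen]
      have : 3 * b * b * ps.length ≤ 3 * b * b * (ps.length + 1) :=
        Nat.mul_le_mul_left _ (Nat.le_succ _)
      omega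

/-- The children of a member. -/
noncomputable def children (L : Finset (Finset E)) (t : Finset E) : Finset (Finset E) := by
  classical
  exact L.filter (fun C => C ⊂ t ∧ ∀ D ∈ L, C ⊆ D → D ⊂ t → D = C)

lemma mem_children {L : Finset (Finset E)} {t C : Finset E} :
    C ∈ children L t ↔ C ∈ L ∧ C ⊂ t ∧ ∀ D ∈ L, C ⊆ D → D ⊂ t → D = C := by
  classical
  unfold children
  rw [mem_filter]

/-- **The first refinement: into the children.** -/
theorem rx_children {ends : E → V × V} {b : ℕ} {L : Finset (Finset E)} (hL : Lam ends b L)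
    (hb : 1 ≤ b) (hO : OrdProp ends b L) (Λ : ℕ) {t : Finset E} (ht : t ∈ L) (ht1 : 1 < t.card)
    (X : Finset E → ℕ) (ps : List (V × V))
    (hps : ∀ q ∈ ps, q.1 ≠ q.2 ∧ q.1 ∈ VS ends t ∧ q.2 ∈ VS ends t) (n : ℕ)
    (h : ∀ f ∈ (children L t).biUnion (Fin' ends L t ps),
      RX ends Λ f (n + 3 * b * b * (ps.length + 1) + X f) ∅ (fun _ => 0)) :
    RX ends Λ t n ((children L t).biUnion (Fin' ends L t ps)) X := by
  classical
  set P := children L t with hP
  have hPL : ∀ ε ∈ P, ε ∈ L ∧ ε ⊂ t ∧ ∀ D ∈ L, ε ⊆ D → D ⊂ t → D = ε :=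
    fun ε hε => mem_children.1 hε
  have hcov : ∀ e ∈ t, ∃ ε ∈ P, e ∈ ε := by
    intro e he
    set Z : Finset (Finset E) := L.filter (fun D => e ∈ D ∧ D ⊂ t) with hZ
    have hsing : {e} ⊂ t := by
      rw [Finset.ssubset_iff_subset_ne]
      refine ⟨singleton_subset_iff.2 he, ?_⟩
      rintro rfl
      rw [card_singleton] at ht1
      omega
    have hZne : Z.Nonempty := ⟨{e}, by
      rw [hZ, mem_filter]; exact ⟨hL.single e, mem_singleton_self e, hsing⟩⟩
    obtain ⟨ε, hε, hmax⟩ := exists_max_image Z Finset.card hZne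
    rw [hZ, mem_filter] at hε
    obtain ⟨hεL, heε, hεt⟩ := hε
    refine ⟨ε, mem_children.2 ⟨hεL, hεt, ?_⟩, heε⟩
    intro D hD hsub hDt
    have h1 := hmax D (by rw [hZ, mem_filter]; exact ⟨hD, hsub heε, hDt⟩)
    exact (eq_of_subset_of_card_le hsub h1).symm
  have hdisj : ∀ A ∈ P, ∀ B ∈ P, A ≠ B → Disjoint A B := by
    intro A hA B hB hne
    obtain ⟨a1, a2, a3⟩ := hPL A hA
    obtain ⟨b1, b2, b3⟩ := hPL B hB
    rcases hL.lam A a1 B b1 with h1 | h1 | h1
    · exact absurd (a3 B b1 h1 b2).symm hne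
    · exact absurd (b3 A a1 h1 a2) hne
    · exact h1
  obtain ⟨BB, hBB, hchild⟩ := hL.bag t ht ht1
  set key : Finset E → ℕ := fun c => (Fintype.equivFin (Finset E) c : ℕ) with hkeydef
  have hkey : Function.Injective key := by
    intro a c hac
    exact (Fintype.equivFin (Finset E)).injective (Fin.ext hac)
  have hbd : ∀ ε ∈ P, bdry ends ε ⊆ BB := fun ε hε =>
    hchild ε (hPL ε hε).1 (hPL ε hε).2.1 (hPL ε hε).2.2
  apply refine_step ends Λ t P b (3 * b) n (fun ε hε => (hPL ε hε).2.1.subset) hcov hdisj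
    (fun ε hε => hL.conn ε (hPL ε hε).1) (hL.conn t ht)
    (fun ε hε => hL.bcard ε (hPL ε hε).1) key (hkey.injOn) _ (by omega)
  · intro f hf
    rw [mem_biUnion] at hf
    obtain ⟨ε, hε, hf⟩ := hf
    have h1 := (Fin'_props hL ps ε (hPL ε hε).1 (hPL ε hε).2.1.subset).1 f hf
    exact ⟨(hL.conn f h1.1).1, ε, hε, h1.2.1⟩
  · intro ε hε
    have hεt := (hPL ε hε).2.1.subset
    have hfil : (P.biUnion (Fin' ends L t ps)).filter (fun f => f ⊆ ε) =
        Fin' ends L t ps ε := by
      ext f
      rw [mem_filter, mem_biUnion]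
      constructor
      · rintro ⟨⟨ε', hε', hf⟩, hfε⟩
        have h1 := (Fin'_props hL ps ε' (hPL ε' hε').1 (hPL ε' hε').2.1.subset).1 f hf
        by_cases hee : ε' = ε
        · rw [← hee]; exact hf
        · exfalso
          obtain ⟨e, he⟩ := (hL.conn f h1.1).1
          exact (Finset.disjoint_left.1 (hdisj ε' hε' ε hε hee)) (h1.2.1 he) (hfε he)
      · intro hf
        have h1 := (Fin'_props hL ps ε (hPL ε hε).1 hεt).1 f hf
        exact ⟨⟨ε, hε, hf⟩, h1.2.1⟩
    rw [hfil]
    apply rx_seq hL hb hO Λ ht X ps hps (n + 3 * b * b) ε (hPL ε hε).1 hεt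
    intro f hf
    have h1 := h f (mem_biUnion.2 ⟨ε, hε, hf⟩)
    refine RX.mono (le_of_eq ?_) h1
    ring
  · intro c hc
    refine (card_le_card (?_ : _ ⊆ BB)).trans (hBB.trans (by omega))
    intro x hx
    rw [mem_union, mem_inter] at hx
    rcases hx with hx | hx
    · obtain ⟨ε, hε, hxε⟩ := mem_biUnion.1 hx.1
      exact hbd ε (mem_filter.1 hε).1 hxε
    · exact hbd c hc hx

/-- A single edge serves any number of demands. -/
lemma RX_edge {ends : E → V × V} {Λ : ℕ} {e : E} (hl : (ends e).1 ≠ (ends e).2) {n : ℕ}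
    (hn : n ≤ Λ) : RX ends Λ {e} n ∅ (fun _ => 0) := by
  classical
  intro ι κ _ _ dem loc exd h1 h2 h3 h4
  have hex : ∀ i, ¬ NT (exd i) := fun i hi => absurd (h4 i hi).1 (notMem_empty _)
  refine ⟨∅, fun j => if NT (dem j) then Pi.single e 1 else 0, fun _ => 0, ⟨by simp, ?_⟩,
    ?_, ?_, fun i hi => absurd hi (hex i), fun _ _ => rfl, ?_⟩
  · intro z hz hzb
    have hz0 : z = 0 := by
      by_contra hne
      have hze : z e ≠ 0 := by
        intro h0
        apply hne
        ext f
        by_cases hf : f = e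
        · rw [hf, h0]; rfl
        · by_contra h5
          exact hf (mem_singleton.1 (hz ((mem_supp z f).2 h5)))
      have hzs : z = Pi.single e 1 := by
        ext f
        by_cases hf : f = e
        · subst hf
          rw [(zmod2_cases _).resolve_left hze]
          simp
        · rw [Pi.single_eq_of_ne hf]
          by_contra h5
          exact hf (mem_singleton.1 (hz ((mem_supp z f).2 h5)))
      have h6 := hzb (ends e).1
      rw [hzs, bd_single] at h6
      unfold inc at h6
      rw [if_pos rfl, if_neg (fun h7 => hl h7.symm), add_zero] at h6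
      exact one_ne_zero h6
    rw [hz0]
    exact Submodule.zero_mem _
  · intro j
    by_cases hj : NT (dem j)
    · simp only [if_pos hj]
      refine ⟨supp_single e, ?_⟩
      intro x
      rw [bd_single]
      obtain ⟨a1, a2⟩ := h2 j hj
      have b1 := bdry_subset_VS a1
      have b2 := bdry_subset_VS a2
      rw [mem_VS] at b1 b2
      obtain ⟨e1, he1, b1⟩ := b1
      obtain ⟨e2, he2, b2⟩ := b2
      rw [mem_singleton] at he1 he2
      subst he1
      subst he2
      rw [mem_endsSet] at b1 b2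
      unfold inc dl
      rcases b1 with b1 | b1 <;> rcases b2 with b2 | b2
      · exact absurd (b1.symm.trans b2) hj
      · rw [b1, b2]
      · rw [b1, b2, add_comm]
      · exact absurd (b1.symm.trans b2) hj
    · simp only [if_neg hj]
      refine ⟨?_, ?_⟩
      · rw [(supp_eq_empty_iff _).2 rfl]; exact empty_subset _
      · intro x
        have : dem j = ((dem j).1, (dem j).1) := by
          ext
          · rfl
          · exact (not_not.1 hj).symm
        rw [bd_zero, this, dl_self]
  · intro j hj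
    simp only [if_neg hj]
  · intro f hf
    have h5 : ply (∅ : Finset (E → ZMod 2)) f = 0 := by simp [ply]
    have h6 : (univ.filter (fun j => (if NT (dem j) then (Pi.single e 1 : E → ZMod 2) else 0) f
        ≠ 0)).card ≤ n := by
      refine le_trans (card_le_card ?_) h1
      intro j hj
      rw [mem_filter] at hj ⊢
      refine ⟨mem_univ _, ?_⟩
      by_contra h7
      have h8 := hj.2
      rw [if_neg (fun h9 : NT (dem j) => h9 h7)] at h8
      exact h8 rfl
    have h7 : (univ.filter (fun _ : κ => ((0 : E → ZMod 2) f ≠ 0))).card = 0 := by simp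
    rw [h5, h7]
    beta_reduce
    omega

end BNTW
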