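import Pool.Agent.Helper18.KC.PS

/-!
Refining a connected piece into smaller ones: the cost is one linear family.
-/

namespace BNTW

open Finset

universe u

variable {V E : Type u} [Fintype E] [Fintype V] [DecidableEq V] [DecidableEq E]

/-- Nontrivial demands. -/
abbrev NT (pr : V × V) : Prop := pr.1 ≠ pr.2

/-- `c` has a spanning family of even vectors together with routes for at most `n` demands on its
boundary and for the extra demands on the pieces `f ∈ F` (at most `X f` for `f`), with total load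
at most `Λ` on each edge. -/
def RX (ends : E → V × V) (Λ : ℕ) (c : Finset E) (n : ℕ) (F : Finset (Finset E))
    (X : Finset E → ℕ) : Prop :=
  ∀ (ι κ : Type u) [Fintype ι] [Fintype κ] (dem : ι → V × V) (loc : κ → Finset E)
    (exd : κ → V × V),
    (univ.filter (fun j => NT (dem j))).card ≤ n →
    (∀ j, NT (dem j) → (dem j).1 ∈ bdry ends c ∧ (dem j).2 ∈ bdry ends c) →
    (∀ f ∈ F, (univ.filter (fun i => loc i = f ∧ NT (exd i))).card ≤ X f) →
    (∀ i, NT (exd i) → loc i ∈ F ∧ (exd i).1 ∈ bdry ends (loc i) ∧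
      (exd i).2 ∈ bdry ends (loc i)) →
    ∃ (B : Finset (E → ZMod 2)) (rt : ι → E → ZMod 2) (rx : κ → E → ZMod 2),
      Spans ends c B ∧ (∀ j, supp (rt j) ⊆ c ∧ ∀ x, bd ends (rt j) x = dl (dem j) x) ∧
      (∀ j, ¬ NT (dem j) → rt j = 0) ∧
      (∀ i, NT (exd i) → supp (rx i) ⊆ loc i ∧ ∀ x, bd ends (rx i) x = dl (exd i) x) ∧
      (∀ i, ¬ NT (exd i) → rx i = 0) ∧
      ∀ e ∈ c, ply B e + (univ.filter (fun j => rt j e ≠ 0)).card +
        (univ.filter (fun i => rx i e ≠ 0)).card ≤ Λ

/-- The virtual multigraph: the virtual edge `(ε, v)` joins the centre `r ε` to `v`. -/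
def endsH (r : Finset E → V) : Finset E × V → V × V := fun p => (r p.1, p.2)

/-- The virtual edges of the pieces in `P`. -/
noncomputable def AH (ends : E → V × V) (r : Finset E → V) (P : Finset (Finset E)) :
    Finset (Finset E × V) := by
  classical
  exact (P ×ˢ (univ : Finset V)).filter (fun p => p.2 ∈ bdry ends p.1 ∧ p.2 ≠ r p.1)

lemma mem_AH {ends : E → V × V} {r : Finset E → V} {P : Finset (Finset E)} {p : Finset E × V} :
    p ∈ AH ends r P ↔ p.1 ∈ P ∧ p.2 ∈ bdry ends p.1 ∧ p.2 ≠ r p.1 := by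
  classical
  unfold AH
  rw [mem_filter, mem_product]
  simp

/-- The linear family in the virtual multigraph. -/
theorem virtual_family (ends : E → V × V) (r : Finset E → V) (P : Finset (Finset E))
    (hr : ∀ ε ∈ P, (bdry ends ε).Nonempty → r ε ∈ bdry ends ε) (key : Finset E → ℕ)
    (hkey : Set.InjOn key (P : Set (Finset E))) (w : ℕ)
    (hw : ∀ c ∈ P, ((((P.filter (fun c' => key c' ≤ key c)).biUnion (bdry ends)) ∩
      ((P.filter (fun c' => key c < key c')).biUnion (bdry ends))) ∪ bdry ends c).card ≤ w) :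
    ∃ B : Finset (Finset E × V → ZMod 2), Spans (endsH r) (AH ends r P) B ∧
      ∀ e, ply B e ≤ w - 1 + 1 := by
  classical
  set K := Fintype.card (Finset E × V) with hK
  set idx : Finset E × V → ℕ := fun p => (Fintype.equivFin (Finset E × V) p : ℕ) with hidx
  have hidxlt : ∀ p, idx p < K := fun p => (Fintype.equivFin (Finset E × V) p).2
  set ord : Finset E × V → ℕ := fun p => key p.1 * K + idx p with hord
  have hKpos : ∀ p : Finset E × V, 0 < K := fun p => lt_of_le_of_lt (Nat.zero_le _) (hidxlt p)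
  have hinj : Function.Injective ord := by
    intro p q hpq
    have h1 : idx p = idx q := by
      have h2 : ord p % K = ord q % K := by rw [hpq]
      simp only [hord] at h2
      rw [Nat.mul_add_mod', Nat.mul_add_mod', Nat.mod_eq_of_lt (hidxlt p),
        Nat.mod_eq_of_lt (hidxlt q)] at h2
      exact h2
    exact (Fintype.equivFin (Finset E × V)).injective (Fin.ext h1)
  apply linear_family (endsH r) ord hinj (AH ends r P) w
  rintro ⟨c, v0⟩ hcv
  have hc := (mem_AH.1 hcv).1
  refine le_trans (card_le_card ?_) (hw c hc)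
  have hend : ∀ p ∈ AH ends r P, ∀ x, x ∈ endsSet (endsH r) p → x ∈ bdry ends p.1 := by
    intro p hp x hx
    obtain ⟨h1, h2, h3⟩ := mem_AH.1 hp
    rw [mem_endsSet] at hx
    rcases hx with hx | hx
    · have : r p.1 = x := hx
      rw [← this]
      exact hr p.1 h1 ⟨p.2, h2⟩
    · have : p.2 = x := hx
      rw [← this]
      exact h2
  intro x hx
  unfold sepSet at hx
  rw [mem_inter, mem_biUnion, mem_biUnion] at hx
  obtain ⟨⟨p, hp, hxp⟩, ⟨q, hq, hxq⟩⟩ := hx
  rw [mem_filter] at hp hq
  have hxp' := hend p hp.1 x hxp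
  have hxq' := hend q hq.1 x hxq
  have hkp : key p.1 ≤ key c := by
    by_contra hcon
    push Not at hcon
    have h1 : ord p ≤ ord (c, v0) := hp.2
    simp only [hord] at h1
    have h2 : (key c + 1) * K ≤ key p.1 * K := Nat.mul_le_mul_right _ hcon
    have h3 := hidxlt (c, v0)
    rw [add_mul, one_mul] at h2
    omega
  have hkq : key c ≤ key q.1 := by
    by_contra hcon
    push Not at hcon
    have h1 : ord (c, v0) < ord q := hq.2
    simp only [hord] at h1
    have h2 : (key q.1 + 1) * K ≤ key c * K := Nat.mul_le_mul_right _ hcon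
    have h3 := hidxlt q
    rw [add_mul, one_mul] at h2
    omega
  rw [mem_union]
  have hpP := (mem_AH.1 hp.1).1
  have hqP := (mem_AH.1 hq.1).1
  rcases Nat.lt_or_ge (key c) (key q.1) with h | h
  · left
    rw [mem_inter, mem_biUnion, mem_biUnion]
    exact ⟨⟨p.1, mem_filter.2 ⟨hpP, hkp⟩, hxp'⟩, ⟨q.1, mem_filter.2 ⟨hqP, h⟩, hxq'⟩⟩
  · right
    have : q.1 = c := hkey hqP hc (le_antisymm h hkq)
    rw [← this]
    exact hxq'

end BNTW
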