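import Pool.Agent.Helper18.KC.REF

/-!
The refinement step.
-/

namespace BNTW

open Finset

universe u

variable {V E : Type u} [Fintype E] [Fintype V] [DecidableEq V] [DecidableEq E]

lemma card_filter_sumType {α β : Type*} [Fintype α] [Fintype β] (p : α ⊕ β → Prop)
    [DecidablePred p] : (univ.filter p).card =
      (univ.filter (fun a => p (Sum.inl a))).card + (univ.filter (fun b => p (Sum.inr b))).card := by
  simp only [card_filter, Fintype.sum_sum_type]

omit [Fintype V] [DecidableEq V] in
lemma sum_apply_piece {P : Finset (Finset E)} (hdisj : ∀ A ∈ P, ∀ B ∈ P, A ≠ B → Disjoint A B)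
    (f : Finset E → E → ZMod 2) (hf : ∀ ε ∈ P, supp (f ε) ⊆ ε) {ε0 : Finset E} (h0 : ε0 ∈ P)
    {e : E} (he : e ∈ ε0) : (∑ ε ∈ P, f ε) e = f ε0 e := by
  rw [Finset.sum_apply, sum_eq_single ε0]
  · intro ε hε hne
    by_contra h
    have h1 := hf ε hε ((mem_supp _ _).2 h)
    exact (Finset.disjoint_left.1 (hdisj ε hε ε0 h0 hne)) h1 he
  · intro h; exact absurd h0 h

omit [Fintype V] in
lemma dl_virtual {r : Finset E → V} (y : Finset E × V → ZMod 2) (ε : Finset E) (v x : V) :
    dl (if y (ε, v) ≠ 0 then (r ε, v) else (v, v)) x = y (ε, v) * dl (r ε, v) x := by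
  split_ifs with h
  · rw [(zmod2_cases (y (ε, v))).resolve_left h, one_mul]
  · push Not at h
    rw [h, zero_mul, dl_self]

lemma bd_endsH {r : Finset E → V} {P : Finset (Finset E)} (y : Finset E × V → ZMod 2)
    (hy : ∀ p, y p ≠ 0 → p.1 ∈ P) (x : V) :
    bd (endsH r) y x = ∑ ε ∈ P, ∑ v, y (ε, v) * dl (r ε, v) x := by
  unfold bd
  rw [Fintype.sum_prod_type]
  symm
  apply sum_subset (subset_univ _)
  intro ε _ hε
  apply sum_eq_zero
  intro v _
  have : y (ε, v) = 0 := by
    by_contra h
    exact hε (hy (ε, v) h)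
  rw [this, zero_mul]

/-- The virtual vector of an even vector. -/
lemma virtual_sum {ends : E → V × V} {r : Finset E → V} {z : E → ZMod 2}
    (hz : ∀ x, bd ends z x = 0) (ε : Finset E) (x : V) :
    ∑ v, (if v ∈ bdry ends ε ∧ v ≠ r ε then bd ends (rst ε z) v else 0) * dl (r ε, v) x =
      bd ends (rst ε z) x := by
  set β : V → ZMod 2 := fun v => bd ends (rst ε z) v with hβ
  have h1 : ∀ v, (if v ∈ bdry ends ε ∧ v ≠ r ε then bd ends (rst ε z) v else 0) =
      (if v ≠ r ε then β v else 0) := by
    intro v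
    by_cases hv : v ∈ bdry ends ε
    · simp [hv, hβ]
    · have : β v = 0 := bd_rst_eq_zero hz hv
      simp [hv, this]
  simp_rw [h1]
  have h2 : ∑ v, β v = 0 := sum_bd ends (rst ε z)
  have h3 : ∀ v, (if v ≠ r ε then β v else 0) * dl (r ε, v) x =
      (if r ε = x then 1 else 0) * (if v ≠ r ε then β v else 0) +
        (if v = x then (if v ≠ r ε then β v else 0) else 0) := by
    intro v
    unfold dl
    simp only
    rw [mul_add, mul_comm]
    congr 1
    split_ifs <;> simp
  simp_rw [h3]
  rw [sum_add_distrib, ← mul_sum, sum_ite_eq' univ x]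
  simp only [mem_univ, if_true]
  have h4 : ∑ v, (if v ≠ r ε then β v else 0) = β (r ε) := by
    have h5 : ∑ v, (if v ≠ r ε then β v else 0) + β (r ε) = 0 := by
      refine Eq.trans ?_ h2
      rw [← sum_erase_add univ β (mem_univ (r ε))]
      congr 1
      rw [← sum_filter]
      apply sum_congr _ (fun _ _ => rfl)
      ext v
      simp
    generalize ∑ v, (if v ≠ r ε then β v else 0) = a at h5
    generalize β (r ε) = b at h5
    revert a b
    decide
  rw [h4]
  by_cases hx : r ε = x
  · subst hx
    simp [hβ]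
  · have hx' : x ≠ r ε := fun h => hx h.symm
    simp [hx, hx', hβ]

/-- **The refinement step.** -/
theorem refine_step (ends : E → V × V) (Λ : ℕ) (c : Finset E) (P : Finset (Finset E))
    (b w n : ℕ) (hPc : ∀ ε ∈ P, ε ⊆ c) (hcov : ∀ e ∈ c, ∃ ε ∈ P, e ∈ ε)
    (hdisj : ∀ A ∈ P, ∀ B ∈ P, A ≠ B → Disjoint A B) (hconn : ∀ ε ∈ P, IsCn ends ε)
    (hcc : IsCn ends c) (hb : ∀ ε ∈ P, (bdry ends ε).card ≤ b)
    (key : Finset E → ℕ) (hkey : Set.InjOn key (P : Set (Finset E)))
    (hw : ∀ c ∈ P, ((((P.filter (fun c' => key c' ≤ key c)).biUnion (bdry ends)) ∩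
      ((P.filter (fun c' => key c < key c')).biUnion (bdry ends))) ∪ bdry ends c).card ≤ w)
    (hw1 : 1 ≤ w) (F : Finset (Finset E)) (X : Finset E → ℕ)
    (hF : ∀ f ∈ F, f.Nonempty ∧ ∃ ε ∈ P, f ⊆ ε)
    (h : ∀ ε ∈ P, RX ends Λ ε (n + w * b) (F.filter (fun f => f ⊆ ε)) X) :
    RX ends Λ c n F X := by
  classical
  intro ι κ _ _ dem loc exd hcount hdem hX hexd
  obtain ⟨e0, he0⟩ := hcc.1
  set v0 : V := (ends e0).1 with hv0
  set r : Finset E → V := fun ε => if hh : (bdry ends ε).Nonempty then hh.choose else v0 with hrdef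
  have hr : ∀ ε ∈ P, (bdry ends ε).Nonempty → r ε ∈ bdry ends ε := by
    intro ε _ hne
    simp only [hrdef]
    rw [dif_pos hne]
    exact hne.choose_spec
  obtain ⟨BH, hBH, hply⟩ := virtual_family ends r P hr key hkey w hw
  have hBHA : ∀ y ∈ BH, ∀ p, y p ≠ 0 → p ∈ AH ends r P := fun y hy p hp =>
    (hBH.1 y hy).1 ((mem_supp y p).2 hp)
  -- splitting the demands
  have hsplit : ∀ j : ι, ∃ pr : Finset E → V × V,
      (∀ ε, NT (pr ε) → NT (dem j) ∧ ε ∈ P ∧ (pr ε).1 ∈ bdry ends ε ∧ (pr ε).2 ∈ bdry ends ε) ∧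
      ∀ z, ∑ ε ∈ P, dl (pr ε) z = dl (dem j) z := by
    intro j
    by_cases hj : NT (dem j)
    · have hd := hdem j hj
      have hRE : RE (bdry ends) P (dem j).1 (dem j).2 := by
        apply RE_of_Cn hcov hdisj
        · intro A hA hx
          exact mem_bdry_of_subset (hPc A hA) hx hd.1
        · intro A hA hx
          exact mem_bdry_of_subset (hPc A hA) hx hd.2
        · exact hcc.2 _ (bdry_subset_VS hd.1) _ (bdry_subset_VS hd.2)
      obtain ⟨pr, h1, h2⟩ := pair_split (bdry ends) P _ _ hRE
      exact ⟨pr, fun ε hε => ⟨hj, h1 ε hε⟩, fun z => h2 z⟩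
    · refine ⟨fun _ => (v0, v0), fun ε hε => absurd rfl hε, ?_⟩
      intro z
      have h1 : dl (dem j) z = 0 := by
        have : dem j = ((dem j).1, (dem j).1) := by
          ext
          · rfl
          · exact (not_not.1 hj).symm
        rw [this, dl_self]
      rw [h1]
      exact sum_eq_zero (fun ε _ => dl_self _ _)
  choose pr hpr1 hpr2 using hsplit
  set dem' : Finset E → (ι ⊕ ({y // y ∈ BH} × V)) → V × V := fun ε =>
    Sum.elim (fun j => pr j ε) (fun q => if q.1.1 (ε, q.2) ≠ 0 then (r ε, q.2) else (q.2, q.2))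
    with hdem'
  set exd' : Finset E → κ → V × V := fun ε i =>
    if loc i ⊆ ε then exd i else ((exd i).1, (exd i).1) with hexd'
  have hexdNT : ∀ ε i, NT (exd' ε i) → loc i ⊆ ε ∧ NT (exd i) ∧ exd' ε i = exd i := by
    intro ε i hi
    simp only [hexd'] at hi ⊢
    split_ifs at hi ⊢ with h1
    · exact ⟨h1, hi, rfl⟩
    · exact absurd rfl hi
  have hfam : ∀ ε : Finset E, ∃ (B : Finset (E → ZMod 2))
      (rt : (ι ⊕ ({y // y ∈ BH} × V)) → E → ZMod 2) (rx : κ → E → ZMod 2), ε ∈ P →
      (Spans ends ε B ∧ (∀ j, supp (rt j) ⊆ ε ∧ ∀ x, bd ends (rt j) x = dl (dem' ε j) x) ∧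
      (∀ j, ¬ NT (dem' ε j) → rt j = 0) ∧
      (∀ i, NT (exd' ε i) → supp (rx i) ⊆ loc i ∧ ∀ x, bd ends (rx i) x = dl (exd' ε i) x) ∧
      (∀ i, ¬ NT (exd' ε i) → rx i = 0) ∧
      ∀ e ∈ ε, ply B e + (univ.filter (fun j => rt j e ≠ 0)).card +
        (univ.filter (fun i => rx i e ≠ 0)).card ≤ Λ) := by
    intro ε
    by_cases hε : ε ∈ P
    · have hcnt : (univ.filter (fun j => NT (dem' ε j))).card ≤ n + w * b := by
        rw [card_filter_sumType]
        apply add_le_add
        · refine le_trans (card_le_card ?_) hcount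
          intro j hj
          rw [mem_filter] at hj ⊢
          exact ⟨mem_univ _, (hpr1 j ε hj.2).1⟩
        · have hsub : ∀ q ∈ univ.filter (fun q : {y // y ∈ BH} × V => NT (dem' ε (Sum.inr q))),
              q.2 ∈ bdry ends ε := by
            intro q hq
            rw [mem_filter] at hq
            have h1 : NT (dem' ε (Sum.inr q)) := hq.2
            simp only [hdem', Sum.elim_inr] at h1
            split_ifs at h1 with h2
            · exact (mem_AH.1 (hBHA q.1.1 q.1.2 _ h2)).2.1
            · exact absurd rfl h1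
          refine le_trans (card_le_mul_card_image_of_maps_to (f := fun q => q.2)
            (t := bdry ends ε) hsub w ?_) ?_
          · intro v _
            refine le_trans ?_ ((hply (ε, v)).trans (by omega))
            unfold ply
            apply card_le_card_of_injOn (fun q => q.1.1)
            · intro q hq
              have hq' : q ∈ (univ.filter (fun q : {y // y ∈ BH} × V =>
                NT (dem' ε (Sum.inr q)))).filter (fun q => q.2 = v) := by simpa using hq
              rw [mem_filter, mem_filter] at hq'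
              obtain ⟨⟨_, h1⟩, h3⟩ := hq'
              simp only [hdem', Sum.elim_inr] at h1
              split_ifs at h1 with h2
              · rw [mem_coe, mem_filter]
                refine ⟨q.1.2, ?_⟩
                rw [← h3]
                exact h2
              · exact absurd rfl h1
            · intro q hq q' hq' heq
              have hq1 : q.2 = v := by
                have : q ∈ (univ.filter (fun q : {y // y ∈ BH} × V =>
                  NT (dem' ε (Sum.inr q)))).filter (fun q => q.2 = v) := by simpa using hq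
                exact (mem_filter.1 this).2
              have hq2 : q'.2 = v := by
                have : q' ∈ (univ.filter (fun q : {y // y ∈ BH} × V =>
                  NT (dem' ε (Sum.inr q)))).filter (fun q => q.2 = v) := by simpa using hq'
                exact (mem_filter.1 this).2
              exact Prod.ext (Subtype.ext heq) (by rw [hq1, hq2])
          · exact Nat.mul_le_mul_left _ (hb ε hε)
      obtain ⟨B, rt, rx, h1⟩ := h ε hε (ι ⊕ ({y // y ∈ BH} × V)) κ (dem' ε) loc (exd' ε) hcnt
        (by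
          rintro (j | q) hj
          · exact (hpr1 j ε hj).2.2
          · simp only [hdem', Sum.elim_inr] at hj ⊢
            split_ifs at hj ⊢ with h2
            · have h3 := (mem_AH.1 (hBHA q.1.1 q.1.2 _ h2)).2.1
              exact ⟨hr ε hε ⟨_, h3⟩, h3⟩
            · exact absurd rfl hj)
        (by
          intro f hf
          rw [mem_filter] at hf
          refine le_trans (card_le_card ?_) (hX f hf.1)
          intro i hi
          rw [mem_filter] at hi ⊢
          exact ⟨mem_univ _, hi.2.1, (hexdNT ε i hi.2.2).2.1⟩)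
        (by
          intro i hi
          obtain ⟨a1, a2, a3⟩ := hexdNT ε i hi
          rw [a3]
          have := hexd i a2
          exact ⟨mem_filter.2 ⟨this.1, a1⟩, this.2⟩)
      exact ⟨B, rt, rx, fun _ => h1⟩
    · exact ⟨∅, fun _ => 0, fun _ => 0, fun h1 => absurd h1 hε⟩
  choose Bf Rt Rx hall using hfam
  -- the combined data
  set lift : {y // y ∈ BH} → E → ZMod 2 := fun y => ∑ ε ∈ P, ∑ v, Rt ε (Sum.inr (y, v)) with hlift
  set B : Finset (E → ZMod 2) := P.biUnion Bf ∪ univ.image lift with hB
  set rt : ι → E → ZMod 2 := fun j => ∑ ε ∈ P, Rt ε (Sum.inl j) with hrt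
  set rx : κ → E → ZMod 2 := fun i => ∑ ε ∈ P, Rx ε i with hrx
  have hRxs : ∀ ε ∈ P, ∀ i, supp (Rx ε i) ⊆ ε := by
    intro ε hε i
    by_cases hi : NT (exd' ε i)
    · exact ((hall ε hε).2.2.2.1 i hi).1.trans (hexdNT ε i hi).1
    · rw [(hall ε hε).2.2.2.2.1 i hi, (supp_eq_empty_iff _).2 rfl]
      exact empty_subset _
  have hRts : ∀ ε ∈ P, ∀ j, supp (Rt ε j) ⊆ ε := fun ε hε j => ((hall ε hε).2.1 j).1
  have hspanB : ∀ ε ∈ P, ∀ y : E → ZMod 2, supp y ⊆ ε → (∀ x, bd ends y x = 0) →
      y ∈ Submodule.span (ZMod 2) (B : Set (E → ZMod 2)) := by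
    intro ε hε y hy hyb
    have h1 := (hall ε hε).1.2 y hy hyb
    refine Submodule.span_mono ?_ h1
    intro z hz
    rw [hB, coe_union]
    left
    exact mem_coe.2 (mem_biUnion.2 ⟨ε, hε, mem_coe.1 hz⟩)
  have hliftB : ∀ y, lift y ∈ Submodule.span (ZMod 2) (B : Set (E → ZMod 2)) := by
    intro y
    apply Submodule.subset_span
    rw [hB, coe_union]
    right
    exact mem_coe.2 (mem_image_of_mem lift (mem_univ y))
  have hyP : ∀ y : {y // y ∈ BH}, ∀ p, y.1 p ≠ 0 → p.1 ∈ P := fun y p hp =>
    (mem_AH.1 (hBHA y.1 y.2 p hp)).1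
  refine ⟨B, rt, rx, ⟨?_, ?_⟩, ?_, ?_, ?_, ?_, ?_⟩
  · -- members of `B`
    intro z hz
    rw [hB, mem_union, mem_biUnion, mem_image] at hz
    rcases hz with ⟨ε, hε, hz⟩ | ⟨y, _, rfl⟩
    · exact ⟨((hall ε hε).1.1 z hz).1.trans (hPc ε hε), ((hall ε hε).1.1 z hz).2⟩
    · constructor
      · apply supp_sum_subset
        intro ε hε
        apply supp_sum_subset
        intro v _
        exact (hRts ε hε _).trans (hPc ε hε)
      · intro x
        simp only [hlift]
        rw [bd_sum]
        have h1 : ∀ ε ∈ P, bd ends (∑ v, Rt ε (Sum.inr (y, v))) x =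
            ∑ v, y.1 (ε, v) * dl (r ε, v) x := by
          intro ε hε
          rw [bd_sum]
          apply sum_congr rfl
          intro v _
          rw [((hall ε hε).2.1 _).2 x]
          simp only [hdem', Sum.elim_inr]
          exact dl_virtual y.1 ε v x
        rw [sum_congr rfl h1, ← bd_endsH y.1 (hyP y) x]
        exact (hBH.1 y.1 y.2).2 x
  · -- spanning
    intro z hzc hzb
    have hρ : ∀ (ε : Finset E) (v : V), ∃ ρ : E → ZMod 2, (ε, v) ∈ AH ends r P →
        supp ρ ⊆ ε ∧ ∀ x, bd ends ρ x = dl (r ε, v) x := by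
      intro ε v
      by_cases hp : (ε, v) ∈ AH ends r P
      · obtain ⟨h1, h2, _⟩ := mem_AH.1 hp
        have h3 := hr ε h1 ⟨v, h2⟩
        obtain ⟨ρ, h4⟩ := exists_route ((hconn ε h1).2 _ (bdry_subset_VS h3) _
          (bdry_subset_VS h2))
        exact ⟨ρ, fun _ => h4⟩
      · exact ⟨0, fun h1 => absurd h1 hp⟩
    choose ρ hρ using hρ
    set yz : Finset E × V → ZMod 2 := fun p => if p ∈ AH ends r P then
      bd ends (rst p.1 z) p.2 else 0 with hyz
    have hyzP : ∀ p, yz p ≠ 0 → p ∈ AH ends r P := by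
      intro p hp
      simp only [hyz] at hp
      by_contra h1
      rw [if_neg h1] at hp
      exact hp rfl
    have hyzv : ∀ ε ∈ P, ∀ v, yz (ε, v) =
        (if v ∈ bdry ends ε ∧ v ≠ r ε then bd ends (rst ε z) v else 0) := by
      intro ε hε v
      simp only [hyz]
      by_cases hp : (ε, v) ∈ AH ends r P
      · rw [if_pos hp, if_pos (mem_AH.1 hp).2]
      · rw [if_neg hp, if_neg]
        intro h1
        exact hp (mem_AH.2 ⟨hε, h1⟩)
    have hzsum : ∑ ε ∈ P, rst ε z = z := by
      ext e
      by_cases he : e ∈ c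
      · obtain ⟨ε, hε, heε⟩ := hcov e he
        rw [sum_apply_piece hdisj (fun ε => rst ε z) (fun ε _ => supp_rst ε z) hε heε]
        unfold rst
        rw [if_pos heε]
      · have h1 : z e = 0 := by
          by_contra h2
          exact he (hzc ((mem_supp z e).2 h2))
        rw [Finset.sum_apply, h1]
        apply sum_eq_zero
        intro ε _
        unfold rst
        rw [h1, ite_self]
    have hyzb : ∀ x, bd (endsH r) yz x = 0 := by
      intro x
      rw [bd_endsH yz (fun p hp => (mem_AH.1 (hyzP p hp)).1) x]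
      have h1 : ∀ ε ∈ P, ∑ v, yz (ε, v) * dl (r ε, v) x = bd ends (rst ε z) x := by
        intro ε hε
        rw [← virtual_sum hzb ε x (r := r)]
        apply sum_congr rfl
        intro v _
        rw [hyzv ε hε v]
      rw [sum_congr rfl h1, ← bd_sum, hzsum]
      exact hzb x
    have hyzspan := hBH.2 yz (fun p hp => hyzP p ((mem_supp yz p).1 hp)) hyzb
    set L : (Finset E × V → ZMod 2) →ₗ[ZMod 2] (E → ZMod 2) :=
      ∑ ε ∈ P, ∑ v, (LinearMap.proj (R := ZMod 2) (φ := fun _ : Finset E × V => ZMod 2)
        (ε, v)).smulRight (ρ ε v) with hL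
    have hLapp : ∀ y, L y = ∑ ε ∈ P, ∑ v, y (ε, v) • ρ ε v := by
      intro y
      simp only [hL, LinearMap.sum_apply, LinearMap.smulRight_apply, LinearMap.proj_apply]
    have hρs : ∀ ε ∈ P, ∀ (y : Finset E × V → ZMod 2), (∀ p, y p ≠ 0 → p ∈ AH ends r P) → ∀ v,
        supp (y (ε, v) • ρ ε v) ⊆ ε ∧ ∀ x, bd ends (y (ε, v) • ρ ε v) x =
          y (ε, v) * dl (r ε, v) x := by
      intro ε hε y hy v
      by_cases h0 : y (ε, v) = 0
      · rw [h0, zero_smul]
        refine ⟨?_, fun x => by rw [bd_zero, zero_mul]⟩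
        rw [(supp_eq_empty_iff _).2 rfl]
        exact empty_subset _
      · have h1 := hρ ε v (hy _ h0)
        rw [(zmod2_cases _).resolve_left h0, one_smul]
        exact ⟨h1.1, fun x => by rw [h1.2 x, one_mul]⟩
    -- `L y` for members of `BH`
    have hLB : ∀ y ∈ BH, L y ∈ Submodule.span (ZMod 2) (B : Set (E → ZMod 2)) := by
      intro y hy
      have h1 : L y = lift ⟨y, hy⟩ - ∑ ε ∈ P, ∑ v, (Rt ε (Sum.inr (⟨y, hy⟩, v)) -
          y (ε, v) • ρ ε v) := by
        rw [hLapp]
        simp only [hlift]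
        rw [← sum_sub_distrib]
        apply sum_congr rfl
        intro ε _
        rw [sum_sub_distrib]
        abel
      rw [h1]
      apply Submodule.sub_mem _ (hliftB _)
      apply Submodule.sum_mem
      intro ε hε
      apply hspanB ε hε
      · apply supp_sum_subset
        intro v _
        intro e he
        by_contra hne
        rw [mem_supp] at he
        apply he
        have h2 : Rt ε (Sum.inr (⟨y, hy⟩, v)) e = 0 := by
          by_contra h3
          exact hne (hRts ε hε _ ((mem_supp _ _).2 h3))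
        have h3 : (y (ε, v) • ρ ε v) e = 0 := by
          by_contra h4
          exact hne ((hρs ε hε y (hBHA y hy) v).1 ((mem_supp _ _).2 h4))
        rw [Pi.sub_apply, h2, h3, sub_zero]
      · intro x
        rw [bd_sum]
        apply sum_eq_zero
        intro v _
        rw [bd_sub, ((hall ε hε).2.1 _).2 x, (hρs ε hε y (hBHA y hy) v).2 x]
        simp only [hdem', Sum.elim_inr]
        rw [dl_virtual y ε v x, sub_self]
    have hLspan : L yz ∈ Submodule.span (ZMod 2) (B : Set (E → ZMod 2)) := by
      have h1 : Submodule.span (ZMod 2) (BH : Set (Finset E × V → ZMod 2)) ≤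
          (Submodule.span (ZMod 2) (B : Set (E → ZMod 2))).comap L := by
        rw [Submodule.span_le]
        intro y hy
        exact hLB y (mem_coe.1 hy)
      exact h1 hyzspan
    have h2 : z = L yz + ∑ ε ∈ P, (rst ε z - ∑ v, yz (ε, v) • ρ ε v) := by
      rw [sum_sub_distrib, hzsum, hLapp]
      abel
    rw [h2]
    apply Submodule.add_mem _ hLspan
    apply Submodule.sum_mem
    intro ε hε
    apply hspanB ε hε
    · intro e he
      by_contra hne
      rw [mem_supp] at he
      apply he
      have h3 : rst ε z e = 0 := by unfold rst; rw [if_neg hne]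
      have h4 : (∑ v, yz (ε, v) • ρ ε v) e = 0 := by
        by_contra h5
        have h6 := supp_sum_subset univ (fun v => yz (ε, v) • ρ ε v) ε
          (fun v _ => (hρs ε hε yz hyzP v).1)
        exact hne (h6 ((mem_supp _ _).2 h5))
      rw [Pi.sub_apply, h3, h4, sub_zero]
    · intro x
      rw [bd_sub, bd_sum]
      have h3 : ∑ v, bd ends (yz (ε, v) • ρ ε v) x = bd ends (rst ε z) x := by
        rw [← virtual_sum hzb ε x (r := r)]
        apply sum_congr rfl
        intro v _
        rw [(hρs ε hε yz hyzP v).2 x, hyzv ε hε v]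
      rw [h3, sub_self]
  · -- routes of the demands
    intro j
    constructor
    · apply supp_sum_subset
      intro ε hε
      exact (hRts ε hε _).trans (hPc ε hε)
    · intro x
      simp only [hrt]
      rw [bd_sum, ← hpr2 j x]
      apply sum_congr rfl
      intro ε hε
      rw [((hall ε hε).2.1 _).2 x]
      rfl
  · intro j hj
    simp only [hrt]
    apply sum_eq_zero
    intro ε hε
    apply (hall ε hε).2.2.1
    intro h1
    exact hj (hpr1 j ε h1).1
  · -- routes of the extra demands
    intro i hi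
    have hloc := hexd i hi
    obtain ⟨⟨e1, he1⟩, ε0, hε0, hsub⟩ := hF (loc i) hloc.1
    have h1 : rx i = Rx ε0 i := by
      simp only [hrx]
      apply sum_eq_single ε0
      · intro ε hε hne
        apply (hall ε hε).2.2.2.2.1
        intro h2
        have h3 := (hexdNT ε i h2).1
        exact (Finset.disjoint_left.1 (hdisj ε hε ε0 hε0 hne)) (h3 he1) (hsub he1)
      · intro h2; exact absurd hε0 h2
    have h2 : exd' ε0 i = exd i := by
      simp only [hexd']
      rw [if_pos hsub]
    have h3 := (hall ε0 hε0).2.2.2.1 i (by rw [h2]; exact hi)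
    rw [h1]
    rw [h2] at h3
    exact h3
  · intro i hi
    simp only [hrx]
    apply sum_eq_zero
    intro ε hε
    apply (hall ε hε).2.2.2.2.1
    intro h1
    exact hi (hexdNT ε i h1).2.1
  · -- loads
    intro e he
    obtain ⟨ε, hε, heε⟩ := hcov e he
    have h1 := (hall ε hε).2.2.2.2.2 e heε
    have hrxe : ∀ i, rx i e = Rx ε i e := fun i =>
      sum_apply_piece hdisj (fun ε => Rx ε i) (fun ε hε => hRxs ε hε i) hε heε
    have hrte : ∀ j, rt j e = Rt ε (Sum.inl j) e := fun j =>
      sum_apply_piece hdisj (fun ε => Rt ε (Sum.inl j)) (fun ε hε => hRts ε hε _) hε heε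
    have hlifte : ∀ y, lift y e = ∑ v, Rt ε (Sum.inr (y, v)) e := by
      intro y
      have h2 := sum_apply_piece hdisj (fun ε => ∑ v, Rt ε (Sum.inr (y, v)))
        (fun ε hε => supp_sum_subset _ _ _ (fun v _ => hRts ε hε _)) hε heε
      simp only [hlift]
      rw [h2, Finset.sum_apply]
    have hplyB : ply B e ≤ ply (Bf ε) e +
        (univ.filter (fun q : {y // y ∈ BH} × V => Rt ε (Sum.inr q) e ≠ 0)).card := by
      refine (ply_union_le _ _ e).trans (add_le_add ?_ ?_)
      · unfold ply
        apply card_le_card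
        intro z hz
        rw [mem_filter, mem_biUnion] at hz
        obtain ⟨⟨ε', hε', hz⟩, hze⟩ := hz
        rw [mem_filter]
        refine ⟨?_, hze⟩
        by_cases hee : ε' = ε
        · rw [← hee]; exact hz
        · exfalso
          have h3 := ((hall ε' hε').1.1 z hz).1 ((mem_supp z e).2 hze)
          exact (Finset.disjoint_left.1 (hdisj ε' hε' ε hε hee)) h3 heε
      · unfold ply
        have h3 : (univ.image lift).filter (fun z => z e ≠ 0) ⊆
            ((univ.filter (fun q : {y // y ∈ BH} × V => Rt ε (Sum.inr q) e ≠ 0)).image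
              (fun q => lift q.1)) := by
          intro z hz
          rw [mem_filter, mem_image] at hz
          obtain ⟨⟨y, _, rfl⟩, hze⟩ := hz
          rw [hlifte y] at hze
          obtain ⟨v, _, hv⟩ := exists_ne_zero_of_sum_ne_zero hze
          rw [mem_image]
          exact ⟨(y, v), mem_filter.2 ⟨mem_univ _, hv⟩, rfl⟩
        exact (card_le_card h3).trans card_image_le
    rw [card_filter_sumType] at h1
    have h4 : (univ.filter (fun j => rt j e ≠ 0)).card =
        (univ.filter (fun j => Rt ε (Sum.inl j) e ≠ 0)).card := by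
      simp_rw [hrte]
    have h5 : (univ.filter (fun i => rx i e ≠ 0)).card =
        (univ.filter (fun i => Rx ε i e ≠ 0)).card := by
      simp_rw [hrxe]
    omega

end BNTW
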