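import Pool.Agent.Helper18.KC.REF2

/-!
The sequence of refinements of a piece along a list of pairs.
-/

namespace BNTW

open Finset

universe u

variable {V E : Type u} [Fintype E] [Fintype V] [DecidableEq V] [DecidableEq E]

omit [Fintype V] in
lemma mem_Uxy {ends : E → V × V} {L : Finset (Finset E)} {t : Finset E} {x y : V} {D : Finset E} :
    D ∈ Uxy ends L t x y ↔ D ∈ L ∧ D ⊆ t ∧ ¬ Cn ends (t \ D) x y := by
  classical
  unfold Uxy
  rw [mem_filter]

omit [Fintype V] in
lemma mem_Elt {ends : E → V × V} {L : Finset (Finset E)} {t : Finset E} {x y : V} {c : Finset E} :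
    c ∈ Elt ends L t x y ↔ c ∈ L ∧ c ⊆ t ∧ (∀ D ∈ L, c ⊂ D → D ⊆ t → D ∈ Uxy ends L t x y) ∧
      (c ∉ Uxy ends L t x y ∨ c.card = 1) := by
  classical
  unfold Elt
  rw [mem_filter]

omit [Fintype V] in
lemma Uxy_up {ends : E → V × V} {L : Finset (Finset E)} {t : Finset E} {x y : V} {D D' : Finset E}
    (hD : D ∈ Uxy ends L t x y) (hD' : D' ∈ L) (h : D ⊆ D') (h't : D' ⊆ t) :
    D' ∈ Uxy ends L t x y := by
  rw [mem_Uxy] at hD ⊢
  exact ⟨hD', h't, fun hc => hD.2.2 (hc.mono (sdiff_subset_sdiff (Subset.refl t) h))⟩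

omit [Fintype V] in
lemma Elt_disj {ends : E → V × V} {b : ℕ} {L : Finset (Finset E)} (hL : Lam ends b L)
    {t : Finset E} {x y : V} : ∀ A ∈ Elt ends L t x y, ∀ B ∈ Elt ends L t x y, A ≠ B →
      Disjoint A B := by
  intro A hA B hB hne
  have hA' := mem_Elt.1 hA
  have hB' := mem_Elt.1 hB
  have aux : ∀ A ∈ Elt ends L t x y, ∀ B ∈ Elt ends L t x y, A ⊂ B → False := by
    intro A hA B hB h
    have hA' := mem_Elt.1 hA
    have hB' := mem_Elt.1 hB
    have h1 := hA'.2.2.1 B hB'.1 h hB'.2.1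
    have h2 : B.card = 1 := hB'.2.2.2.resolve_left (fun h3 => h3 h1)
    have h3 := card_lt_card h
    have h4 : 0 < A.card := card_pos.2 (hL.conn A hA'.1).1
    omega
  rcases hL.lam A hA'.1 B hB'.1 with h | h | h
  · exact absurd (Finset.ssubset_iff_subset_ne.2 ⟨h, hne⟩) (fun h' => aux A hA B hB h')
  · exact absurd (Finset.ssubset_iff_subset_ne.2 ⟨h, fun h' => hne h'.symm⟩)
      (fun h' => aux B hB A hA h')
  · exact h

omit [Fintype V] in
/-- The pieces inside a member of `Uxy` cover it. -/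
lemma Elt_cover {ends : E → V × V} {b : ℕ} {L : Finset (Finset E)} (hL : Lam ends b L)
    {t : Finset E} {x y : V} {c : Finset E} (hc : c ∈ Uxy ends L t x y) :
    ∀ e ∈ c, ∃ ε ∈ (Elt ends L t x y).filter (fun ε => ε ⊆ c), e ∈ ε := by
  classical
  intro e he
  have hcU := mem_Uxy.1 hc
  have het : {e} ⊆ t := singleton_subset_iff.2 (hcU.2.1 he)
  by_cases hs : {e} ∈ Uxy ends L t x y
  · refine ⟨{e}, mem_filter.2 ⟨mem_Elt.2 ⟨hL.single e, het, ?_, Or.inr (card_singleton e)⟩,
      singleton_subset_iff.2 he⟩, mem_singleton_self e⟩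
    intro D hD hsub hDt
    exact Uxy_up hs hD hsub.subset hDt
  · set Z : Finset (Finset E) := L.filter (fun D => e ∈ D ∧ D ⊆ t ∧ D ∉ Uxy ends L t x y) with hZ
    have hZne : Z.Nonempty := ⟨{e}, by
      rw [hZ, mem_filter]; exact ⟨hL.single e, mem_singleton_self e, het, hs⟩⟩
    obtain ⟨ε, hε, hmax⟩ := exists_max_image Z Finset.card hZne
    rw [hZ, mem_filter] at hε
    obtain ⟨hεL, heε, hεt, hεU⟩ := hε
    refine ⟨ε, mem_filter.2 ⟨mem_Elt.2 ⟨hεL, hεt, ?_, Or.inl hεU⟩, ?_⟩, heε⟩
    · intro D hD hsub hDt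
      by_contra hDU
      have h1 := hmax D (by rw [hZ, mem_filter]; exact ⟨hD, hsub.subset heε, hDt, hDU⟩)
      have h2 := card_lt_card hsub
      omega
    · rcases hL.lam ε hεL c hcU.1 with h | h | h
      · exact h
      · exact absurd (Uxy_up hc hεL h hεt) hεU
      · exact absurd he (Finset.disjoint_left.1 h heε)

/-- The final pieces along a list of pairs. -/
noncomputable def Fin' (ends : E → V × V) (L : Finset (Finset E)) (t : Finset E) :
    List (V × V) → Finset E → Finset (Finset E)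
  | [], c => {c}
  | q :: ps, c => by
    classical
    exact if c ∈ Uxy ends L t q.1 q.2 ∧ 1 < c.card then
      ((Elt ends L t q.1 q.2).filter (fun ε => ε ⊆ c)).biUnion (Fin' ends L t ps)
    else Fin' ends L t ps c

omit [Fintype V] in
lemma Fin'_nil {ends : E → V × V} {L : Finset (Finset E)} {t c : Finset E} :
    Fin' ends L t [] c = {c} := rfl

omit [Fintype V] in
lemma Fin'_pos {ends : E → V × V} {L : Finset (Finset E)} {t : Finset E} {q : V × V}
    {ps : List (V × V)} {c : Finset E} (h : c ∈ Uxy ends L t q.1 q.2 ∧ 1 < c.card) :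
    Fin' ends L t (q :: ps) c =
      ((Elt ends L t q.1 q.2).filter (fun ε => ε ⊆ c)).biUnion (Fin' ends L t ps) := by
  classical
  have : Fin' ends L t (q :: ps) c = if c ∈ Uxy ends L t q.1 q.2 ∧ 1 < c.card then
      ((Elt ends L t q.1 q.2).filter (fun ε => ε ⊆ c)).biUnion (Fin' ends L t ps)
    else Fin' ends L t ps c := by
    conv_lhs => unfold Fin'
  rw [this, if_pos h]

omit [Fintype V] in
lemma Fin'_neg {ends : E → V × V} {L : Finset (Finset E)} {t : Finset E} {q : V × V}
    {ps : List (V × V)} {c : Finset E} (h : ¬ (c ∈ Uxy ends L t q.1 q.2 ∧ 1 < c.card)) :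
    Fin' ends L t (q :: ps) c = Fin' ends L t ps c := by
  classical
  have : Fin' ends L t (q :: ps) c = if c ∈ Uxy ends L t q.1 q.2 ∧ 1 < c.card then
      ((Elt ends L t q.1 q.2).filter (fun ε => ε ⊆ c)).biUnion (Fin' ends L t ps)
    else Fin' ends L t ps c := by
    conv_lhs => unfold Fin'
  rw [this, if_neg h]

omit [Fintype V] in
lemma Fin'_props {ends : E → V × V} {b : ℕ} {L : Finset (Finset E)} (hL : Lam ends b L)
    {t : Finset E} : ∀ (ps : List (V × V)) (c : Finset E), c ∈ L → c ⊆ t →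
      (∀ f ∈ Fin' ends L t ps c, f ∈ L ∧ f ⊆ c ∧
        ∀ q ∈ ps, f ∉ Uxy ends L t q.1 q.2 ∨ f.card ≤ 1) ∧
      (∀ e ∈ c, ∃ f ∈ Fin' ends L t ps c, e ∈ f) ∧
      (∀ A ∈ Fin' ends L t ps c, ∀ B ∈ Fin' ends L t ps c, A ≠ B → Disjoint A B) := by
  classical
  intro ps
  induction ps with
  | nil =>
    intro c hc _
    rw [Fin'_nil]
    refine ⟨?_, ?_, ?_⟩
    · intro f hf
      rw [mem_singleton] at hf
      subst hf
      exact ⟨hc, Subset.refl _, by simp⟩
    · intro e he
      exact ⟨c, mem_singleton_self c, he⟩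
    · intro A hA B hB hne
      rw [mem_singleton] at hA hB
      exact absurd (hA.trans hB.symm) hne
  | cons q ps ih =>
    intro c hc hct
    by_cases h : c ∈ Uxy ends L t q.1 q.2 ∧ 1 < c.card
    · rw [Fin'_pos h]
      have hε : ∀ ε ∈ (Elt ends L t q.1 q.2).filter (fun ε => ε ⊆ c), ε ∈ L ∧ ε ⊆ c ∧ ε ⊆ t ∧
          (ε ∉ Uxy ends L t q.1 q.2 ∨ ε.card = 1) := by
        intro ε hε
        rw [mem_filter] at hε
        have h1 := mem_Elt.1 hε.1
        exact ⟨h1.1, hε.2, h1.2.1, h1.2.2.2⟩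
      refine ⟨?_, ?_, ?_⟩
      · intro f hf
        rw [mem_biUnion] at hf
        obtain ⟨ε, hε', hf⟩ := hf
        obtain ⟨h1, h2, h3, h4⟩ := hε ε hε'
        obtain ⟨a1, a2, a3⟩ := (ih ε h1 h3).1 f hf
        refine ⟨a1, a2.trans h2, ?_⟩
        intro q' hq'
        rw [List.mem_cons] at hq'
        rcases hq' with rfl | hq'
        · rcases h4 with h4 | h4
          · left
            intro h5
            exact h4 (Uxy_up h5 h1 a2 h3)
          · right
            have := card_le_card a2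
            omega
        · exact a3 q' hq'
      · intro e he
        obtain ⟨ε, hε', heε⟩ := Elt_cover hL h.1 e he
        obtain ⟨h1, h2, h3, h4⟩ := hε ε hε'
        obtain ⟨f, hf, hef⟩ := (ih ε h1 h3).2.1 e heε
        exact ⟨f, mem_biUnion.2 ⟨ε, hε', hf⟩, hef⟩
      · intro A hA B hB hne
        rw [mem_biUnion] at hA hB
        obtain ⟨ε, hε1, hA⟩ := hA
        obtain ⟨ε', hε2, hB⟩ := hB
        obtain ⟨h1, h2, h3, h4⟩ := hε ε hε1
        obtain ⟨h1', h2', h3', h4'⟩ := hε ε' hε2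
        by_cases hee : ε = ε'
        · subst hee
          exact (ih ε h1 h3).2.2 A hA B hB hne
        · have hd := Elt_disj hL ε (mem_filter.1 hε1).1 ε' (mem_filter.1 hε2).1 hee
          exact disjoint_of_subset_left ((ih ε h1 h3).1 A hA).2.1
            (disjoint_of_subset_right ((ih ε' h1' h3').1 B hB).2.1 hd)
    · rw [Fin'_neg h]
      obtain ⟨h1, h2, h3⟩ := ih c hc hct
      refine ⟨?_, h2, h3⟩
      intro f hf
      obtain ⟨a1, a2, a3⟩ := h1 f hf
      refine ⟨a1, a2, ?_⟩
      intro q' hq'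
      rw [List.mem_cons] at hq'
      rcases hq' with rfl | hq'
      · rw [not_and_or] at h
        rcases h with h | h
        · left
          intro h5
          exact h (Uxy_up h5 hc a2 hct)
        · right
          have := card_le_card a2
          omega
      · exact a3 q' hq'

end BNTW
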