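import Pool.Agent.Helper18.KC.REC

/-!
Routing the demands of a piece through the final pieces, and the main induction.
-/

namespace BNTW

open Finset

universe u

variable {V E : Type u} [Fintype E] [Fintype V] [DecidableEq V] [DecidableEq E]

omit [Fintype E] [Fintype V] [DecidableEq E] in
lemma dl_trivial {pr : V × V} (h : ¬ NT pr) (x : V) : dl pr x = 0 := by
  have : pr = (pr.1, pr.1) := by
    ext
    · rfl
    · exact (not_not.1 h).symm
  rw [this, dl_self]

/-- Splitting each class of demands into two halves. -/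
lemma exists_side {ι α : Type*} [Fintype ι] [DecidableEq α] (dem : ι → α) :
    ∃ side : ι → Bool, ∀ (q : α) (s : Bool),
      2 * (univ.filter (fun j => dem j = q ∧ side j = s)).card ≤
        (univ.filter (fun j => dem j = q)).card + 1 := by
  classical
  have hH : ∀ q : α, ∃ H ⊆ univ.filter (fun j => dem j = q),
      H.card = (univ.filter (fun j => dem j = q)).card / 2 := fun q =>
    exists_subset_card_eq (Nat.div_le_self _ _)
  choose H hH1 hH2 using hH
  refine ⟨fun j => decide (j ∈ H (dem j)), ?_⟩
  intro q s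
  cases s with
  | true =>
    have h1 : univ.filter (fun j => dem j = q ∧ decide (j ∈ H (dem j)) = true) ⊆ H q := by
      intro j hj
      rw [mem_filter] at hj
      have := of_decide_eq_true hj.2.2
      rw [hj.2.1] at this
      exact this
    have h2 := card_le_card h1
    rw [hH2 q] at h2
    beta_reduce
    omega
  | false =>
    have h1 : univ.filter (fun j => dem j = q ∧ decide (j ∈ H (dem j)) = false) ⊆
        univ.filter (fun j => dem j = q) \ H q := by
      intro j hj
      rw [mem_filter] at hj
      rw [mem_sdiff, mem_filter]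
      refine ⟨⟨mem_univ _, hj.2.1⟩, ?_⟩
      have := of_decide_eq_false hj.2.2
      rw [hj.2.1] at this
      exact this
    have h2 := card_le_card h1
    rw [card_sdiff_of_subset (hH1 q), hH2 q] at h2
    beta_reduce
    omega

/-- **Routing the demands of a piece.** -/
theorem rx_top {ends : E → V × V} {b Λ N0 : ℕ} {t : Finset E} (htc : IsCn ends t)
    (htb : (bdry ends t).card ≤ b) (hM : TwoRoutes (bdry ends)) (P : Finset (Finset E))
    (hPt : ∀ f ∈ P, f ⊆ t) (hcov : ∀ e ∈ t, ∃ f ∈ P, e ∈ f)
    (hdisj : ∀ A ∈ P, ∀ B ∈ P, A ≠ B → Disjoint A B)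
    (havoid : ∀ f ∈ P, 1 < f.card → ∀ x ∈ bdry ends t, ∀ y ∈ bdry ends t, Cn ends (t \ f) x y)
    (h : RX ends Λ t 0 P (fun f => if 1 < f.card then (N0 + b * b) / 2 else N0)) :
    RX ends Λ t N0 ∅ (fun _ => 0) := by
  classical
  intro ι κ _ _ dem loc exd hcount hdem _ hexd
  have hex : ∀ i, ¬ NT (exd i) := fun i hi => absurd (hexd i hi).1 (notMem_empty _)
  have hPR : ∀ q : V × V, ∃ PR : Bool → Finset E → V × V,
      (∀ s f, NT (PR s f) → NT q ∧ q.1 ∈ bdry ends t ∧ q.2 ∈ bdry ends t ∧ f ∈ P ∧
        (PR s f).1 ∈ bdry ends f ∧ (PR s f).2 ∈ bdry ends f) ∧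
      (NT q → q.1 ∈ bdry ends t → q.2 ∈ bdry ends t → ∀ s z, ∑ f ∈ P, dl (PR s f) z = dl q z) ∧
      ∀ f, 1 < f.card → ¬ (NT (PR true f) ∧ NT (PR false f)) := by
    intro q
    by_cases hq : NT q ∧ q.1 ∈ bdry ends t ∧ q.2 ∈ bdry ends t
    · obtain ⟨hq1, hq2, hq3⟩ := hq
      obtain ⟨Y1, hY1, Y2, hY2, hR1, hR2, hcap⟩ := hM P (fun f => 1 < f.card) q.1 q.2
        (RE_of_Cn hcov hdisj
          (fun A hA hx => mem_bdry_of_subset (hPt A hA) hx hq2)
          (fun A hA hx => mem_bdry_of_subset (hPt A hA) hx hq3)
          (htc.2 _ (bdry_subset_VS hq2) _ (bdry_subset_VS hq3)))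
        (by
          intro f hf hfc
          apply RE_of_Cn (X := t \ f)
          · intro e he
            rw [mem_sdiff] at he
            obtain ⟨f', hf', hef'⟩ := hcov e he.1
            refine ⟨f', mem_erase.2 ⟨?_, hf'⟩, hef'⟩
            rintro rfl
            exact he.2 hef'
          · intro A hA B hB hne
            exact hdisj A (mem_erase.1 hA).2 B (mem_erase.1 hB).2 hne
          · intro A hA hx
            exact mem_bdry_of_subset (hPt A (mem_erase.1 hA).2) hx hq2
          · intro A hA hx
            exact mem_bdry_of_subset (hPt A (mem_erase.1 hA).2) hx hq3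
          · exact havoid f hf hfc _ hq2 _ hq3)
      obtain ⟨p1, a1, a2⟩ := pair_split (bdry ends) Y1 _ _ hR1
      obtain ⟨p2, b1, b2⟩ := pair_split (bdry ends) Y2 _ _ hR2
      have hsumP : ∀ (Y : Finset (Finset E)) (pp : Finset E → V × V), Y ⊆ P →
          (∀ i, (pp i).1 ≠ (pp i).2 → i ∈ Y ∧ (pp i).1 ∈ bdry ends i ∧ (pp i).2 ∈ bdry ends i) →
          (∀ z, ∑ i ∈ Y, (((if (pp i).1 = z then (1 : ZMod 2) else 0) +
            (if (pp i).2 = z then 1 else 0))) =
            (if q.1 = z then 1 else 0) + (if q.2 = z then 1 else 0)) →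
          ∀ z, ∑ f ∈ P, dl (pp f) z = dl q z := by
        intro Y pp hY c1 c2 z
        rw [← sum_subset hY]
        · exact c2 z
        · intro f _ hfY
          apply dl_trivial
          intro hNT
          exact hfY (c1 f hNT).1
      refine ⟨fun s => if s then p1 else p2, ?_, ?_, ?_⟩
      · intro s f hs
        cases s with
        | true =>
          simp only [if_true] at hs ⊢
          obtain ⟨c1, c2, c3⟩ := a1 f hs
          exact ⟨hq1, hq2, hq3, hY1 c1, c2, c3⟩
        | false =>
          simp only [Bool.false_eq_true, if_false] at hs ⊢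
          obtain ⟨c1, c2, c3⟩ := b1 f hs
          exact ⟨hq1, hq2, hq3, hY2 c1, c2, c3⟩
      · intro _ _ _ s z
        cases s with
        | true =>
          simp only [if_true]
          exact hsumP Y1 p1 hY1 a1 a2 z
        | false =>
          simp only [Bool.false_eq_true, if_false]
          exact hsumP Y2 p2 hY2 b1 b2 z
      · rintro f hf ⟨c1, c2⟩
        simp only [if_true] at c1
        simp only [Bool.false_eq_true, if_false] at c2
        exact hcap f (a1 f c1).1 (b1 f c2).1 hf
    · refine ⟨fun _ _ => (q.1, q.1), fun s f hs => absurd rfl hs, ?_,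
        fun f _ hs => absurd rfl hs.1⟩
      intro c1 c2 c3
      exact absurd ⟨c1, c2, c3⟩ hq
  choose PR hPR1 hPR2 hPR3 using hPR
  obtain ⟨side, hside⟩ := exists_side dem
  have hcnt : ∀ f ∈ P, (univ.filter (fun q : ι × Finset E => q.2 = f ∧
      NT (PR (dem q.1) (side q.1) q.2))).card ≤ (if 1 < f.card then (N0 + b * b) / 2 else N0) := by
    intro f _
    set S := univ.filter (fun j : ι => NT (PR (dem j) (side j) f)) with hS
    have h1 : (univ.filter (fun q : ι × Finset E => q.2 = f ∧
        NT (PR (dem q.1) (side q.1) q.2))).card ≤ S.card := by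
      apply card_le_card_of_injOn (fun q => q.1)
      · intro q hq
        have hq' : q.2 = f ∧ NT (PR (dem q.1) (side q.1) q.2) := by simpa using hq
        rw [mem_coe, hS, mem_filter]
        refine ⟨mem_univ _, ?_⟩
        rw [← hq'.1]
        exact hq'.2
      · intro q hq q' hq' heq
        have h2 : q.2 = f ∧ NT (PR (dem q.1) (side q.1) q.2) := by simpa using hq
        have h3 : q'.2 = f ∧ NT (PR (dem q'.1) (side q'.1) q'.2) := by simpa using hq'
        exact Prod.ext heq (h2.1.trans h3.1.symm)
    refine h1.trans ?_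
    split_ifs with hf
    · have hmaps : ∀ j ∈ S, dem j ∈ bdry ends t ×ˢ bdry ends t := by
        intro j hj
        rw [hS, mem_filter] at hj
        have := hPR1 (dem j) (side j) f hj.2
        exact mem_product.2 ⟨this.2.1, this.2.2.1⟩
      have hfib : ∀ q ∈ bdry ends t ×ˢ bdry ends t, 2 * (S.filter (fun j => dem j = q)).card ≤
          ((univ.filter (fun j => NT (dem j))).filter (fun j => dem j = q)).card + 1 := by
        intro q _
        rcases (S.filter (fun j => dem j = q)).eq_empty_or_nonempty with h0 | ⟨j0, hj0⟩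
        · rw [h0]; simp
        · rw [mem_filter, hS, mem_filter] at hj0
          have hj0' : NT (PR q (side j0) f) := by rw [← hj0.2]; exact hj0.1.2
          have hNTq : NT q := (hPR1 q _ f hj0').1
          have hsub : S.filter (fun j => dem j = q) ⊆
              univ.filter (fun j => dem j = q ∧ side j = side j0) := by
            intro j hj
            rw [mem_filter, hS, mem_filter] at hj
            have hj' : NT (PR q (side j) f) := by rw [← hj.2]; exact hj.1.2
            rw [mem_filter]
            refine ⟨mem_univ _, hj.2, ?_⟩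
            by_contra hne
            rcases Bool.eq_false_or_eq_true (side j) with h5 | h5 <;>
              rcases Bool.eq_false_or_eq_true (side j0) with h6 | h6
            · exact hne (h5.trans h6.symm)
            · rw [h5] at hj'
              rw [h6] at hj0'
              exact hPR3 q f hf ⟨hj', hj0'⟩
            · rw [h5] at hj'
              rw [h6] at hj0'
              exact hPR3 q f hf ⟨hj0', hj'⟩
            · exact hne (h5.trans h6.symm)
          have h7 := card_le_card hsub
          have h8 := hside q (side j0)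
          have h9 : (univ.filter (fun j => dem j = q)).card ≤
              ((univ.filter (fun j => NT (dem j))).filter (fun j => dem j = q)).card := by
            apply card_le_card
            intro j hj
            rw [mem_filter] at hj
            rw [mem_filter, mem_filter]
            exact ⟨⟨mem_univ _, by rw [hj.2]; exact hNTq⟩, hj.2⟩
          omega
      have hS2 : 2 * S.card ≤ N0 + b * b := by
        rw [card_eq_sum_card_fiberwise (f := dem) (s := S) (t := bdry ends t ×ˢ bdry ends t)
          (fun j hj => hmaps j (by simpa using hj)), mul_sum]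
        refine (sum_le_sum hfib).trans ?_
        rw [sum_add_distrib]
        apply add_le_add
        · refine le_trans ?_ hcount
          refine le_trans (le_of_eq (card_eq_sum_card_fiberwise (f := dem)
            (s := (univ.filter (fun j => NT (dem j)))) (t := bdry ends t ×ˢ bdry ends t)
            ?_).symm) le_rfl
          intro j hj
          have hj' : NT (dem j) := by simpa using hj
          have := hdem j hj'
          exact mem_coe.2 (mem_product.2 ⟨this.1, this.2⟩)
        · rw [sum_const, smul_eq_mul, mul_one, card_product]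
          exact Nat.mul_le_mul htb htb
      omega
    · refine (card_le_card ?_).trans hcount
      intro j hj
      rw [hS, mem_filter] at hj
      rw [mem_filter]
      exact ⟨mem_univ _, (hPR1 (dem j) (side j) f hj.2).1⟩
  obtain ⟨B, rt0, rx, a1, a2, a3, a4, a5, a6⟩ := h PEmpty (ι × Finset E) (fun x => x.elim)
    (fun q => q.2) (fun q => PR (dem q.1) (side q.1) q.2) (by simp) (fun x => x.elim) hcnt
    (by
      intro q hq
      have := hPR1 (dem q.1) (side q.1) q.2 hq
      exact this.2.2.2)
  set rt : ι → E → ZMod 2 := fun j => ∑ f ∈ P, rx (j, f) with hrt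
  have hrx : ∀ j, ∀ f ∈ P, supp (rx (j, f)) ⊆ t ∧ ∀ x, bd ends (rx (j, f)) x =
      dl (PR (dem j) (side j) f) x := by
    intro j f hf
    by_cases hNT : NT (PR (dem j) (side j) f)
    · have := a4 (j, f) hNT
      exact ⟨this.1.trans (hPt f hf), this.2⟩
    · have h0 := a5 (j, f) hNT
      rw [h0]
      refine ⟨?_, fun x => by rw [bd_zero, dl_trivial hNT]⟩
      rw [(supp_eq_empty_iff _).2 rfl]
      exact empty_subset _
  refine ⟨B, rt, fun _ => 0, a1, ?_, ?_, fun i hi => absurd hi (hex i), fun _ _ => rfl, ?_⟩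
  · intro j
    refine ⟨supp_sum_subset _ _ _ (fun f hf => (hrx j f hf).1), ?_⟩
    intro x
    simp only [hrt]
    rw [bd_sum, sum_congr rfl (fun f hf => (hrx j f hf).2 x)]
    by_cases hNT : NT (dem j)
    · exact hPR2 (dem j) hNT (hdem j hNT).1 (hdem j hNT).2 (side j) x
    · rw [dl_trivial hNT]
      apply sum_eq_zero
      intro f _
      apply dl_trivial
      intro h5
      exact hNT (hPR1 _ _ _ h5).1
  · intro j hj
    simp only [hrt]
    apply sum_eq_zero
    intro f _
    apply a5
    intro h5
    exact hj (hPR1 _ _ _ h5).1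
  · intro e he
    have h6 := a6 e he
    have h7 : (univ.filter (fun j => rt j e ≠ 0)).card ≤
        (univ.filter (fun q => rx q e ≠ 0)).card := by
      have h8 : univ.filter (fun j => rt j e ≠ 0) ⊆
          (univ.filter (fun q => rx q e ≠ 0)).image (fun q => q.1) := by
        intro j hj
        rw [mem_filter] at hj
        have h9 := hj.2
        simp only [hrt] at h9
        rw [Finset.sum_apply] at h9
        obtain ⟨f, _, hf⟩ := exists_ne_zero_of_sum_ne_zero h9
        rw [mem_image]
        exact ⟨(j, f), mem_filter.2 ⟨mem_univ _, hf⟩, rfl⟩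
      exact (card_le_card h8).trans card_image_le
    have h10 : (univ.filter (fun _ : κ => ((0 : E → ZMod 2) e ≠ 0))).card = 0 := by simp
    beta_reduce
    rw [h10]
    omega

/-- **The main induction.** -/
theorem main_rec {ends : E → V × V} {b : ℕ} {L : Finset (Finset E)} (hL : Lam ends b L)
    (hb : 1 ≤ b) (hO : OrdProp ends b L) (hM : TwoRoutes (bdry ends))
    (hloop : ∀ e, (ends e).1 ≠ (ends e).2) :
    ∀ (m : ℕ) (t : Finset E), t.card = m → t ∈ L →
      RX ends (9 * b * b * b + b * b) t (6 * b * b * b + b * b) ∅ (fun _ => 0) := by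
  classical
  intro m
  induction m using Nat.strong_induction_on with
  | _ m ih =>
  intro t htm ht
  have htpos : 0 < t.card := card_pos.2 (hL.conn t ht).1
  have hcube : 6 * b * b * b + b * b ≤ 9 * b * b * b + b * b := by nlinarith [Nat.zero_le (b*b*b)]
  by_cases ht1 : 1 < t.card
  · -- the star of pairs
    have hps : ∃ ps : List (V × V), ps.length + 1 ≤ b ∧
        (∀ q ∈ ps, q.1 ≠ q.2 ∧ q.1 ∈ VS ends t ∧ q.2 ∈ VS ends t) ∧
        ∃ x0 : V, ∀ x ∈ bdry ends t, x = x0 ∨ (x0, x) ∈ ps := by
      rcases (bdry ends t).eq_empty_or_nonempty with h0 | ⟨x0, hx0⟩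
      · obtain ⟨e0, he0⟩ := (hL.conn t ht).1
        refine ⟨[], by simpa using hb, by simp, (ends e0).1, ?_⟩
        intro x hx
        rw [h0] at hx
        exact absurd hx (notMem_empty x)
      · refine ⟨((bdry ends t).erase x0).toList.map (fun v => (x0, v)), ?_, ?_, x0, ?_⟩
        · rw [List.length_map, length_toList, card_erase_of_mem hx0]
          have h1 := hL.bcard t ht
          have h2 : 0 < (bdry ends t).card := card_pos.2 ⟨x0, hx0⟩
          omega
        · intro q hq
          rw [List.mem_map] at hq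
          obtain ⟨v, hv, rfl⟩ := hq
          rw [mem_toList, mem_erase] at hv
          exact ⟨fun h => hv.1 h.symm, bdry_subset_VS hx0, bdry_subset_VS hv.2⟩
        · intro x hx
          by_cases hxx : x = x0
          · exact Or.inl hxx
          · right
            rw [List.mem_map]
            exact ⟨x, mem_toList.2 (mem_erase.2 ⟨hxx, hx⟩), rfl⟩
    obtain ⟨ps, hlen, hpsV, x0, hx0⟩ := hps
    set P := (children L t).biUnion (Fin' ends L t ps) with hP
    have hch : ∀ ε ∈ children L t, ε ∈ L ∧ ε ⊂ t := fun ε hε =>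
      ⟨(mem_children.1 hε).1, (mem_children.1 hε).2.1⟩
    have hPprop : ∀ f ∈ P, f ∈ L ∧ f ⊂ t ∧ ∀ q ∈ ps, f ∉ Uxy ends L t q.1 q.2 ∨ f.card ≤ 1 := by
      intro f hf
      rw [hP, mem_biUnion] at hf
      obtain ⟨ε, hε, hf⟩ := hf
      have h1 := (Fin'_props hL ps ε (hch ε hε).1 (hch ε hε).2.subset).1 f hf
      exact ⟨h1.1, lt_of_le_of_lt h1.2.1 (hch ε hε).2, h1.2.2⟩
    have hchcov : ∀ e ∈ t, ∃ ε ∈ children L t, e ∈ ε := by
      intro e he
      set Z : Finset (Finset E) := L.filter (fun D => e ∈ D ∧ D ⊂ t) with hZ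
      have hsing : {e} ⊂ t := by
        rw [Finset.ssubset_iff_subset_ne]
        refine ⟨singleton_subset_iff.2 he, ?_⟩
        rintro rfl
        rw [card_singleton] at ht1
        omega
      have hZne : Z.Nonempty := ⟨{e}, by
        rw [hZ, mem_filter]; exact ⟨hL.single e, mem_singleton_self e, hsing⟩⟩
      obtain ⟨ε, hε, hmax⟩ := exists_max_image Z Finset.card hZne
      rw [hZ, mem_filter] at hε
      obtain ⟨hεL, heε, hεt⟩ := hε
      refine ⟨ε, mem_children.2 ⟨hεL, hεt, ?_⟩, heε⟩
      intro D hD hsub hDt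
      have h1 := hmax D (by rw [hZ, mem_filter]; exact ⟨hD, hsub heε, hDt⟩)
      exact (eq_of_subset_of_card_le hsub h1).symm
    have hchdisj : ∀ A ∈ children L t, ∀ B ∈ children L t, A ≠ B → Disjoint A B := by
      intro A hA B hB hne
      obtain ⟨c1, c2, c3⟩ := mem_children.1 hA
      obtain ⟨d1, d2, d3⟩ := mem_children.1 hB
      rcases hL.lam A c1 B d1 with h1 | h1 | h1
      · exact absurd (c3 B d1 h1 d2).symm hne
      · exact absurd (d3 A c1 h1 c2) hne
      · exact h1
    apply rx_top (hL.conn t ht) (hL.bcard t ht) hM P (fun f hf => (hPprop f hf).2.1.subset)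
    · intro e he
      obtain ⟨ε, hε, heε⟩ := hchcov e he
      obtain ⟨f, hf, hef⟩ := (Fin'_props hL ps ε (hch ε hε).1 (hch ε hε).2.subset).2.1 e heε
      exact ⟨f, mem_biUnion.2 ⟨ε, hε, hf⟩, hef⟩
    · intro A hA B hB hne
      rw [hP, mem_biUnion] at hA hB
      obtain ⟨ε, hε, hA⟩ := hA
      obtain ⟨ε', hε', hB⟩ := hB
      by_cases hee : ε = ε'
      · subst hee
        exact (Fin'_props hL ps ε (hch ε hε).1 (hch ε hε).2.subset).2.2 A hA B hB hne
      · have hd := hchdisj ε hε ε' hε' hee
        exact disjoint_of_subset_left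
          ((Fin'_props hL ps ε (hch ε hε).1 (hch ε hε).2.subset).1 A hA).2.1
          (disjoint_of_subset_right
            ((Fin'_props hL ps ε' (hch ε' hε').1 (hch ε' hε').2.subset).1 B hB).2.1 hd)
    · -- avoidability
      intro f hf hf1 x hx y hy
      have hx0f : ∀ x ∈ bdry ends t, Cn ends (t \ f) x0 x := by
        intro x hx
        rcases hx0 x hx with rfl | hq
        · exact Relation.ReflTransGen.refl
        · have h1 := (hPprop f hf).2.2 _ hq
          rcases h1 with h1 | h1
          · by_contra h2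
            exact h1 (mem_Uxy.2 ⟨(hPprop f hf).1, (hPprop f hf).2.1.subset, h2⟩)
          · omega
      exact (hx0f x hx).symm'.trans' (hx0f y hy)
    · apply rx_children hL hb hO _ ht ht1 _ ps hpsV
      intro f hf
      have hfP := hPprop f hf
      have hmul : 3 * b * b * (ps.length + 1) ≤ 3 * b * b * b := Nat.mul_le_mul_left _ hlen
      by_cases hf1 : 1 < f.card
      · have h1 := ih f.card (by rw [← htm]; exact card_lt_card hfP.2.1) f rfl hfP.1
        refine RX.mono ?_ h1
        simp only [if_pos hf1]
        have h2 : (6 * b * b * b + b * b + b * b) / 2 = 3 * b * b * b + b * b := by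
          have : 6 * b * b * b + b * b + b * b = 2 * (3 * b * b * b + b * b) := by ring
          rw [this]
          exact Nat.mul_div_cancel_left _ (by norm_num)
        rw [h2]
        nlinarith [hmul]
      · have hf0 : 0 < f.card := card_pos.2 (hL.conn f hfP.1).1
        obtain ⟨e, rfl⟩ := card_eq_one.1 (show f.card = 1 by omega)
        apply RX_edge (hloop e)
        simp only [if_neg hf1]
        nlinarith [hmul]
  · obtain ⟨e, rfl⟩ := card_eq_one.1 (show t.card = 1 by omega)
    exact RX_edge (hloop e) hcube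

/-- **The cubic bound for multigraphs without loops.** -/
theorem nice_of_lam {ends : E → V × V} {b : ℕ} {L : Finset (Finset E)} (hL : Lam ends b L)
    (hb : 1 ≤ b) (hO : OrdProp ends b L) (hM : TwoRoutes (bdry ends))
    (hloop : ∀ e, (ends e).1 ≠ (ends e).2) :
    Nice ends univ (9 * b * b * b + b * b) := by
  classical
  set M : Finset (Finset E) := L.filter (fun A => bdry ends A = ∅) with hM'
  have hML : ∀ A ∈ M, A ∈ L ∧ bdry ends A = ∅ := fun A hA => mem_filter.1 hA
  -- members of `M` are pairwise disjoint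
  have hclosed : ∀ A ∈ M, ∀ B ∈ L, A ⊆ B → B ⊆ A := by
    intro A hA B hB hAB
    obtain ⟨hAL, hA0⟩ := hML A hA
    obtain ⟨e0, he0⟩ := (hL.conn A hAL).1
    have hin : ∀ e : E, ∀ v, v ∈ endsSet ends e → v ∈ VS ends A → e ∈ A := by
      intro e v hv hvA
      by_contra he
      have : v ∈ bdry ends A := mem_bdry.2 ⟨hvA, e, he, hv⟩
      rw [hA0] at this
      exact notMem_empty v this
    have hreach : ∀ u v, Cn ends B u v → u ∈ VS ends A → v ∈ VS ends A := by
      intro u v huv hu
      unfold Cn at huv
      induction huv with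
      | refl => exact hu
      | tail _ hstep ih =>
        obtain ⟨e, _, hj⟩ := hstep
        have h1 := hin e _ hj.mem.1 ih
        exact mem_VS.2 ⟨e, h1, hj.mem.2⟩
    intro e he
    have hv0 : (ends e0).1 ∈ endsSet ends e0 := mem_endsSet.2 (Or.inl rfl)
    have hv : (ends e).1 ∈ endsSet ends e := mem_endsSet.2 (Or.inl rfl)
    have h1 := (hL.conn B hB).2 _ (mem_VS.2 ⟨e0, hAB he0, hv0⟩) _ (mem_VS.2 ⟨e, he, hv⟩)
    exact hin e _ hv (hreach _ _ h1 (mem_VS.2 ⟨e0, he0, hv0⟩))
  have hdisj : ∀ A ∈ M, ∀ B ∈ M, A ≠ B → Disjoint A B := by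
    intro A hA B hB hne
    rcases hL.lam A (hML A hA).1 B (hML B hB).1 with h | h | h
    · exact absurd (Subset.antisymm h (hclosed A hA B (hML B hB).1 h)) hne
    · exact absurd (Subset.antisymm (hclosed B hB A (hML A hA).1 h) h) hne
    · exact h
  have hcov : ∀ e : E, ∃ A ∈ M, e ∈ A := by
    intro e
    obtain ⟨A, hA, heA, hA0⟩ := hL.top e
    exact ⟨A, mem_filter.2 ⟨hA, hA0⟩, heA⟩
  have hfam : ∀ A : Finset E, ∃ B : Finset (E → ZMod 2), A ∈ M →
      (Spans ends A B ∧ ∀ e ∈ A, ply B e ≤ 9 * b * b * b + b * b) := by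
    intro A
    by_cases hA : A ∈ M
    · obtain ⟨B, rt, rx, a1, _, _, _, _, a6⟩ := main_rec hL hb hO hM hloop A.card A rfl
        (hML A hA).1 PEmpty PEmpty (fun x => x.elim) (fun x => x.elim) (fun x => x.elim)
        (by simp) (fun x => x.elim) (fun f hf => absurd hf (notMem_empty f)) (fun x => x.elim)
      refine ⟨B, fun _ => ⟨a1, ?_⟩⟩
      intro e he
      have := a6 e he
      omega
    · exact ⟨∅, fun h => absurd h hA⟩
  choose Bf hBf using hfam
  refine ⟨M.biUnion Bf, ⟨?_, ?_⟩, ?_⟩
  · intro z hz
    rw [mem_biUnion] at hz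
    obtain ⟨A, hA, hz⟩ := hz
    exact ⟨subset_univ _, ((hBf A hA).1.1 z hz).2⟩
  · intro z _ hzb
    have hzsum : z = ∑ A ∈ M, rst A z := by
      ext e
      obtain ⟨A, hA, heA⟩ := hcov e
      rw [sum_apply_piece hdisj (fun A => rst A z) (fun A _ => supp_rst A z) hA heA]
      unfold rst
      rw [if_pos heA]
    rw [hzsum]
    apply Submodule.sum_mem
    intro A hA
    have h1 := (hBf A hA).1.2 (rst A z) (supp_rst A z) (by
      intro x
      apply bd_rst_eq_zero hzb
      rw [(hML A hA).2]
      exact notMem_empty x)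
    refine Submodule.span_mono ?_ h1
    intro y hy
    exact mem_coe.2 (mem_biUnion.2 ⟨A, hA, mem_coe.1 hy⟩)
  · intro e
    obtain ⟨A, hA, heA⟩ := hcov e
    refine le_trans ?_ ((hBf A hA).2 e heA)
    unfold ply
    apply card_le_card
    intro z hz
    rw [mem_filter, mem_biUnion] at hz
    obtain ⟨⟨A', hA', hz⟩, hze⟩ := hz
    rw [mem_filter]
    refine ⟨?_, hze⟩
    by_cases hAA : A' = A
    · rw [← hAA]; exact hz
    · exfalso
      have h3 := ((hBf A' hA').1.1 z hz).1 ((mem_supp z e).2 hze)
      exact (Finset.disjoint_left.1 (hdisj A' hA' A hA hAA)) h3 heA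

end BNTW
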